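import Pool.Agent.Lib.MP_a247fa_nt.Critical

/-!
Accumulation points of orbits that shadow a Collatz trajectory.
-/

set_option autoImplicit false

namespace Pool.Agent.Lib.MP_a247fa_nt

open Real Function Filter Topology

lemma cluster_closed (I : ℕ → Set ℝ) (hclosed : ∀ m, IsClosed (I m)) (mm : ℕ → ℕ) {K : ℕ}
    {x : ℝ} {u : ℕ → ℝ} (hmem : ∀ k, K ≤ k → u k ∈ I (mm k))
    (hb : ∀ k, K ≤ k → (mm k : ℝ) ≤ u k + 1)
    (hx : MapClusterPt x atTop u) : ∃ k, K ≤ k ∧ x ∈ I (mm k) := by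
  by_contra hcon
  push Not at hcon
  set F : Set ℕ := {j | (j : ℝ) ≤ x + 2 ∧ ∃ k, K ≤ k ∧ mm k = j} with hF
  have hfin : F.Finite := by
    apply (Set.finite_Iic (⌈x + 2⌉₊)).subset
    intro j hj
    have : (j : ℝ) ≤ ⌈x + 2⌉₊ := hj.1.trans (Nat.le_ceil _)
    exact_mod_cast this
  have hS : IsClosed (⋃ j ∈ F, I j) := hfin.isClosed_biUnion (fun j _ => hclosed j)
  have hxS : x ∉ ⋃ j ∈ F, I j := by
    simp only [Set.mem_iUnion, not_exists]
    rintro j ⟨_, k, hk, rfl⟩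
    exact hcon k hk
  have hnb : (⋃ j ∈ F, I j)ᶜ ∩ Set.Iio (x + 1) ∈ 𝓝 x :=
    Filter.inter_mem (hS.isOpen_compl.mem_nhds hxS) (Iio_mem_nhds (by linarith))
  have hfreq := (mapClusterPt_iff_frequently.mp hx) _ hnb
  obtain ⟨k, hk1, hk2⟩ := (hfreq.and_eventually (eventually_ge_atTop K)).exists
  apply hk1.1
  simp only [Set.mem_iUnion]
  refine ⟨mm k, ⟨?_, k, hk2, rfl⟩, hmem k hk2⟩
  have h1 := hb k hk2
  have h2 : u k < x + 1 := hk1.2
  linarith

lemma trap_cluster {n : ℕ} (hn : 0 < n) {c x : ℝ} (hc : c ∈ trapI n)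
    (hx : MapClusterPt x atTop (fun k => cf^[k] c)) : ∃ m : ℕ, 0 < m ∧ x ∈ trapI m := by
  obtain ⟨k, _, hk⟩ := cluster_closed trapI (fun m => isClosed_Icc) (fun k => T^[k] n) (K := 0)
    (u := fun k => cf^[k] c) (fun k _ => (iter_mem_trap hn hc k).2)
    (fun k _ => by have := (iter_mem_trap hn hc k).2.1; linarith) hx
  exact ⟨_, T_iter_pos hn k, hk⟩

lemma shadow_cluster {n : ℕ} (hn : 0 < n) {X : ℝ} (hX : ∀ k : ℕ, ((T^[k] n : ℕ) : ℝ) ≤ X)
    {c x : ℝ} (hc : c ∈ shadowI X n)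
    (hx : MapClusterPt x atTop (fun k => cf^[k] c)) :
    ∃ m : ℕ, 0 < m ∧ (∀ k : ℕ, ((T^[k] m : ℕ) : ℝ) ≤ X) ∧ x ∈ shadowI X m := by
  obtain ⟨k, _, hk⟩ := cluster_closed (shadowI X) (fun m => isClosed_Icc) (fun k => T^[k] n)
    (K := 0) (u := fun k => cf^[k] c) (fun k _ => iter_mem_shadow hn hX hc k)
    (fun k _ => by
      have := shadowI_bounds (T_iter_pos hn k) (hX k) (iter_mem_shadow hn hX hc k)
      linarith) hx
  refine ⟨_, T_iter_pos hn k, ?_, hk⟩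
  intro j
  rw [← Function.iterate_add_apply]
  exact hX _

lemma cluster_shift {c x : ℝ} (hx : MapClusterPt x atTop (fun k => cf^[k] c)) :
    MapClusterPt x atTop (fun k => cf^[k] (cf c)) := by
  rw [mapClusterPt_iff_frequently] at hx ⊢
  intro s hs
  have h := hx s hs
  rw [Filter.frequently_atTop] at h ⊢
  intro a
  obtain ⟨b, hb, hbs⟩ := h (a + 1)
  refine ⟨b - 1, by omega, ?_⟩
  rw [← Function.iterate_succ_apply, show (b - 1).succ = b by omega]
  exact hbs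

/-- If the orbit of a positive critical point accumulates at a periodic point `x`, then `x` lies
in the trap, or the critical point is just to the left of an even integer `n` whose Collatz
trajectory exceeds `12 n / 5`. -/
theorem critical_accum {c : ℝ} (hc0 : 0 < c) (hc : dcf c = 0) {x : ℝ} {p : ℕ} (hp : 0 < p)
    (hper : cf^[p] x = x) (hx : MapClusterPt x atTop (fun k => cf^[k] c)) :
    (∃ m : ℕ, 0 < m ∧ T^[p] m = m ∧ x ∈ trapI m) ∨
    (∃ n : ℕ, 0 < n ∧ n % 2 = 0 ∧ (n : ℝ) - 1 / 2 ≤ c ∧ c < n ∧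
      ∃ k : ℕ, 12 / 5 * (n : ℝ) < ((T^[k] n : ℕ) : ℝ)) := by
  set n : ℕ := ⌊c + 1 / 2⌋₊ with hn
  have h1 : (n : ℝ) ≤ c + 1 / 2 := Nat.floor_le (by linarith)
  have h2 : c + 1 / 2 < n + 1 := Nat.lt_floor_add_one _
  set d : ℝ := c - n with hd
  have hcd : c = n + d := by rw [hd]; ring
  have hd1 : -(1 / 2) ≤ d := by rw [hd]; linarith
  have hd2 : d ≤ 1 / 2 := by rw [hd]; linarith
  rw [hcd] at hc
  rcases Nat.mod_two_eq_zero_or_one n with h | h
  · obtain ⟨hn0, hneg, hmem⟩ := critical_even h hd1 hd2 (by rw [← hcd]; exact hc0) hc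
    by_cases hX : ∀ k : ℕ, ((T^[k] n : ℕ) : ℝ) ≤ 12 / 5 * n
    · left
      have hX' : ∀ k : ℕ, ((T^[k] (T n) : ℕ) : ℝ) ≤ 12 / 5 * n := by
        intro k
        rw [← Function.iterate_succ_apply]
        exact hX _
      rw [← hcd] at hmem
      obtain ⟨m, hm0, hmX, hxm⟩ := shadow_cluster (T_pos hn0) hX' hmem (cluster_shift hx)
      have := periodic_shadow hm0 hmX hxm hp hper
      exact ⟨m, hm0, this.2, this.1⟩
    · right
      push Not at hX
      exact ⟨n, hn0, h, by linarith, by rw [hcd]; linarith, hX⟩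
  · left
    obtain ⟨_, hmem⟩ := critical_odd h hd1 hd2 hc
    have hn0 : 0 < n := by omega
    rw [← hcd] at hmem
    obtain ⟨m, hm0, hxm⟩ := trap_cluster hn0 hmem hx
    exact ⟨m, hm0, periodic_of_trap hm0 hxm hper, hxm⟩

end Pool.Agent.Lib.MP_a247fa_nt
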