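import Mathlib

/-!
Shared basics for MP_a247fa_nt: the real extension `cf` of the Collatz map, the Collatz map `T`
itself, attracting periodic points, derivative formulas, and the basic trigonometric identities
at a real number near an integer.
-/

set_option autoImplicit false

namespace Pool.Agent.Lib.MP_a247fa_nt

open Real Function

/-- The real-analytic extension `x + 1/4 - (2x+1)/4 * cos (pi x)` of the Collatz map. -/
noncomputable def cf (x : ℝ) : ℝ := x + 1 / 4 - (2 * x + 1) / 4 * Real.cos (Real.pi * x)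

/-- The Collatz map `T n = n/2` for even `n` and `(3n+1)/2` for odd `n`. -/
def T (n : ℕ) : ℕ := if n % 2 = 0 then n / 2 else (3 * n + 1) / 2

/-- `x` is an attracting periodic point of `cf` : it is periodic, and the multiplier
`(cf^p)'(x)` of its cycle, `p` the minimal period, has absolute value below `1`. -/
def IsAttracting (x : ℝ) : Prop :=
  0 < minimalPeriod cf x ∧ |deriv (cf^[minimalPeriod cf x]) x| < 1

/-- The derivative of `cf`. -/
noncomputable def dcf (x : ℝ) : ℝ :=
  1 - Real.cos (Real.pi * x) / 2 + (2 * x + 1) * Real.pi / 4 * Real.sin (Real.pi * x)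

lemma hasDerivAt_cf (x : ℝ) : HasDerivAt cf (dcf x) x := by
  have h1 : HasDerivAt (fun y : ℝ => Real.pi * y) Real.pi x := by
    simpa using (hasDerivAt_id x).const_mul Real.pi
  have h2 : HasDerivAt (fun y : ℝ => Real.cos (Real.pi * y))
      (-Real.sin (Real.pi * x) * Real.pi) x := h1.cos
  have h3 : HasDerivAt (fun y : ℝ => (2 * y + 1) / 4) (2 / 4) x := by
    have := ((hasDerivAt_id x).const_mul 2).add_const 1
    simpa using this.div_const 4
  have h4 : HasDerivAt (fun y : ℝ => y + 1 / 4) 1 x := by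
    simpa using (hasDerivAt_id x).add_const (1 / 4 : ℝ)
  have h5 := h4.sub (h3.mul h2)
  unfold cf dcf
  refine h5.congr_deriv ?_
  ring

lemma differentiable_cf : Differentiable ℝ cf := fun x => (hasDerivAt_cf x).differentiableAt

lemma continuous_cf : Continuous cf := differentiable_cf.continuous

lemma deriv_cf (x : ℝ) : deriv cf x = dcf x := (hasDerivAt_cf x).deriv

lemma differentiable_iter (n : ℕ) : Differentiable ℝ (cf^[n]) := differentiable_cf.iterate n

lemma deriv_iter (n : ℕ) (x : ℝ) :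
    deriv (cf^[n]) x = ∏ i ∈ Finset.range n, dcf (cf^[i] x) := by
  induction n with
  | zero => simp
  | succ n ih =>
    rw [Function.iterate_succ', Finset.prod_range_succ, ← ih,
      deriv_comp x differentiable_cf.differentiableAt (differentiable_iter n).differentiableAt,
      deriv_cf, mul_comm]

/-- `cf` in terms of squares: the defining interpolation formula. -/
lemma cf_eq (x : ℝ) : cf x = x / 2 * Real.cos (Real.pi * x / 2) ^ 2
    + (3 * x + 1) / 2 * Real.sin (Real.pi * x / 2) ^ 2 := by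
  have h1 : Real.cos (Real.pi * x) = 2 * Real.cos (Real.pi * x / 2) ^ 2 - 1 := by
    rw [← Real.cos_two_mul]; ring_nf
  have h2 : Real.sin (Real.pi * x / 2) ^ 2 = 1 - Real.cos (Real.pi * x / 2) ^ 2 := by
    rw [Real.sin_sq]
  rw [cf, h1, h2]; ring

lemma cf_ge (x : ℝ) (hx : 0 ≤ x) : x / 2 ≤ cf x := by
  rw [cf_eq]
  have h := Real.sin_sq_add_cos_sq (Real.pi * x / 2)
  nlinarith [sq_nonneg (Real.sin (Real.pi * x / 2))]

lemma cf_le (x : ℝ) (hx : 0 ≤ x) : cf x ≤ (3 * x + 1) / 2 := by
  rw [cf_eq]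
  have h := Real.sin_sq_add_cos_sq (Real.pi * x / 2)
  nlinarith [sq_nonneg (Real.cos (Real.pi * x / 2))]

lemma cf_pos (x : ℝ) (hx : 0 < x) : 0 < cf x := by
  have := cf_ge x hx.le
  linarith

/-- `cf` at distance `d` from an even integer. -/
lemma cf_even (m : ℕ) (hm : m % 2 = 0) (d : ℝ) :
    cf (m + d) = m / 2 + d * (1 - Real.cos (Real.pi * d) / 2)
      + (2 * m + 1) / 4 * (1 - Real.cos (Real.pi * d)) := by
  obtain ⟨k, rfl⟩ : ∃ k, m = 2 * k := ⟨m / 2, by omega⟩
  have h : Real.cos (Real.pi * (((2 * k : ℕ) : ℝ) + d)) = Real.cos (Real.pi * d) := by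
    have : Real.pi * (((2 * k : ℕ) : ℝ) + d) = Real.pi * d + k * (2 * Real.pi) := by
      push_cast; ring
    rw [this, Real.cos_add_nat_mul_two_pi]
  rw [cf, h]; push_cast; ring

/-- `cf` at distance `d` from an odd integer. -/
lemma cf_odd (m : ℕ) (hm : m % 2 = 1) (d : ℝ) :
    cf (m + d) = (3 * m + 1) / 2 + d * (1 + Real.cos (Real.pi * d) / 2)
      - (2 * m + 1) / 4 * (1 - Real.cos (Real.pi * d)) := by
  obtain ⟨k, rfl⟩ : ∃ k, m = 2 * k + 1 := ⟨m / 2, by omega⟩
  have h : Real.cos (Real.pi * (((2 * k + 1 : ℕ) : ℝ) + d)) = - Real.cos (Real.pi * d) := by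
    have : Real.pi * (((2 * k + 1 : ℕ) : ℝ) + d) = (Real.pi * d + Real.pi) + k * (2 * Real.pi) := by
      push_cast; ring
    rw [this, Real.cos_add_nat_mul_two_pi, Real.cos_add_pi]
  rw [cf, h]; push_cast; ring

/-- the derivative of `cf` at distance `d` from an even integer. -/
lemma dcf_even (m : ℕ) (hm : m % 2 = 0) (d : ℝ) :
    dcf (m + d) = 1 - Real.cos (Real.pi * d) / 2
      + (2 * (m + d) + 1) * Real.pi / 4 * Real.sin (Real.pi * d) := by
  obtain ⟨k, rfl⟩ : ∃ k, m = 2 * k := ⟨m / 2, by omega⟩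
  have h : Real.pi * (((2 * k : ℕ) : ℝ) + d) = Real.pi * d + k * (2 * Real.pi) := by
    push_cast; ring
  rw [dcf, h, Real.cos_add_nat_mul_two_pi, Real.sin_add_nat_mul_two_pi]

/-- the derivative of `cf` at distance `d` from an odd integer. -/
lemma dcf_odd (m : ℕ) (hm : m % 2 = 1) (d : ℝ) :
    dcf (m + d) = 1 + Real.cos (Real.pi * d) / 2
      - (2 * (m + d) + 1) * Real.pi / 4 * Real.sin (Real.pi * d) := by
  obtain ⟨k, rfl⟩ : ∃ k, m = 2 * k + 1 := ⟨m / 2, by omega⟩
  have h : Real.pi * (((2 * k + 1 : ℕ) : ℝ) + d) = (Real.pi * d + Real.pi) + k * (2 * Real.pi) := by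
    push_cast; ring
  rw [dcf, h, Real.cos_add_nat_mul_two_pi, Real.sin_add_nat_mul_two_pi, Real.cos_add_pi,
    Real.sin_add_pi]
  ring

lemma cf_natCast (m : ℕ) : cf m = T m := by
  rcases Nat.mod_two_eq_zero_or_one m with h | h
  · have := cf_even m h 0
    simp only [add_zero, mul_zero, Real.cos_zero, zero_mul, sub_self] at this
    rw [this]
    obtain ⟨k, rfl⟩ : ∃ k, m = 2 * k := ⟨m / 2, by omega⟩
    simp [T]
  · have := cf_odd m h 0
    simp only [add_zero, mul_zero, Real.cos_zero, zero_mul, sub_self] at this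
    rw [this]
    obtain ⟨k, rfl⟩ : ∃ k, m = 2 * k + 1 := ⟨m / 2, by omega⟩
    have e : (3 * (2 * k + 1) + 1) / 2 = 3 * k + 2 := by omega
    have e2 : (2 * k + 1) % 2 = 1 := by omega
    simp only [T, e2, one_ne_zero, if_false, e]
    push_cast; ring

lemma T_pos {m : ℕ} (hm : 0 < m) : 0 < T m := by
  unfold T; split_ifs <;> omega

/-- A periodic point `x` (period `p > 0`, not necessarily minimal) with `|(cf^p)'(x)| < 1` is
attracting. -/
lemma isAttracting_of_period {x : ℝ} {p : ℕ} (hp : 0 < p) (hx : cf^[p] x = x)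
    (h : |deriv (cf^[p]) x| < 1) : IsAttracting x := by
  have hper : IsPeriodicPt cf p x := hx
  have hq : 0 < minimalPeriod cf x := hper.minimalPeriod_pos hp
  refine ⟨hq, ?_⟩
  obtain ⟨k, hk⟩ := hper.minimalPeriod_dvd
  by_contra hcon
  push Not at hcon
  set q := minimalPeriod cf x with hqdef
  have hqx : cf^[q] x = x := isPeriodicPt_minimalPeriod cf x
  have key : ∀ j : ℕ, deriv (cf^[q * j]) x = (deriv (cf^[q]) x) ^ j := by
    intro j
    induction j with
    | zero => simp
    | succ j ih =>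
      have hfix : cf^[q * j] x = x := by
        have : IsPeriodicPt cf (q * j) x := (isPeriodicPt_minimalPeriod cf x).mul_const j
        exact this
      rw [Nat.mul_succ, Nat.add_comm, Function.iterate_add,
        deriv_comp x (differentiable_iter q).differentiableAt
          (differentiable_iter (q * j)).differentiableAt, hfix, ih, pow_succ, mul_comm]
  rw [hk, key k, abs_pow] at h
  exact absurd h (not_lt.mpr (one_le_pow₀ hcon))

end Pool.Agent.Lib.MP_a247fa_nt
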