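import Pool.Agent.Lib.MP_a247fa_nt.Numerics

/-!
Classification of the attracting periodic points of `cf` in the trap intervals around `1`, `2`.
-/

set_option autoImplicit false

namespace Pool.Agent.Lib.MP_a247fa_nt

open Real Function

lemma trapI_one : trapI 1 = Set.Icc (1 : ℝ) (1 + 4 / 15) := by
  unfold trapI; norm_num

lemma trapI_two : trapI 2 = Set.Icc (2 : ℝ) (2 + 4 / 25) := by
  unfold trapI; norm_num

lemma T_one : T 1 = 2 := rfl
lemma T_two : T 2 = 1 := rfl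

lemma cf_one : cf 1 = 2 := by
  have := cf_natCast 1
  rw [T_one] at this
  exact_mod_cast this

lemma cf_two : cf 2 = 1 := by
  have := cf_natCast 2
  rw [T_two] at this
  exact_mod_cast this

lemma cf_mem_two {x : ℝ} (hx : x ∈ trapI 1) : cf x ∈ trapI 2 := by
  have := mapsTo_trap (m := 1) one_pos hx
  rwa [T_one] at this

lemma cf_mem_one {x : ℝ} (hx : x ∈ trapI 2) : cf x ∈ trapI 1 := by
  have := mapsTo_trap (m := 2) two_pos hx
  rwa [T_two] at this

/-- second iterate -/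
noncomputable def g (x : ℝ) : ℝ := cf (cf x)

lemma g_mem {x : ℝ} (hx : x ∈ trapI 1) : g x ∈ trapI 1 := cf_mem_one (cf_mem_two hx)

lemma hasDerivAt_g (x : ℝ) : HasDerivAt g (dcf (cf x) * dcf x) x :=
  (hasDerivAt_cf (cf x)).comp x (hasDerivAt_cf x)

lemma cf_mono_left {x y : ℝ} (hx : 1 ≤ x) (hy : y ≤ 1 + 0.127) (hxy : x ≤ y) : cf x ≤ cf y := by
  have h : MonotoneOn cf (Set.Icc 1 (1 + 0.127)) := by
    apply monotoneOn_of_deriv_nonneg (convex_Icc _ _) continuous_cf.continuousOn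
      differentiable_cf.differentiableOn
    intro z hz
    rw [interior_Icc] at hz
    rw [deriv_cf]
    have := dcf_strictAnti.antitoneOn (a := z) (b := 1 + 0.127) ⟨hz.1.le, by linarith [hz.2]⟩
      ⟨by norm_num, by norm_num⟩ hz.2.le
    linarith [n_d127]
  exact h ⟨hx, hxy.trans hy⟩ ⟨hx.trans hxy, hy⟩ hxy

lemma cf_mono_right {x y : ℝ} (hx : 2 ≤ x) (hy : y ≤ 5 / 2) (hxy : x ≤ y) : cf x ≤ cf y :=
  cf_strictMono_right.monotoneOn ⟨hx, hxy.trans hy⟩ ⟨hx.trans hxy, hy⟩ hxy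

/-- upper bound of `cf` on the first trap interval -/
lemma cf_le_max {x : ℝ} (h1 : 1 ≤ x) (h2 : x ≤ 1 + 4 / 15) : cf x ≤ 2 + 0.1395 := by
  have hc := n_fc
  rcases le_total x (1 + 0.181) with h | h
  · -- increasing part
    rcases h.eq_or_lt with rfl | h
    · linarith
    obtain ⟨c, hc1, hc2⟩ := exists_hasDerivAt_eq_slope cf dcf h continuous_cf.continuousOn
      (fun y _ => hasDerivAt_cf y)
    have h3 : dcf (1 + 0.181) ≤ dcf c := by
      apply dcf_strictAnti.antitoneOn ⟨by linarith [hc1.1], by linarith [hc1.2]⟩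
        ⟨by norm_num, by norm_num⟩ hc1.2.le
    have h4 := n_d181'
    have h5 : 0 < 1 + 0.181 - x := by linarith
    rw [eq_div_iff h5.ne'] at hc2
    have h6 : -0.001 * (1 + 0.181 - x) ≤ cf (1 + 0.181) - cf x := by
      rw [← hc2]; exact mul_le_mul_of_nonneg_right (h4.trans h3) h5.le
    have h7 : 1 + 0.181 - x ≤ 0.181 := by linarith
    linarith
  · rcases h.eq_or_lt with rfl | h
    · linarith
    obtain ⟨c, hc1, hc2⟩ := exists_hasDerivAt_eq_slope cf dcf h continuous_cf.continuousOn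
      (fun y _ => hasDerivAt_cf y)
    have h3 : dcf c ≤ dcf (1 + 0.181) := by
      apply dcf_strictAnti.antitoneOn ⟨by norm_num, by norm_num⟩
        ⟨by linarith [hc1.1], by linarith [hc1.2]⟩ hc1.1.le
    have h4 := n_d181
    have h5 : 0 < x - (1 + 0.181) := by linarith
    rw [eq_div_iff h5.ne'] at hc2
    have h6 : cf x - cf (1 + 0.181) ≤ 0 := by
      rw [← hc2]; exact mul_nonpos_of_nonpos_of_nonneg (h3.trans h4) h5.le
    linarith

/-- lower bound of `cf` between two points by concavity -/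
lemma cf_ge_min {x y z : ℝ} (h1 : 1 ≤ x) (h2 : y ≤ 3 / 2) (hxz : x ≤ z) (hzy : z ≤ y) :
    min (cf x) (cf y) ≤ cf z := by
  have hx : x ∈ Set.Icc (1 : ℝ) (3 / 2) := ⟨h1, by linarith⟩
  have hy : y ∈ Set.Icc (1 : ℝ) (3 / 2) := ⟨by linarith, h2⟩
  exact cf_concave.min_le_of_mem_Icc hx hy ⟨hxz, hzy⟩

lemma g_lt_self {x : ℝ} (h1 : 1 < x) (h2 : x ≤ 1 + 0.02) : g x < x := by
  set d : ℝ := x - 1 with hd
  have hd0 : 0 < d := by rw [hd]; linarith
  have hd2 : d ≤ 0.02 := by rw [hd]; linarith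
  have hx : x = 1 + d := by rw [hd]; ring
  set q : ℝ := Real.pi ^ 2 with hq
  have hq1 : q < 9.87 := pi_sq_lt
  have hq2 : 9.869 < q := pi_sq_gt
  have hc : 4.93 * d ^ 2 ≤ 1 - Real.cos (Real.pi * d) := by
    have := le_one_sub_cos d
    have e : Real.pi ^ 4 = q ^ 2 := by rw [hq]; ring
    rw [e] at this
    have h4 : q ^ 2 * d ^ 4 / 24 ≤ 0.002 * d ^ 2 := by
      have h5 : d ^ 2 ≤ 0.0004 := by nlinarith
      have h6 : q ^ 2 ≤ 98 := by nlinarith
      have h7 : 0 ≤ d ^ 2 := sq_nonneg d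
      have h8 : q ^ 2 * d ^ 2 ≤ 98 * 0.0004 := mul_le_mul h6 h5 h7 (by norm_num)
      have e4 : q ^ 2 * d ^ 4 / 24 = (q ^ 2 * d ^ 2) * d ^ 2 / 24 := by ring
      rw [e4]
      have := mul_le_mul_of_nonneg_right h8 h7
      nlinarith
    have h9 : 4.9345 * d ^ 2 ≤ q * d ^ 2 / 2 := by nlinarith [sq_nonneg d]
    have : Real.pi ^ 2 * d ^ 2 / 2 = q * d ^ 2 / 2 := by rw [hq]
    linarith [sq_nonneg d]
  set e : ℝ := cf x - 2 with he
  have hex : cf x = 2 + e := by rw [he]; ring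
  have he1 : e ≤ 3 / 2 * d - 3.5 * d ^ 2 := by
    rw [he, hx, cf_one_add]
    have : 0 ≤ d / 2 * (1 - Real.cos (Real.pi * d)) :=
      mul_nonneg (by positivity) (one_sub_cos_nonneg _)
    nlinarith [sq_nonneg d]
  have he0 : 0 ≤ e := by
    have hm : x ∈ trapI 1 := by
      rw [trapI_one]; exact ⟨h1.le, by linarith⟩
    have := (cf_mem_two hm)
    rw [trapI_two] at this
    rw [he]; linarith [this.1]
  have he2 : e ≤ 3 / 2 * d := by nlinarith [sq_nonneg d]
  have he3 : e ≤ 0.03 := by linarith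
  have hg : g x = 1 + (1 / 2 * e + (e / 2 + 5 / 4) * (1 - Real.cos (Real.pi * e))) := by
    rw [g, hex, cf_two_add]
  have hce : 1 - Real.cos (Real.pi * e) ≤ 4.935 * e ^ 2 := by
    have := one_sub_cos_le e
    have e1 : Real.pi ^ 2 * e ^ 2 / 2 = q * e ^ 2 / 2 := by rw [hq]
    nlinarith [sq_nonneg e]
  have h10 : (e / 2 + 5 / 4) * (1 - Real.cos (Real.pi * e)) ≤ 1.265 * (4.935 * e ^ 2) := by
    apply mul_le_mul _ hce (one_sub_cos_nonneg _) (by norm_num)
    linarith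
  have h11 : 1 / 2 * e + 1.265 * (4.935 * e ^ 2) < d := by
    -- e ≤ d (1.5 - 3.5 d)
    have h12 : e ^ 2 ≤ (3 / 2 * d - 3.5 * d ^ 2) ^ 2 := pow_le_pow_left₀ he0 he1 2
    have h13 : (3 / 2 * d - 3.5 * d ^ 2) ^ 2 = d * (d * (3 / 2 - 3.5 * d) ^ 2) := by ring
    have h14 : 1 / 2 * (3 / 2 - 3.5 * d) + 6.2428 * (d * (3 / 2 - 3.5 * d) ^ 2) < 1 := by
      have : d * (3 / 2 - 3.5 * d) ^ 2 ≤ 2.25 * d - 10.5 * d ^ 2 + 12.25 * d ^ 3 := by
        nlinarith
      have h15 : d ^ 3 ≤ 0.02 * d ^ 2 := by nlinarith [sq_nonneg d]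
      nlinarith
    have h16 : 1.265 * (4.935 * e ^ 2) ≤ 6.2428 * (d * (d * (3 / 2 - 3.5 * d) ^ 2)) := by
      rw [← h13]
      nlinarith [sq_nonneg e]
    have h17 : 1 / 2 * e ≤ 1 / 2 * (d * (3 / 2 - 3.5 * d)) := by nlinarith
    have h18 : 1 / 2 * (d * (3 / 2 - 3.5 * d)) + 6.2428 * (d * (d * (3 / 2 - 3.5 * d) ^ 2)) =
      d * (1 / 2 * (3 / 2 - 3.5 * d) + 6.2428 * (d * (3 / 2 - 3.5 * d) ^ 2)) := by ring
    have h19 := mul_lt_mul_of_pos_left h14 hd0
    linarith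
  rw [hg, hx]
  linarith

lemma self_lt_g {x : ℝ} (h1 : 1 + 0.05 ≤ x) (h2 : x < 1 + 0.127) : x < g x := by
  have key : ∀ {a e b : ℝ}, 0 ≤ a → a ≤ x - 1 → (2 + e : ℝ) ≤ cf (1 + a) → 0 ≤ e →
      (1 + b : ℝ) ≤ cf (2 + e) → 1 + b ≤ g x := by
    intro a e b ha hax h3 he h4
    have h5 : cf (1 + a) ≤ cf x := cf_mono_left (by linarith) h2.le (by linarith)
    have h6 : cf x ≤ 2 + 0.1395 := cf_le_max (by linarith) (by linarith)
    exact h4.trans (cf_mono_right (by linarith) (by linarith) (h3.trans h5))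
  rcases lt_or_ge x (1 + 0.0596) with h | h
  · have := key (a := 0.05) (by norm_num) (by linarith) n_f1050 (by norm_num) n_F1050
    linarith
  rcases lt_or_ge x (1 + 0.074) with h' | h'
  · have := key (a := 0.0596) (by norm_num) (by linarith) n_f1059 (by norm_num) n_F1059
    linarith
  rcases lt_or_ge x (1 + 0.096) with h'' | h''
  · have := key (a := 0.074) (by norm_num) (by linarith) n_f1074 (by norm_num) n_F1074
    linarith
  · have := key (a := 0.096) (by norm_num) (by linarith) n_f1096 (by norm_num) n_F1096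
    linarith

lemma one_le_deriv_g {x : ℝ} (h1 : 1 + 0.02 ≤ x) (h2 : x ≤ 1 + 0.05) :
    1 ≤ dcf (cf x) * dcf x := by
  have h6 : cf x ≤ 2 + 0.1395 := cf_le_max (by linarith) (by linarith)
  rcases le_total x (1 + 0.03) with h | h
  · have h3 : 1.27 ≤ dcf x := n_d103.trans (dcf_strictAnti.antitoneOn
      ⟨by linarith, by linarith⟩ ⟨by norm_num, by norm_num⟩ h)
    have h4 : 2 + 0.0284 ≤ cf x := n_f102.trans (cf_mono_left (by norm_num) (by linarith) h1)
    have h5 : 0.84 ≤ dcf (cf x) := n_D102.trans (dcf_strictMono_right.monotoneOn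
      ⟨by norm_num, by norm_num⟩ ⟨by linarith, by linarith⟩ h4)
    nlinarith
  · have h3 : 1.11 ≤ dcf x := n_d105.trans (dcf_strictAnti.antitoneOn
      ⟨by linarith, by linarith⟩ ⟨by norm_num, by norm_num⟩ h2)
    have h4 : 2 + 0.0415 ≤ cf x := n_f103.trans (cf_mono_left (by norm_num) (by linarith) h)
    have h5 : 1 ≤ dcf (cf x) := n_D103.trans (dcf_strictMono_right.monotoneOn
      ⟨by norm_num, by norm_num⟩ ⟨by linarith, by linarith⟩ h4)
    nlinarith

/-- the contraction interval -/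
def K : Set ℝ := Set.Icc (1 + 0.165) (1 + 0.195)

lemma g_mem_K' {x : ℝ} (h1 : 1 + 0.127 ≤ x) (h2 : x ≤ 1 + 0.195) : g x ∈ K := by
  have h6 : cf x ≤ 2 + 0.1395 := cf_le_max (by linarith) (by linarith)
  have h7 : 2 + 0.1266 ≤ cf x := by
    have := cf_ge_min (x := 1 + 0.127) (y := 1 + 0.195) (z := x) (by norm_num) (by norm_num) h1 h2
    exact (le_min n_f127 n_f195).trans this
  refine ⟨?_, ?_⟩
  · exact n_F127.trans (cf_mono_right (by norm_num) (by linarith) h7)
  · exact (cf_mono_right (by linarith) (by norm_num) h6).trans n_Fc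

lemma g_mem_K {x : ℝ} (hx : x ∈ K) : g x ∈ K :=
  g_mem_K' (by linarith [hx.1]) hx.2

lemma abs_deriv_g_le {x : ℝ} (hx : x ∈ K) : |dcf (cf x) * dcf x| ≤ 1 / 2 := by
  have h6 : cf x ≤ 2 + 0.1395 := cf_le_max (by linarith [hx.1]) (by linarith [hx.2])
  have h7 : 2 + 0.1266 ≤ cf x := by
    have := cf_ge_min (x := 1 + 0.127) (y := 1 + 0.195) (z := x) (by norm_num) (by norm_num)
      (by linarith [hx.1]) hx.2
    exact (le_min n_f127 n_f195).trans this
  have h1 : dcf (cf x) ≤ 2.31 := (dcf_strictMono_right.monotoneOn ⟨by linarith, by linarith⟩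
    ⟨by norm_num, by norm_num⟩ h6).trans n_D1393
  have h2 : 0 < dcf (cf x) := dcf_pos_right (by linarith) (by linarith)
  have h3 : dcf x ≤ 0.14 := (dcf_strictAnti.antitoneOn ⟨by norm_num, by norm_num⟩
    ⟨by linarith [hx.1], by linarith [hx.2]⟩ hx.1).trans n_d165
  have h4 : -0.14 ≤ dcf x := n_d195.trans (dcf_strictAnti.antitoneOn
    ⟨by linarith [hx.1], by linarith [hx.2]⟩ ⟨by norm_num, by norm_num⟩ hx.2)
  rw [abs_mul, abs_of_pos h2]
  have h5 : |dcf x| ≤ 0.14 := abs_le.mpr ⟨h4, h3⟩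
  have := mul_le_mul h1 h5 (abs_nonneg _) (by norm_num)
  linarith

lemma g_contract {x y : ℝ} (hx : x ∈ K) (hy : y ∈ K) : |g x - g y| ≤ 1 / 2 * |x - y| := by
  have := (convex_Icc (1 + 0.165 : ℝ) (1 + 0.195)).norm_image_sub_le_of_norm_hasDerivWithin_le
    (f := g) (f' := fun z => dcf (cf z) * dcf z) (C := 1 / 2)
    (fun z _ => (hasDerivAt_g z).hasDerivWithinAt)
    (fun z hz => by rw [Real.norm_eq_abs]; exact abs_deriv_g_le hz) hy hx
  simpa [Real.norm_eq_abs] using this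

lemma exists_fix : ∃ a ∈ K, g a = a := by
  have hcont : Continuous g := continuous_cf.comp continuous_cf
  have h1 : 0 ≤ g (1 + 0.165) - (1 + 0.165) := by
    have := (g_mem_K (x := 1 + 0.165) ⟨le_rfl, by norm_num⟩).1
    linarith
  have h2 : g (1 + 0.195) - (1 + 0.195) ≤ 0 := by
    have := (g_mem_K (x := 1 + 0.195) ⟨by norm_num, le_rfl⟩).2
    linarith
  have := intermediate_value_Icc' (f := fun x => g x - x) (a := 1 + 0.165) (b := 1 + 0.195)
    (by norm_num) (hcont.sub continuous_id).continuousOn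
  obtain ⟨a, ha, hga⟩ := this ⟨h2, h1⟩
  exact ⟨a, ha, by simpa [sub_eq_zero] using hga⟩

/-- the point `1.192531907...` of the second attracting cycle -/
noncomputable def aPt : ℝ := exists_fix.choose

lemma aPt_mem : aPt ∈ K := exists_fix.choose_spec.1
lemma g_aPt : g aPt = aPt := exists_fix.choose_spec.2

lemma g_iter_mem_K {x : ℝ} (hx : x ∈ K) (n : ℕ) : g^[n] x ∈ K := by
  induction n with
  | zero => exact hx
  | succ n ih => rw [Function.iterate_succ_apply']; exact g_mem_K ih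

lemma eq_aPt_of_periodic {x : ℝ} (hx : x ∈ K) {k : ℕ} (hk : 0 < k) (h : g^[k] x = x) :
    x = aPt := by
  have key : ∀ n : ℕ, |g^[n] x - aPt| ≤ (1 / 2) ^ n * |x - aPt| := by
    intro n
    induction n with
    | zero => simp
    | succ n ih =>
      rw [Function.iterate_succ_apply']
      have h1 := g_contract (g_iter_mem_K hx n) aPt_mem
      rw [g_aPt] at h1
      rw [pow_succ]
      nlinarith [abs_nonneg (x - aPt)]
  have h2 := key k
  rw [h] at h2
  by_contra hne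
  have h3 : 0 < |x - aPt| := abs_pos.mpr (sub_ne_zero.mpr hne)
  have h4 : (1 / 2 : ℝ) ^ k < 1 := pow_lt_one₀ (by norm_num) (by norm_num) hk.ne'
  nlinarith

end Pool.Agent.Lib.MP_a247fa_nt
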