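import Pool.Agent.Lib.MP_a247fa_nt.Trap

/-!
Analysis of `cf ∘ cf` on the trap interval around `1`.
-/

set_option autoImplicit false

namespace Pool.Agent.Lib.MP_a247fa_nt

open Real Function

/-- lower bound of `cos (π r)` by a rational Taylor polynomial, `p ≥ π` -/
lemma cos_pi_lb {r p : ℝ} {n : ℕ} (hr : 0 ≤ r) (hp : Real.pi ≤ p) (hpr : p * r ≤ 3)
    (hn : n % 2 = 0) (hn0 : 0 < n) : cosT n (p * r) ≤ Real.cos (Real.pi * r) := by
  have h0 : 0 ≤ Real.pi * r := mul_nonneg Real.pi_pos.le hr
  have h1 : Real.pi * r ≤ p * r := mul_le_mul_of_nonneg_right hp hr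
  have h2 : p * r ≤ Real.pi := by linarith [Real.pi_gt_three]
  exact (cosT_le_cos hn hn0 (h0.trans h1)).trans (Real.cos_le_cos_of_nonneg_of_le_pi h0 h2 h1)

/-- upper bound of `cos (π r)` by a rational Taylor polynomial, `p ≤ π` -/
lemma cos_pi_ub {r p : ℝ} {n : ℕ} (hr : 0 ≤ r) (hp0 : 0 ≤ p) (hp : p ≤ Real.pi)
    (hr1 : r ≤ 1) (hn : n % 2 = 1) : Real.cos (Real.pi * r) ≤ cosT n (p * r) := by
  have h0 : 0 ≤ p * r := mul_nonneg hp0 hr
  have h1 : p * r ≤ Real.pi * r := mul_le_mul_of_nonneg_right hp hr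
  have h2 : Real.pi * r ≤ Real.pi := by nlinarith [Real.pi_pos]
  exact (Real.cos_le_cos_of_nonneg_of_le_pi h0 h2 h1).trans (cos_le_cosT hn h0)

/-- second derivative of `cf` -/
noncomputable def ddcf (x : ℝ) : ℝ :=
  Real.pi * Real.sin (Real.pi * x) + (2 * x + 1) * Real.pi ^ 2 / 4 * Real.cos (Real.pi * x)

lemma hasDerivAt_dcf (x : ℝ) : HasDerivAt dcf (ddcf x) x := by
  have h1 : HasDerivAt (fun y : ℝ => Real.pi * y) Real.pi x := by
    simpa using (hasDerivAt_id x).const_mul Real.pi
  have h2 := h1.cos.div_const 2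
  have h3 : HasDerivAt (fun y : ℝ => (2 * y + 1) * Real.pi / 4) (2 * Real.pi / 4) x := by
    have := ((hasDerivAt_id x).const_mul 2).add_const 1
    simpa using (this.mul_const Real.pi).div_const 4
  have h4 := (h2.const_sub 1).add (h3.mul h1.sin)
  unfold dcf ddcf
  refine h4.congr_deriv ?_
  ring

/-- `dcf` is strictly decreasing on `[1, 3/2]`. -/
lemma dcf_strictAnti : StrictAntiOn dcf (Set.Icc 1 (3 / 2)) := by
  apply strictAntiOn_of_deriv_neg (convex_Icc _ _)
  · exact fun x _ => (hasDerivAt_dcf x).continuousAt.continuousWithinAt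
  · intro x hx
    rw [interior_Icc] at hx
    rw [(hasDerivAt_dcf x).deriv, ddcf]
    have e : Real.pi * x = Real.pi * (x - 1) + Real.pi := by ring
    rw [e, Real.sin_add_pi, Real.cos_add_pi]
    have h1 : 0 < Real.sin (Real.pi * (x - 1)) := by
      apply Real.sin_pos_of_pos_of_lt_pi
      · have := hx.1; have := Real.pi_pos; nlinarith
      · have := hx.2; have := Real.pi_pos; nlinarith
    have h2 : 0 < Real.cos (Real.pi * (x - 1)) := by
      apply Real.cos_pos_of_mem_Ioo
      constructor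
      · have := hx.1; have := Real.pi_pos; nlinarith
      · have := hx.2; have := Real.pi_pos; nlinarith
    have h3 := Real.pi_pos
    have hx1 := hx.1
    have h4 : 0 < Real.pi * Real.sin (Real.pi * (x - 1)) := by positivity
    have h5 : 0 < (2 * x + 1) * Real.pi ^ 2 / 4 * Real.cos (Real.pi * (x - 1)) := by
      have : 0 < 2 * x + 1 := by linarith
      positivity
    nlinarith

/-- `cf` is concave on `[1, 3/2]`. -/
lemma cf_concave : ConcaveOn ℝ (Set.Icc 1 (3 / 2)) cf := by
  apply AntitoneOn.concaveOn_of_deriv (convex_Icc _ _) continuous_cf.continuousOn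
    differentiable_cf.differentiableOn
  rw [show deriv cf = dcf from funext deriv_cf]
  exact dcf_strictAnti.antitoneOn.mono interior_subset

/-- `cf` is strictly increasing on `[2, 5/2]`. -/
lemma dcf_pos_right {x : ℝ} (h2 : 2 ≤ x) (h3 : x ≤ 5 / 2) : 0 < dcf x := by
  have e := dcf_even 2 rfl (x - 2)
  have e2 : (((2 : ℕ) : ℝ) + (x - 2)) = x := by push_cast; ring
  rw [e2] at e
  rw [e]
  have h1 : 0 ≤ Real.sin (Real.pi * (x - 2)) := by
    apply Real.sin_nonneg_of_nonneg_of_le_pi
    · have := Real.pi_pos; nlinarith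
    · have := Real.pi_pos; nlinarith
  have h4 := Real.cos_le_one (Real.pi * (x - 2))
  have h5 : 0 ≤ (2 * x + 1) * Real.pi / 4 * Real.sin (Real.pi * (x - 2)) := by
    have : 0 < 2 * x + 1 := by linarith
    have := Real.pi_pos
    positivity
  linarith

lemma cf_strictMono_right : StrictMonoOn cf (Set.Icc 2 (5 / 2)) := by
  apply strictMonoOn_of_deriv_pos (convex_Icc _ _) continuous_cf.continuousOn
  intro x hx
  rw [interior_Icc] at hx
  rw [deriv_cf]
  exact dcf_pos_right hx.1.le hx.2.le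

/-- `dcf` is strictly increasing on `[2, 5/2]`. -/
lemma dcf_strictMono_right : StrictMonoOn dcf (Set.Icc 2 (5 / 2)) := by
  apply strictMonoOn_of_deriv_pos (convex_Icc _ _)
  · exact fun x _ => (hasDerivAt_dcf x).continuousAt.continuousWithinAt
  · intro x hx
    rw [interior_Icc] at hx
    rw [(hasDerivAt_dcf x).deriv, ddcf]
    have e : Real.pi * x = Real.pi * (x - 2) + 2 * Real.pi := by ring
    rw [e, Real.sin_add_two_pi, Real.cos_add_two_pi]
    have h1 : 0 < Real.sin (Real.pi * (x - 2)) := by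
      apply Real.sin_pos_of_pos_of_lt_pi
      · have := hx.1; have := Real.pi_pos; nlinarith
      · have := hx.2; have := Real.pi_pos; nlinarith
    have h2 : 0 < Real.cos (Real.pi * (x - 2)) := by
      apply Real.cos_pos_of_mem_Ioo
      constructor
      · have := hx.1; have := Real.pi_pos; nlinarith
      · have := hx.2; have := Real.pi_pos; nlinarith
    have h3 := Real.pi_pos
    have hx1 := hx.1
    have : 0 < 2 * x + 1 := by linarith
    positivity

/-- value of `cf` at `1 + d`. -/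
lemma cf_one_add (d : ℝ) : cf (1 + d) =
    2 + (3 / 2 * d - (d / 2 + 3 / 4) * (1 - Real.cos (Real.pi * d))) := by
  have := cf_odd 1 rfl d
  push_cast at this
  rw [this]; ring

/-- value of `cf` at `2 + e`. -/
lemma cf_two_add (e : ℝ) : cf (2 + e) =
    1 + (1 / 2 * e + (e / 2 + 5 / 4) * (1 - Real.cos (Real.pi * e))) := by
  have := cf_even 2 rfl e
  push_cast at this
  rw [this]; ring

lemma dcf_one_add (d : ℝ) : dcf (1 + d) =
    1 + Real.cos (Real.pi * d) / 2 - (3 + 2 * d) * Real.pi / 4 * Real.sin (Real.pi * d) := by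
  have := dcf_odd 1 rfl d
  push_cast at this
  rw [this]; ring

lemma dcf_two_add (e : ℝ) : dcf (2 + e) =
    1 - Real.cos (Real.pi * e) / 2 + (5 + 2 * e) * Real.pi / 4 * Real.sin (Real.pi * e) := by
  have := dcf_even 2 rfl e
  push_cast at this
  rw [this]; ring

end Pool.Agent.Lib.MP_a247fa_nt
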