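import Pool.Agent.Lib.MP_a247fa_nt.IntCycles

/-!
Nontrivial integer cycles of `T` are large and long.
-/

set_option autoImplicit false

namespace Pool.Agent.Lib.MP_a247fa_nt

open Real Function

lemma reach_one : ∀ n ∈ Finset.Icc 1 242, ∃ k ∈ Finset.range 90, T^[k] n = 1 := by
  decide +kernel

lemma orbit_one (k : ℕ) : T^[k] 1 = 1 ∨ T^[k] 1 = 2 := by
  induction k with
  | zero => left; rfl
  | succ k ih =>
    rw [Function.iterate_succ_apply']
    rcases ih with h | h
    · rw [h]; right; rfl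
    · rw [h]; left; rfl

/-- A periodic orbit of `T` through a positive integer other than `1, 2` stays above `242`. -/
lemma large_of_periodic {n p : ℕ} (hn : 0 < n) (hp : 0 < p) (hper : T^[p] n = n) (h1 : n ≠ 1)
    (h2 : n ≠ 2) (k : ℕ) : 243 ≤ T^[k] n := by
  by_contra hcon
  push Not at hcon
  have hpos := T_iter_pos hn k
  obtain ⟨j, -, hj⟩ := reach_one (T^[k] n) (Finset.mem_Icc.mpr ⟨hpos, by omega⟩)
  rw [← Function.iterate_add_apply] at hj
  have hq : T^[p * (j + k)] n = n := by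
    rw [Function.iterate_mul]
    exact Function.iterate_fixed hper _
  have hle : j + k ≤ p * (j + k) := Nat.le_mul_of_pos_left _ hp
  obtain ⟨l, hl⟩ := Nat.exists_eq_add_of_le hle
  rw [hl, add_comm (j + k) l, Function.iterate_add_apply, hj] at hq
  rcases orbit_one l with h | h <;> rw [h] at hq <;> omega

/-- The growth of `T` along an orbit that stays above `242`. -/
lemma growth_bound {n : ℕ} (hlarge : ∀ k, 243 ≤ T^[k] n) (p : ℕ) :
    ∃ a ≤ p, 3 ^ a * n ≤ 2 ^ p * T^[p] n ∧ 243 ^ a * (2 ^ p * T^[p] n) ≤ 730 ^ a * n := by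
  induction p with
  | zero => exact ⟨0, le_rfl, by simp, by simp⟩
  | succ p ih =>
    obtain ⟨a, ha, h1, h2⟩ := ih
    rw [Function.iterate_succ_apply']
    have hl := hlarge p
    set x := T^[p] n with hx
    rcases Nat.mod_two_eq_zero_or_one x with hpar | hpar
    · refine ⟨a, by omega, ?_, ?_⟩
      · have : 2 * T x = x := by unfold T; rw [if_pos hpar]; omega
        calc 3 ^ a * n ≤ 2 ^ p * x := h1
          _ = 2 ^ p * (2 * T x) := by rw [this]
          _ = 2 ^ (p + 1) * T x := by ring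
      · have : 2 * T x = x := by unfold T; rw [if_pos hpar]; omega
        calc 243 ^ a * (2 ^ (p + 1) * T x) = 243 ^ a * (2 ^ p * (2 * T x)) := by ring
          _ = 243 ^ a * (2 ^ p * x) := by rw [this]
          _ ≤ 730 ^ a * n := h2
    · have hT : 2 * T x = 3 * x + 1 := by unfold T; rw [if_neg (by omega)]; omega
      refine ⟨a + 1, by omega, ?_, ?_⟩
      · calc 3 ^ (a + 1) * n = 3 * (3 ^ a * n) := by ring
          _ ≤ 3 * (2 ^ p * x) := Nat.mul_le_mul_left _ h1
          _ ≤ 2 ^ p * (3 * x + 1) := by nlinarith [Nat.pos_of_ne_zero (pow_ne_zero p two_ne_zero)]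
          _ = 2 ^ p * (2 * T x) := by rw [hT]
          _ = 2 ^ (p + 1) * T x := by ring
      · have h3 : 243 * (3 * x + 1) ≤ 730 * x := by omega
        calc 243 ^ (a + 1) * (2 ^ (p + 1) * T x)
            = 243 ^ a * 2 ^ p * (243 * (2 * T x)) := by ring
          _ = 243 ^ a * 2 ^ p * (243 * (3 * x + 1)) := by rw [hT]
          _ ≤ 243 ^ a * 2 ^ p * (730 * x) := Nat.mul_le_mul_left _ h3
          _ = 730 * (243 ^ a * (2 ^ p * x)) := by ring
          _ ≤ 730 * (730 ^ a * n) := Nat.mul_le_mul_left _ h2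
          _ = 730 ^ (a + 1) * n := by ring

lemma long_of_periodic {n p : ℕ} (hn : 0 < n) (hp : 0 < p) (hper : T^[p] n = n) (h1 : n ≠ 1)
    (h2 : n ≠ 2) : 10 ≤ p := by
  by_contra hcon
  push Not at hcon
  obtain ⟨a, ha, h3, h4⟩ := growth_bound (large_of_periodic hn hp hper h1 h2) p
  rw [hper] at h3 h4
  have h3' : 3 ^ a ≤ 2 ^ p := Nat.le_of_mul_le_mul_right h3 hn
  have h4' : 243 ^ a * 2 ^ p ≤ 730 ^ a := by
    rw [← mul_assoc] at h4
    exact Nat.le_of_mul_le_mul_right h4 hn
  clear h3 h4 hper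
  interval_cases p <;> interval_cases a <;> revert h3' h4' <;> norm_num

end Pool.Agent.Lib.MP_a247fa_nt
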