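import Pool.Agent.Lib.MP_a247fa_nt.LeftShadow

/-!
Critical points of `cf` on `(0, ∞)` and their orbits.
-/

set_option autoImplicit false

namespace Pool.Agent.Lib.MP_a247fa_nt

open Real Function

/-- Jordan's inequality in the form we need. -/
lemma two_mul_le_sin {d : ℝ} (h0 : 0 ≤ d) (h1 : d ≤ 1 / 2) : 2 * d ≤ Real.sin (Real.pi * d) := by
  have h := Real.mul_le_sin (x := Real.pi * d) (mul_nonneg Real.pi_pos.le h0)
    (by nlinarith [Real.pi_pos])
  have : 2 / Real.pi * (Real.pi * d) = 2 * d := by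
    have := Real.pi_pos.ne'
    field_simp
  linarith

lemma sin_lb_cubic {d : ℝ} (h0 : 0 ≤ d) :
    Real.pi * d - Real.pi * (Real.pi ^ 2) * d ^ 3 / 6 ≤ Real.sin (Real.pi * d) := by
  have := cubic_le_sin (x := Real.pi * d) (mul_nonneg Real.pi_pos.le h0)
  have e : Real.pi * d - (Real.pi * d) ^ 3 / 6 = Real.pi * d - Real.pi * (Real.pi ^ 2) * d ^ 3 / 6 := by
    ring
  linarith

/-- A critical point near an odd integer lies in the trap. -/
lemma critical_odd {n : ℕ} (h : n % 2 = 1) {d : ℝ} (hd1 : -(1 / 2) ≤ d)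
    (hd2 : d ≤ 1 / 2) (hc : dcf (n + d) = 0) : 0 < d ∧ (n : ℝ) + d ∈ trapI n := by
  have hn1 : (1 : ℝ) ≤ n := by
    have : 1 ≤ n := by omega
    exact_mod_cast this
  rw [dcf_odd n h d] at hc
  have hpi := Real.pi_pos
  have hcos0 : 0 ≤ Real.cos (Real.pi * d) := by
    apply Real.cos_nonneg_of_mem_Icc
    constructor <;> nlinarith
  have hcos1 := Real.cos_le_one (Real.pi * d)
  have hpos : 0 < d := by
    by_contra hcon
    push Not at hcon
    have hs : Real.sin (Real.pi * d) ≤ 0 := by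
      apply Real.sin_nonpos_of_nonpos_of_neg_pi_le
      · nlinarith
      · nlinarith
    have h1 : (2 * ((n : ℝ) + d) + 1) * Real.pi / 4 * Real.sin (Real.pi * d) ≤ 0 := by
      apply mul_nonpos_of_nonneg_of_nonpos _ hs
      have : 0 < 2 * ((n : ℝ) + d) + 1 := by linarith
      positivity
    linarith
  refine ⟨hpos, ?_⟩
  set M : ℝ := 2 * n + 1 with hM
  have hM3 : 3 ≤ M := by rw [hM]; linarith
  have hq2 : 9.869 < Real.pi ^ 2 := pi_sq_gt
  have hq1 : Real.pi ^ 2 < 9.87 := pi_sq_lt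
  have hpi3 := Real.pi_gt_d2
  -- first bound
  have hs1 := two_mul_le_sin hpos.le hd2
  have hb1 : M * d ≤ 0.956 := by
    have h1 : (2 * ((n : ℝ) + d) + 1) * Real.pi / 4 * Real.sin (Real.pi * d) ≤ 3 / 2 := by linarith
    have h2 : M * Real.pi / 4 * (2 * d) ≤
        (2 * ((n : ℝ) + d) + 1) * Real.pi / 4 * Real.sin (Real.pi * d) := by
      apply mul_le_mul _ hs1 (by positivity) _
      · have : M ≤ 2 * ((n : ℝ) + d) + 1 := by rw [hM]; linarith
        nlinarith
      · have : 0 < 2 * ((n : ℝ) + d) + 1 := by linarith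
        positivity
    have h3 : M * Real.pi / 4 * (2 * d) = Real.pi / 2 * (M * d) := by ring
    have h4 : 0 ≤ M * d := by positivity
    nlinarith
  have hb2 : d ≤ 0.32 := by nlinarith
  -- second bound
  have hs2 := sin_lb_cubic hpos.le
  have hb3 : 0.831 * (Real.pi * d) ≤ Real.sin (Real.pi * d) := by
    have h1 : Real.pi * (Real.pi ^ 2) * d ^ 3 / 6 = (Real.pi * d) * (Real.pi ^ 2 * d ^ 2 / 6) := by
      ring
    have h2 : Real.pi ^ 2 * d ^ 2 / 6 ≤ 0.169 := by
      have h3 : d ^ 2 ≤ 0.32 ^ 2 := pow_le_pow_left₀ hpos.le hb2 2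
      have h4 : Real.pi ^ 2 * d ^ 2 ≤ 9.87 * 0.32 ^ 2 := mul_le_mul hq1.le h3 (sq_nonneg d)
        (by norm_num)
      norm_num at h4
      linarith
    have h3 : (Real.pi * d) * (Real.pi ^ 2 * d ^ 2 / 6) ≤ (Real.pi * d) * 0.169 :=
      mul_le_mul_of_nonneg_left h2 (by positivity)
    rw [h1] at hs2
    linarith
  have hb4 : M * d ≤ 4 / 5 := by
    have h1 : (2 * ((n : ℝ) + d) + 1) * Real.pi / 4 * Real.sin (Real.pi * d) ≤ 3 / 2 := by linarith
    have h2 : M * Real.pi / 4 * (0.831 * (Real.pi * d)) ≤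
        (2 * ((n : ℝ) + d) + 1) * Real.pi / 4 * Real.sin (Real.pi * d) := by
      apply mul_le_mul _ hb3 (by positivity) _
      · have : M ≤ 2 * ((n : ℝ) + d) + 1 := by rw [hM]; linarith
        nlinarith
      · have : 0 < 2 * ((n : ℝ) + d) + 1 := by linarith
        positivity
    have h3 : M * Real.pi / 4 * (0.831 * (Real.pi * d)) = Real.pi ^ 2 * 0.20775 * (M * d) := by ring
    have h4 : 0 ≤ M * d := by positivity
    nlinarith
  refine ⟨by linarith, ?_⟩
  have : d ≤ 4 / (5 * (2 * (n : ℝ) + 1)) := by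
    rw [le_div_iff₀ (by positivity)]
    rw [hM] at hb4
    linarith
  linarith

/-- A critical point near an even integer `n` lies on its left, and its image is in the
shadowing interval of `n/2`, provided the trajectory of `n` never exceeds `12n/5`. -/
lemma critical_even {n : ℕ} (h : n % 2 = 0) {d : ℝ} (hd1 : -(1 / 2) ≤ d)
    (hd2 : d ≤ 1 / 2) (hpos : 0 < (n : ℝ) + d) (hc : dcf (n + d) = 0) :
    0 < n ∧ d < 0 ∧ cf (n + d) ∈ shadowI (12 / 5 * n) (T n) := by
  rw [dcf_even n h d] at hc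
  have hpi := Real.pi_pos
  have hcos0 : 0 ≤ Real.cos (Real.pi * d) := by
    apply Real.cos_nonneg_of_mem_Icc
    constructor <;> nlinarith
  have hcos1 := Real.cos_le_one (Real.pi * d)
  have hneg : d < 0 := by
    by_contra hcon
    push Not at hcon
    have hs : 0 ≤ Real.sin (Real.pi * d) := by
      apply Real.sin_nonneg_of_nonneg_of_le_pi
      · nlinarith
      · nlinarith
    have h1 : 0 ≤ (2 * ((n : ℝ) + d) + 1) * Real.pi / 4 * Real.sin (Real.pi * d) := by
      apply mul_nonneg _ hs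
      have : 0 < 2 * ((n : ℝ) + d) + 1 := by linarith
      positivity
    linarith
  have hn0 : 0 < n := by
    have : (0 : ℝ) < n := by linarith
    exact_mod_cast this
  have hn2 : (2 : ℝ) ≤ n := by
    have : 2 ≤ n := by omega
    exact_mod_cast this
  refine ⟨hn0, hneg, ?_⟩
  set e : ℝ := -d with he
  have hde : d = -e := by rw [he]; ring
  have he0 : 0 < e := by rw [he]; linarith
  have he1 : e ≤ 1 / 2 := by rw [he]; linarith
  rw [hde, show Real.pi * -e = -(Real.pi * e) by ring, Real.cos_neg, Real.sin_neg] at hc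
  rw [hde, show Real.pi * -e = -(Real.pi * e) by ring, Real.cos_neg] at hcos0 hcos1
  set M : ℝ := 2 * n + 1 with hM
  have hM5 : 5 ≤ M := by rw [hM]; linarith
  have hq2 : 9.869 < Real.pi ^ 2 := pi_sq_gt
  have hq1 : Real.pi ^ 2 < 9.87 := pi_sq_lt
  have hpi3 := Real.pi_gt_d2
  have hc' : (M - 2 * e) * Real.pi / 4 * Real.sin (Real.pi * e) =
      1 - Real.cos (Real.pi * e) / 2 := by
    have : 2 * ((n : ℝ) + -e) + 1 = M - 2 * e := by rw [hM]; ring
    rw [this] at hc
    linarith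
  -- first bound
  have hs1 := two_mul_le_sin he0.le he1
  have hb1 : (M - 1) * e ≤ 0.64 := by
    have h2 : (M - 1) * Real.pi / 4 * (2 * e) ≤
        (M - 2 * e) * Real.pi / 4 * Real.sin (Real.pi * e) := by
      apply mul_le_mul _ hs1 (by positivity) _
      · have : M - 1 ≤ M - 2 * e := by linarith
        nlinarith
      · have : 0 < M - 2 * e := by linarith
        positivity
    have h3 : (M - 1) * Real.pi / 4 * (2 * e) = Real.pi / 2 * ((M - 1) * e) := by ring
    have h4 : 0 ≤ (M - 1) * e := by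
      have : 0 ≤ M - 1 := by linarith
      positivity
    nlinarith
  have hb2 : e ≤ 0.16 := by nlinarith
  -- second bound
  have hs2 := sin_lb_cubic he0.le
  have hb3 : 0.957 * (Real.pi * e) ≤ Real.sin (Real.pi * e) := by
    have h1 : Real.pi * (Real.pi ^ 2) * e ^ 3 / 6 = (Real.pi * e) * (Real.pi ^ 2 * e ^ 2 / 6) := by
      ring
    have h2 : Real.pi ^ 2 * e ^ 2 / 6 ≤ 0.043 := by
      have h3 : e ^ 2 ≤ 0.16 ^ 2 := pow_le_pow_left₀ he0.le hb2 2
      have h4 : Real.pi ^ 2 * e ^ 2 ≤ 9.87 * 0.16 ^ 2 := mul_le_mul hq1.le h3 (sq_nonneg e)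
        (by norm_num)
      norm_num at h4
      linarith
    have h3 : (Real.pi * e) * (Real.pi ^ 2 * e ^ 2 / 6) ≤ (Real.pi * e) * 0.043 :=
      mul_le_mul_of_nonneg_left h2 (by positivity)
    rw [h1] at hs2
    linarith
  have hcub : 1 - Real.cos (Real.pi * e) ≤ 4.935 * e ^ 2 := by
    have := one_sub_cos_le e
    nlinarith [sq_nonneg e]
  have hb4 : e ≤ 0.052 := by
    have h2 : (M - 0.32) * Real.pi / 4 * (0.957 * (Real.pi * e)) ≤
        (M - 2 * e) * Real.pi / 4 * Real.sin (Real.pi * e) := by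
      apply mul_le_mul _ hb3 (by positivity) _
      · have : M - 0.32 ≤ M - 2 * e := by linarith
        nlinarith
      · have : 0 < M - 2 * e := by linarith
        positivity
    have h3 : (M - 0.32) * Real.pi / 4 * (0.957 * (Real.pi * e)) =
        Real.pi ^ 2 * 0.23925 * ((M - 0.32) * e) := by ring
    have h4 : 1 - Real.cos (Real.pi * e) / 2 ≤ 1 / 2 + 4.935 / 2 * e ^ 2 := by linarith
    have h5 : e ^ 2 ≤ 0.16 * e := by nlinarith
    have h6 : 4.68 * e ≤ (M - 0.32) * e := by nlinarith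
    have h7 : 0 ≤ (M - 0.32) * e := by nlinarith
    have h8 : 9.869 * 0.23925 * (4.68 * e) ≤ Real.pi ^ 2 * 0.23925 * ((M - 0.32) * e) := by
      apply mul_le_mul _ h6 (by positivity) (by positivity)
      linarith
    rw [h3, hc'] at h2
    norm_num at h8
    nlinarith
  -- the value
  set c : ℝ := 1 - Real.cos (Real.pi * e) with hcdef
  have hc0 : 0 ≤ c := one_sub_cos_nonneg _
  have hc4 : 4.92 * e ^ 2 ≤ c := by
    have h0 := le_one_sub_cos e
    have h1 : Real.pi ^ 4 * e ^ 4 / 24 = (Real.pi ^ 2 * e ^ 2) * (Real.pi ^ 2 * e ^ 2) / 24 := by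
      ring
    have h2 : Real.pi ^ 2 * e ^ 2 ≤ 9.87 * 0.002704 := by
      have : e ^ 2 ≤ 0.002704 := by nlinarith
      exact mul_le_mul hq1.le this (sq_nonneg e) (by norm_num)
    have h3 : 0 ≤ Real.pi ^ 2 * e ^ 2 := by positivity
    have h4 : (Real.pi ^ 2 * e ^ 2) * (Real.pi ^ 2 * e ^ 2) ≤
        9.87 * 0.002704 * (Real.pi ^ 2 * e ^ 2) := mul_le_mul_of_nonneg_right h2 h3
    have h5 : 9.869 * e ^ 2 ≤ Real.pi ^ 2 * e ^ 2 :=
      mul_le_mul_of_nonneg_right hq2.le (sq_nonneg e)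
    have h6 : Real.pi ^ 2 * e ^ 2 ≤ 9.87 * e ^ 2 :=
      mul_le_mul_of_nonneg_right hq1.le (sq_nonneg e)
    norm_num at h4
    nlinarith [sq_nonneg e]
  have hT : (T n : ℝ) = n / 2 := T_even h
  have hval : cf (n + d) = n / 2 - (e / 2 - (M / 4 - e / 2) * c) := by
    have h1 := cf_even n h (-e)
    have h2 : Real.pi * -e = -(Real.pi * e) := by ring
    rw [h2, Real.cos_neg] at h1
    rw [hde, h1, hcdef, hM]; ring
  -- the image lies (weakly) to the left of `n/2`, at distance at most `0.0522 / M`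
  have hup : e / 2 - (M / 4 - e / 2) * c ≤ 0.0522 / M := by
    have h1 : M / 4 - e / 2 ≥ 0.2448 * M := by linarith
    have h2 : 0.2448 * M * (4.92 * e ^ 2) ≤ (M / 4 - e / 2) * c :=
      mul_le_mul h1 hc4 (by positivity) (by linarith)
    have h3 : e / 2 - 0.2448 * M * (4.92 * e ^ 2) ≤ 0.0522 / M := by
      rw [le_div_iff₀ (by positivity)]
      have h4 : (e / 2 - 0.2448 * M * (4.92 * e ^ 2)) * M =
        1 / 2 * (M * e) - 1.204416 * (M * e) ^ 2 := by ring
      rw [h4]
      nlinarith [sq_nonneg (M * e - 0.2075)]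
    linarith
  have hTpos : 0 < T n := T_pos hn0
  have hTX : (T n : ℝ) ≤ 12 / 5 * n := by rw [hT]; linarith
  rw [mem_shadowI hTpos hTX]
  rcases lt_or_ge (cf (n + d)) (T n) with hlt | hge
  · right
    refine ⟨hlt, ?_⟩
    rw [hT, hval]
    have h1 : (n : ℝ) / 2 - (n / 2 - (e / 2 - (M / 4 - e / 2) * c)) =
      e / 2 - (M / 4 - e / 2) * c := by ring
    rw [h1]
    have h2 : 10 / 3 * (12 / 5 * (n : ℝ)) ^ 2 - 4 / 3 * ((n : ℝ) / 2) ^ 2 =
      (19.2 - 1 / 3) * (n : ℝ) ^ 2 := by ring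
    rw [h2]
    have h3 : 0 ≤ (19.2 - 1 / 3) * (n : ℝ) ^ 2 := by positivity
    have h4 := mul_le_mul_of_nonneg_right hup h3
    have h5 : 0.0522 / M * ((19.2 - 1 / 3) * (n : ℝ) ^ 2) ≤ n / 2 := by
      rw [div_mul_eq_mul_div, div_le_iff₀ (by positivity), hM]
      nlinarith
    linarith
  · left
    refine ⟨hge, ?_⟩
    -- the critical value is at most `n/2 + ...`; in fact it is a small number
    rw [hval, hT]
    have h1 : (M / 4 - e / 2) * c ≤ (M / 4) * (4.935 * e ^ 2) := by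
      apply mul_le_mul _ hcub hc0 (by positivity)
      linarith
    have h2 : (M / 4) * (4.935 * e ^ 2) ≤ 4 / (5 * (2 * ((n : ℝ) / 2) + 1)) := by
      rw [le_div_iff₀ (by positivity)]
      have h3 : (M - 1) * e ≤ 0.64 := hb1
      have h4 : (n : ℝ) = (M - 1) / 2 := by rw [hM]; ring
      have h5 : 0 ≤ (M - 1) * e := by nlinarith
      have h6 : M * e ≤ 0.692 := by linarith
      have h7 : 2 * ((n : ℝ) / 2) + 1 ≤ 0.6 * M := by rw [h4]; linarith
      have h8 : M / 4 * (4.935 * e ^ 2) * (5 * (2 * ((n : ℝ) / 2) + 1)) ≤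
          M / 4 * (4.935 * e ^ 2) * (5 * (0.6 * M)) :=
        mul_le_mul_of_nonneg_left (by linarith) (by positivity)
      have h9 : M / 4 * (4.935 * e ^ 2) * (5 * (0.6 * M)) = 3.70125 * (M * e) ^ 2 := by ring
      have h10 : (M * e) ^ 2 ≤ 0.692 ^ 2 := pow_le_pow_left₀ (by positivity) h6 2
      norm_num at h10
      linarith
    linarith

end Pool.Agent.Lib.MP_a247fa_nt
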