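import Mathlib
import Pool.Agent.Lib.MP_a247fa_nt.Basic

/-!
Singer's theorem for the map `cf`: the immediate basin of an attracting periodic orbit of `cf`
in `(0,∞)` contains a critical point of `cf`.
-/

set_option autoImplicit false

namespace Pool.Agent.Lib.MP_a247fa_nt

open Real Function Set Filter Topology

/-- Cross-ratio inequality for an increasing function with nonpositive Schwarzian derivative. -/
lemma cross_ratio_aux {F F1 F2 F3 : ℝ → ℝ} {a b d : ℝ} (hab : a < b) (hbd : b < d)
    (h1 : ∀ t ∈ Icc a d, HasDerivAt F (F1 t) t)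
    (h2 : ∀ t ∈ Icc a d, HasDerivAt F1 (F2 t) t)
    (h3 : ∀ t ∈ Icc a d, HasDerivAt F2 (F3 t) t)
    (hpos : ∀ t ∈ Icc a d, 0 < F1 t)
    (hS : ∀ t ∈ Icc a d, 2 * F1 t * F3 t - 3 * F2 t ^ 2 ≤ 0) :
    (F b - F a) * (F d - F b) * (d - a) ≤ F1 b * (F d - F a) * (b - a) * (d - b) ∧
      F a < F b ∧ F b < F d := by
  have had : a < d := hab.trans hbd
  have hbmem : b ∈ Icc a d := ⟨hab.le, hbd.le⟩
  -- strict monotonicity
  have hcont : ContinuousOn F (Icc a d) := fun t ht => (h1 t ht).continuousAt.continuousWithinAt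
  have hmono : StrictMonoOn F (Icc a d) := by
    apply strictMonoOn_of_deriv_pos (convex_Icc a d) hcont
    intro t ht
    rw [interior_Icc] at ht
    rw [(h1 t (Ioo_subset_Icc_self ht)).deriv]
    exact hpos t (Ioo_subset_Icc_self ht)
  have hX : F a < F b := hmono (left_mem_Icc.2 had.le) hbmem hab
  have hY : F b < F d := hmono hbmem (right_mem_Icc.2 had.le) hbd
  refine ⟨?_, hX, hY⟩
  -- psi
  set psi : ℝ → ℝ := fun t => (Real.sqrt (F1 t))⁻¹ with hpsi
  have hpsi_pos : ∀ t ∈ Icc a d, 0 < psi t := fun t ht => inv_pos.2 (Real.sqrt_pos.2 (hpos t ht))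
  have hpsi_sq : ∀ t ∈ Icc a d, psi t ^ 2 * F1 t = 1 := by
    intro t ht
    have := hpos t ht
    simp only [hpsi, inv_pow, Real.sq_sqrt this.le]
    field_simp
  have hd1 : ∀ t ∈ Icc a d, HasDerivAt psi (-(1/2) * F2 t * psi t ^ 3) t := by
    intro t ht
    have hp := hpos t ht
    have hs : 0 < Real.sqrt (F1 t) := Real.sqrt_pos.2 hp
    have := ((h2 t ht).sqrt hp.ne').inv hs.ne'
    refine this.congr_deriv ?_
    simp only [hpsi]
    field_simp
  have hd2 : ∀ t ∈ Icc a d, HasDerivAt (fun t => -(1/2) * F2 t * psi t ^ 3)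
      ((1/4) * psi t ^ 5 * (3 * F2 t ^ 2 - 2 * F1 t * F3 t)) t := by
    intro t ht
    have := ((h3 t ht).const_mul (-(1/2) : ℝ)).mul ((hd1 t ht).pow 3)
    refine this.congr_deriv ?_
    have e := hpsi_sq t ht
    have e2 : (1/4) * psi t ^ 5 * (3 * F2 t ^ 2 - 2 * F1 t * F3 t)
        = (3/4) * F2 t ^ 2 * psi t ^ 5 - (1/2) * F3 t * psi t ^ 3 * (psi t ^ 2 * F1 t) := by ring
    rw [e2, e]
    push_cast
    simp only [Pi.pow_apply]
    ring
  -- monotonicity of psi'
  have hmono' : MonotoneOn (fun t => -(1/2) * F2 t * psi t ^ 3) (Icc a d) := by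
    apply monotoneOn_of_deriv_nonneg (convex_Icc a d)
    · exact fun t ht => (hd2 t ht).continuousAt.continuousWithinAt
    · intro t ht
      rw [interior_Icc] at ht
      exact (hd2 t (Ioo_subset_Icc_self ht)).differentiableAt.differentiableWithinAt
    · intro t ht
      rw [interior_Icc] at ht
      have ht' := Ioo_subset_Icc_self ht
      rw [(hd2 t ht').deriv]
      have := hpsi_pos t ht'
      have := hS t ht'
      apply mul_nonneg (by positivity)
      linarith
  have hconv : ConvexOn ℝ (Icc a d) psi := by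
    apply MonotoneOn.convexOn_of_deriv (convex_Icc a d)
    · exact fun t ht => (hd1 t ht).continuousAt.continuousWithinAt
    · intro t ht
      rw [interior_Icc] at ht
      exact (hd1 t (Ioo_subset_Icc_self ht)).differentiableAt.differentiableWithinAt
    · intro s hs t ht hst
      rw [interior_Icc] at hs ht
      rw [(hd1 s (Ioo_subset_Icc_self hs)).deriv, (hd1 t (Ioo_subset_Icc_self ht)).deriv]
      exact hmono' (Ioo_subset_Icc_self hs) (Ioo_subset_Icc_self ht) hst
  set P := psi b with hP
  set m := -(1/2) * F2 b * psi b ^ 3 with hm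
  have hPpos : 0 < P := hpsi_pos b hbmem
  -- tangent line inequality
  have htan : ∀ t ∈ Icc a d, P + m * (t - b) ≤ psi t := by
    intro t ht
    rcases lt_trichotomy t b with h | h | h
    · have := hconv.slope_le_of_hasDerivAt ht hbmem h (hd1 b hbmem)
      rw [slope_def_field, div_le_iff₀ (by linarith)] at this
      rw [← hm, ← hP] at this
      linarith
    · subst h; simp [hP]
    · have := hconv.le_slope_of_hasDerivAt hbmem ht h (hd1 b hbmem)
      rw [slope_def_field, le_div_iff₀ (by linarith)] at this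
      rw [← hm, ← hP] at this
      linarith
  have key : ∀ t ∈ Icc a d, 0 < P + m * (t - b) → F1 t ≤ 1 / (P + m * (t - b)) ^ 2 := by
    intro t ht hl
    have h4 := htan t ht
    have h5 := hpsi_sq t ht
    have h6 := hpsi_pos t ht
    have h7 : (P + m * (t - b)) ^ 2 ≤ psi t ^ 2 := by
      apply pow_le_pow_left₀ hl.le h4
    rw [le_div_iff₀ (by positivity)]
    calc F1 t * (P + m * (t - b)) ^ 2 ≤ F1 t * psi t ^ 2 :=
          mul_le_mul_of_nonneg_left h7 (hpos t ht).le
      _ = 1 := by rw [mul_comm]; exact h5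
  -- right side
  have hR : (F d - F b) * P * (P + m * (d - b)) ≤ d - b := by
    by_cases hl : P + m * (d - b) ≤ 0
    · have : (F d - F b) * P * (P + m * (d - b)) ≤ 0 :=
        mul_nonpos_of_nonneg_of_nonpos (mul_nonneg (by linarith) hPpos.le) hl
      linarith
    · push Not at hl
      have hl' : ∀ t ∈ Icc b d, 0 < P + m * (t - b) := by
        intro t ht
        rcases le_total 0 m with hm0 | hm0
        · nlinarith [ht.1, ht.2]
        · nlinarith [ht.1, ht.2]
      have hG : ∀ t ∈ Icc b d, HasDerivAt (fun t => (t - b) / (P * (P + m * (t - b))))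
          (1 / (P + m * (t - b)) ^ 2) t := by
        intro t ht
        have hlt := hl' t ht
        have e1 : HasDerivAt (fun t : ℝ => t - b) 1 t := (hasDerivAt_id t).sub_const b
        have e2 : HasDerivAt (fun t : ℝ => P * (P + m * (t - b))) (P * m) t := by
          have := ((e1.const_mul m).const_add P).const_mul P
          simpa using this
        have := e1.div e2 (by positivity)
        refine this.congr_deriv ?_
        field_simp
        ring
      have hanti : AntitoneOn (fun t => F t - (t - b) / (P * (P + m * (t - b)))) (Icc b d) := by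
        have hsub : Icc b d ⊆ Icc a d := Icc_subset_Icc_left hab.le
        apply antitoneOn_of_deriv_nonpos (convex_Icc b d)
        · intro t ht
          exact ((h1 t (hsub ht)).sub (hG t ht)).continuousAt.continuousWithinAt
        · intro t ht
          rw [interior_Icc] at ht
          have ht' := Ioo_subset_Icc_self ht
          exact ((h1 t (hsub ht')).sub (hG t ht')).differentiableAt.differentiableWithinAt
        · intro t ht
          rw [interior_Icc] at ht
          have ht' := Ioo_subset_Icc_self ht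
          have hh := ((h1 t (hsub ht')).sub (hG t ht')).deriv
          have := key t (hsub ht') (hl' t ht')
          have e : (fun t => F t - (t - b) / (P * (P + m * (t - b))))
            = (F - fun t => (t - b) / (P * (P + m * (t - b)))) := rfl
          rw [e, hh]
          linarith
      have := hanti (left_mem_Icc.2 hbd.le) (right_mem_Icc.2 hbd.le) hbd.le
      simp only [sub_self, zero_div, sub_zero] at this
      have h8 : F d - F b ≤ (d - b) / (P * (P + m * (d - b))) := by linarith
      rw [le_div_iff₀ (by positivity)] at h8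
      linarith
  have hL : (F b - F a) * P * (P - m * (b - a)) ≤ b - a := by
    by_cases hl : P - m * (b - a) ≤ 0
    · have : (F b - F a) * P * (P - m * (b - a)) ≤ 0 :=
        mul_nonpos_of_nonneg_of_nonpos (mul_nonneg (by linarith) hPpos.le) hl
      linarith
    · push Not at hl
      have hl' : ∀ t ∈ Icc a b, 0 < P + m * (t - b) := by
        intro t ht
        rcases le_total 0 m with hm0 | hm0
        · nlinarith [ht.1, ht.2]
        · nlinarith [ht.1, ht.2]
      have hG : ∀ t ∈ Icc a b, HasDerivAt (fun t => (t - b) / (P * (P + m * (t - b))))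
          (1 / (P + m * (t - b)) ^ 2) t := by
        intro t ht
        have hlt := hl' t ht
        have e1 : HasDerivAt (fun t : ℝ => t - b) 1 t := (hasDerivAt_id t).sub_const b
        have e2 : HasDerivAt (fun t : ℝ => P * (P + m * (t - b))) (P * m) t := by
          have := ((e1.const_mul m).const_add P).const_mul P
          simpa using this
        have := e1.div e2 (by positivity)
        refine this.congr_deriv ?_
        field_simp
        ring
      have hanti : AntitoneOn (fun t => F t - (t - b) / (P * (P + m * (t - b)))) (Icc a b) := by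
        have hsub : Icc a b ⊆ Icc a d := Icc_subset_Icc_right hbd.le
        apply antitoneOn_of_deriv_nonpos (convex_Icc a b)
        · intro t ht
          exact ((h1 t (hsub ht)).sub (hG t ht)).continuousAt.continuousWithinAt
        · intro t ht
          rw [interior_Icc] at ht
          have ht' := Ioo_subset_Icc_self ht
          exact ((h1 t (hsub ht')).sub (hG t ht')).differentiableAt.differentiableWithinAt
        · intro t ht
          rw [interior_Icc] at ht
          have ht' := Ioo_subset_Icc_self ht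
          have hh := ((h1 t (hsub ht')).sub (hG t ht')).deriv
          have := key t (hsub ht') (hl' t ht')
          have e : (fun t => F t - (t - b) / (P * (P + m * (t - b))))
            = (F - fun t => (t - b) / (P * (P + m * (t - b)))) := rfl
          rw [e, hh]
          linarith
      have := hanti (left_mem_Icc.2 hab.le) (right_mem_Icc.2 hab.le) hab.le
      simp only [sub_self, zero_div, sub_zero] at this
      have h8 : F b - F a ≤ (b - a) / (P * (P + m * (a - b))) := by
        have e9 : (b - a) / (P * (P + m * (a - b))) = - ((a - b) / (P * (P + m * (a - b)))) := by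
          ring
        rw [e9]; linarith
      have h9 : 0 < P + m * (a - b) := by linarith
      rw [le_div_iff₀ (by positivity)] at h8
      have e10 : P + m * (a - b) = P - m * (b - a) := by ring
      rw [e10] at h8
      linarith
  -- combine
  have hF1 : F1 b = 1 / P ^ 2 := by
    have := hpsi_sq b hbmem
    rw [eq_div_iff (by positivity)]
    linarith [this, mul_comm (psi b ^ 2) (F1 b)]
  set X := F b - F a with hXd
  set Y := F d - F b with hYd
  have hXp : 0 < X := by linarith
  have hYp : 0 < Y := by linarith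
  have hu : 0 < b - a := by linarith
  have hv : 0 < d - b := by linarith
  have e1 : F d - F a = X + Y := by rw [hXd, hYd]; ring
  have e2 : d - a = (b - a) + (d - b) := by ring
  rw [e1, e2, hF1]
  set u := b - a
  set v := d - b
  -- P*(u+v) * X*Y*P <= u v (X+Y)
  have h10 : X * Y * P ^ 2 * (u + v) ≤ u * v * (X + Y) := by
    have i1 : (X * P * (P - m * u)) * (Y * v) ≤ u * (Y * v) :=
      mul_le_mul_of_nonneg_right hL (by positivity)
    have i2 : (Y * P * (P + m * v)) * (X * u) ≤ v * (X * u) :=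
      mul_le_mul_of_nonneg_right hR (by positivity)
    nlinarith [i1, i2]
  have h11 : 1 / P ^ 2 * (X + Y) * u * v = (u * v * (X + Y)) / P ^ 2 := by ring
  rw [h11, le_div_iff₀ (by positivity)]
  linarith [h10]

/-- second derivative of `cf`. -/
noncomputable def d2cf (x : ℝ) : ℝ :=
  Real.pi * (Real.sin (Real.pi * x) + (2 * x + 1) * Real.pi / 4 * Real.cos (Real.pi * x))

/-- third derivative of `cf`. -/
noncomputable def d3cf (x : ℝ) : ℝ :=
  Real.pi ^ 2 * (3 / 2 * Real.cos (Real.pi * x)
    - (2 * x + 1) * Real.pi / 4 * Real.sin (Real.pi * x))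

lemma hasDerivAt_pi_mul (x : ℝ) : HasDerivAt (fun y : ℝ => Real.pi * y) Real.pi x := by
  simpa using (hasDerivAt_id x).const_mul Real.pi

lemma hasDerivAt_A (x : ℝ) : HasDerivAt (fun y : ℝ => (2 * y + 1) * Real.pi / 4) (Real.pi / 2) x := by
  have := ((((hasDerivAt_id x).const_mul 2).add_const 1).mul_const Real.pi).div_const 4
  refine this.congr_deriv ?_
  ring

lemma hasDerivAt_dcf_d2 (x : ℝ) : HasDerivAt dcf (d2cf x) x := by
  have hc := (hasDerivAt_pi_mul x).cos
  have hs := (hasDerivAt_pi_mul x).sin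
  have := ((hc.div_const 2).const_sub 1).add ((hasDerivAt_A x).mul hs)
  refine this.congr_deriv ?_
  unfold d2cf
  ring

lemma hasDerivAt_d2cf (x : ℝ) : HasDerivAt d2cf (d3cf x) x := by
  have hc := (hasDerivAt_pi_mul x).cos
  have hs := (hasDerivAt_pi_mul x).sin
  have := (hs.add ((hasDerivAt_A x).mul hc)).const_mul Real.pi
  refine this.congr_deriv ?_
  unfold d3cf
  ring

/-- `cf` has negative Schwarzian derivative on `[0,∞)`. -/
lemma schwarzian_neg (x : ℝ) (hx : 0 ≤ x) :
    2 * dcf x * d3cf x - 3 * d2cf x ^ 2 < 0 := by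
  set c := Real.cos (Real.pi * x) with hc
  set s := Real.sin (Real.pi * x) with hs
  set A := (2 * x + 1) * Real.pi / 4 with hA
  have hcs : s ^ 2 + c ^ 2 = 1 := Real.sin_sq_add_cos_sq _
  have hpi : 3.14 < Real.pi := Real.pi_gt_d2
  have e : 2 * dcf x * d3cf x - 3 * d2cf x ^ 2 =
      Real.pi ^ 2 * (3 * c + 1.5 * c ^ 2 - 3 - 2 * A * s * (1 + c) - 2 * A ^ 2 - A ^ 2 * c ^ 2) := by
    have h1 : dcf x = 1 - c / 2 + A * s := by rw [dcf]
    have h2 : d2cf x = Real.pi * (s + A * c) := by rw [d2cf]
    have h3 : d3cf x = Real.pi ^ 2 * (3 / 2 * c - A * s) := by rw [d3cf]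
    rw [h1, h2, h3]
    have hs2 : s ^ 2 = 1 - c ^ 2 := by linarith
    have : 2 * (1 - c / 2 + A * s) * (Real.pi ^ 2 * (3 / 2 * c - A * s))
        - 3 * (Real.pi * (s + A * c)) ^ 2
        = Real.pi ^ 2 * (3 * c - 2 * A * s - 3/2 * c ^ 2 - 2 * A * s * c - 2 * A ^ 2 * s ^ 2
          - 3 * s ^ 2 - 3 * A ^ 2 * c ^ 2) := by ring
    rw [this, hs2]
    norm_num
    ring
  rw [e]
  apply mul_neg_of_pos_of_neg (by positivity)
  have hc1 : c ≤ 1 := Real.cos_le_one _
  have hc2 : -1 ≤ c := Real.neg_one_le_cos _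
  have hs1 : s ≤ 1 := Real.sin_le_one _
  have hs2 : -1 ≤ s := Real.neg_one_le_sin _
  by_cases hx1 : x ≤ 1
  · have hs0 : 0 ≤ s := by
      apply Real.sin_nonneg_of_nonneg_of_le_pi
      · positivity
      · nlinarith
    have hA0 : 0.785 ≤ A := by rw [hA]; nlinarith
    have h4 : 0 ≤ A * s * (1 + c) := by
      apply mul_nonneg (mul_nonneg (by linarith) hs0) (by linarith)
    have h5 : 0.616 ≤ A ^ 2 := by nlinarith
    nlinarith [sq_nonneg c, sq_nonneg (c - 1)]
  · push Not at hx1
    have hA0 : 2.355 ≤ A := by rw [hA]; nlinarith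
    have hsc : -(s * (1 + c)) ≤ 1.5 := by nlinarith [sq_nonneg (s + 1), sq_nonneg (c - 1), sq_nonneg (s + c), sq_nonneg (1 + c + s)]
    have h6 : -(2 * A * s * (1 + c)) ≤ 3 * A := by nlinarith
    nlinarith [sq_nonneg c, mul_nonneg (sq_nonneg A) (sq_nonneg c)]


/-- `v` lies strictly between `u` and `w` (in either order). -/
def Btw (u v w : ℝ) : Prop := (u < v ∧ v < w) ∨ (w < v ∧ v < u)

/-- the cross-ratio distortion of a function `g` with derivative value `g' = D` at `b`. -/
noncomputable def crd (g : ℝ → ℝ) (D a b d : ℝ) : ℝ :=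
  D * (g d - g a) * (b - a) * (d - b) / ((g b - g a) * (g d - g b) * (d - a))

lemma crd_swap (g : ℝ → ℝ) (D a b d : ℝ) : crd g D d b a = crd g D a b d := by
  unfold crd
  have e1 : D * (g a - g d) * (b - d) * (a - b) = -(D * (g d - g a) * (b - a) * (d - b)) := by ring
  have e2 : (g b - g d) * (g a - g b) * (a - d) = -((g b - g a) * (g d - g b) * (d - a)) := by ring
  rw [e1, e2, neg_div_neg_eq]

/-- one step: on an interval of `[0,∞)` without critical points, `cf` preserves strict
betweenness and its cross-ratio distortion is at least one (increasing triple). -/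
lemma step_lt {a b d : ℝ} (hab : a < b) (hbd : b < d) (h0 : 0 ≤ a)
    (hne : ∀ t ∈ Icc a d, dcf t ≠ 0) :
    Btw (cf a) (cf b) (cf d) ∧ 1 ≤ crd cf (dcf b) a b d := by
  have had : a < d := hab.trans hbd
  have hbmem : b ∈ Icc a d := ⟨hab.le, hbd.le⟩
  have hdc : Continuous dcf := by
    have : Differentiable ℝ dcf := fun x => (hasDerivAt_dcf_d2 x).differentiableAt
    exact this.continuous
  have hsign : (∀ t ∈ Icc a d, 0 < dcf t) ∨ (∀ t ∈ Icc a d, dcf t < 0) := by
    rcases lt_or_gt_of_ne (hne b hbmem) with h | h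
    · right
      intro t ht
      by_contra hcon
      push Not at hcon
      have hivt := intermediate_value_uIcc (a := b) (b := t) (f := dcf) hdc.continuousOn
      have h0mem : (0:ℝ) ∈ uIcc (dcf b) (dcf t) := by
        rw [mem_uIcc]; left; exact ⟨h.le, hcon⟩
      obtain ⟨z, hz, hz0⟩ := hivt h0mem
      have hz' : z ∈ Icc a d := by
        rcases le_total b t with hbt | hbt
        · rw [uIcc_of_le hbt] at hz; exact ⟨hab.le.trans hz.1, hz.2.trans ht.2⟩
        · rw [uIcc_of_ge hbt] at hz; exact ⟨ht.1.trans hz.1, hz.2.trans hbd.le⟩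
      exact hne z hz' hz0
    · left
      intro t ht
      by_contra hcon
      push Not at hcon
      have hivt := intermediate_value_uIcc (a := b) (b := t) (f := dcf) hdc.continuousOn
      have h0mem : (0:ℝ) ∈ uIcc (dcf b) (dcf t) := by
        rw [mem_uIcc]; right; exact ⟨hcon, h.le⟩
      obtain ⟨z, hz, hz0⟩ := hivt h0mem
      have hz' : z ∈ Icc a d := by
        rcases le_total b t with hbt | hbt
        · rw [uIcc_of_le hbt] at hz; exact ⟨hab.le.trans hz.1, hz.2.trans ht.2⟩
        · rw [uIcc_of_ge hbt] at hz; exact ⟨ht.1.trans hz.1, hz.2.trans hbd.le⟩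
      exact hne z hz' hz0
  rcases hsign with hpos | hneg
  · obtain ⟨h1, h2, h3⟩ := cross_ratio_aux (F := cf) (F1 := dcf) (F2 := d2cf) (F3 := d3cf)
      hab hbd (fun t _ => hasDerivAt_cf t) (fun t _ => hasDerivAt_dcf_d2 t)
      (fun t _ => hasDerivAt_d2cf t) hpos
      (fun t ht => (schwarzian_neg t (h0.trans ht.1)).le)
    refine ⟨Or.inl ⟨h2, h3⟩, ?_⟩
    rw [crd, le_div_iff₀]
    · linarith
    · apply mul_pos (mul_pos _ _) <;> linarith
  · obtain ⟨h1, h2, h3⟩ := cross_ratio_aux (F := fun t => -cf t) (F1 := fun t => -dcf t)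
      (F2 := fun t => -d2cf t) (F3 := fun t => -d3cf t)
      hab hbd (fun t _ => (hasDerivAt_cf t).neg) (fun t _ => (hasDerivAt_dcf_d2 t).neg)
      (fun t _ => (hasDerivAt_d2cf t).neg) (fun t ht => neg_pos.2 (hneg t ht))
      (fun t ht => by
        have := (schwarzian_neg t (h0.trans ht.1)).le
        simp only [neg_mul, mul_neg, neg_neg]
        nlinarith [this])
    have h2' : cf b < cf a := by simpa using h2
    have h3' : cf d < cf b := by simpa using h3
    refine ⟨Or.inr ⟨h3', h2'⟩, ?_⟩
    rw [crd, le_div_iff₀]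
    · nlinarith [h1]
    · apply mul_pos (mul_pos_of_neg_of_neg _ _) <;> linarith

lemma step_btw {a b d : ℝ} (h : Btw a b d) (h0 : ∀ t ∈ uIcc a d, 0 ≤ t)
    (hne : ∀ t ∈ uIcc a d, dcf t ≠ 0) :
    Btw (cf a) (cf b) (cf d) ∧ 1 ≤ crd cf (dcf b) a b d := by
  rcases h with ⟨h1, h2⟩ | ⟨h1, h2⟩
  · have hle : a ≤ d := (h1.trans h2).le
    rw [uIcc_of_le hle] at h0 hne
    exact step_lt h1 h2 (h0 a (left_mem_Icc.2 hle)) hne
  · have hle : d ≤ a := (h1.trans h2).le
    rw [uIcc_of_ge hle] at h0 hne
    obtain ⟨h3, h4⟩ := step_lt h1 h2 (h0 d (left_mem_Icc.2 hle)) hne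
    refine ⟨h3.symm, ?_⟩
    rwa [crd_swap] at h4

/-- cross-ratio distortion of the iterates of `cf`. -/
lemma iter_btw (n : ℕ) {a b d : ℝ} (h : Btw a b d)
    (h0 : ∀ i < n, ∀ t ∈ uIcc (cf^[i] a) (cf^[i] d), 0 ≤ t ∧ dcf t ≠ 0) :
    Btw (cf^[n] a) (cf^[n] b) (cf^[n] d) ∧ 1 ≤ crd (cf^[n]) (deriv (cf^[n]) b) a b d := by
  induction n with
  | zero =>
    refine ⟨by simpa using h, ?_⟩
    have hda : d - a ≠ 0 ∧ b - a ≠ 0 ∧ d - b ≠ 0 := by
      rcases h with ⟨h1, h2⟩ | ⟨h1, h2⟩
      · refine ⟨?_, ?_, ?_⟩ <;> [skip; skip; skip] <;> apply ne_of_gt <;> linarith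
      · refine ⟨?_, ?_, ?_⟩ <;> apply ne_of_lt <;> linarith
    obtain ⟨e1, e2, e3⟩ := hda
    have : crd (cf^[0]) (deriv (cf^[0]) b) a b d = 1 := by
      simp only [crd, iterate_zero, id]
      have : deriv (fun x : ℝ => x) b = 1 := deriv_id b
      rw [show deriv (id : ℝ → ℝ) b = 1 from deriv_id b]
      field_simp
    rw [this]
  | succ n ih =>
    obtain ⟨hb, hq⟩ := ih (fun i hi => h0 i (Nat.lt_succ_of_lt hi))
    have hn := h0 n (Nat.lt_succ_self n)
    obtain ⟨hb', hq'⟩ := step_btw hb (fun t ht => (hn t ht).1) (fun t ht => (hn t ht).2)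
    refine ⟨by simpa only [iterate_succ_apply'] using hb', ?_⟩
    have hder : deriv (cf^[n+1]) b = dcf (cf^[n] b) * deriv (cf^[n]) b := by
      rw [iterate_succ', deriv_comp b differentiable_cf.differentiableAt
        (differentiable_iter n).differentiableAt, deriv_cf]
    have hcomp : crd (cf^[n+1]) (deriv (cf^[n+1]) b) a b d =
        crd cf (dcf (cf^[n] b)) (cf^[n] a) (cf^[n] b) (cf^[n] d) *
          crd (cf^[n]) (deriv (cf^[n]) b) a b d := by
      rw [hder]
      simp only [crd, iterate_succ_apply']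
      have n1 : cf^[n] d - cf^[n] a ≠ 0 ∧ cf^[n] b - cf^[n] a ≠ 0 ∧ cf^[n] d - cf^[n] b ≠ 0 := by
        rcases hb with ⟨h1, h2⟩ | ⟨h1, h2⟩
        · refine ⟨?_, ?_, ?_⟩ <;> apply ne_of_gt <;> linarith
        · refine ⟨?_, ?_, ?_⟩ <;> apply ne_of_lt <;> linarith
      have n2 : cf (cf^[n] d) - cf (cf^[n] a) ≠ 0 ∧ cf (cf^[n] b) - cf (cf^[n] a) ≠ 0
          ∧ cf (cf^[n] d) - cf (cf^[n] b) ≠ 0 := by
        rcases hb' with ⟨h1, h2⟩ | ⟨h1, h2⟩
        · refine ⟨?_, ?_, ?_⟩ <;> apply ne_of_gt <;> linarith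
        · refine ⟨?_, ?_, ?_⟩ <;> apply ne_of_lt <;> linarith
      have n3 : d - a ≠ 0 ∧ b - a ≠ 0 ∧ d - b ≠ 0 := by
        rcases h with ⟨h1, h2⟩ | ⟨h1, h2⟩
        · refine ⟨?_, ?_, ?_⟩ <;> apply ne_of_gt <;> linarith
        · refine ⟨?_, ?_, ?_⟩ <;> apply ne_of_lt <;> linarith
      obtain ⟨a1, a2, a3⟩ := n1
      obtain ⟨b1, b2, b3⟩ := n2
      obtain ⟨c1, c2, c3⟩ := n3
      field_simp
    rw [hcomp]
    exact one_le_mul_of_one_le_of_one_le hq' hq

end Pool.Agent.Lib.MP_a247fa_nt
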