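import Mathlib
import Pool.Agent.Lib.MP_a247fa_nt.Basic
import Pool.Agent.Lib.MP_a247fa_nt.Singer

/-!
Singer's theorem for the map `cf`, second part: immediate basins.
-/

set_option autoImplicit false

namespace Pool.Agent.Lib.MP_a247fa_nt

open Real Function Set Filter Topology

/-- The basin of the periodic point `x` of `cf` (under the return map `cf^p`, `p` the period). -/
def basinOf (x : ℝ) : Set ℝ :=
  {y | Tendsto (fun k : ℕ => (cf^[minimalPeriod cf x])^[k] y) atTop (𝓝 x)}

/-- The immediate basin of the periodic point `x`: the connected component of its basin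
containing `x`. -/
def immediateBasin (x : ℝ) : Set ℝ := connectedComponentIn (basinOf x) x

lemma local_attraction {h : ℝ → ℝ} {x D : ℝ} (hd : HasDerivAt h D x) (hx : h x = x)
    (hD : |D| < 1) : ∃ ε > 0, ∀ y, |y - x| < ε → Tendsto (fun k : ℕ => h^[k] y) atTop (𝓝 x) := by
  obtain ⟨c, hc1, hc2⟩ := exists_between hD
  have hc0 : 0 < c := (abs_nonneg D).trans_lt hc1
  have h1 := hd.isLittleO.def (sub_pos.2 hc1)
  rw [Metric.eventually_nhds_iff] at h1
  obtain ⟨ε, hε, h2⟩ := h1
  have key : ∀ y, |y - x| < ε → |h y - x| ≤ c * |y - x| := by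
    intro y hy
    have h3 := h2 (y := y) (by rwa [Real.dist_eq])
    simp only [Real.norm_eq_abs, smul_eq_mul] at h3
    have h4 : h y - x = (h y - h x - (y - x) * D) + (y - x) * D := by rw [hx]; ring
    rw [h4]
    calc |(h y - h x - (y - x) * D) + (y - x) * D|
        ≤ |h y - h x - (y - x) * D| + |(y - x) * D| := abs_add_le _ _
      _ ≤ (c - |D|) * |y - x| + |y - x| * |D| := by rw [abs_mul (y - x) D]; linarith
      _ = c * |y - x| := by ring
  refine ⟨ε, hε, fun y hy => ?_⟩
  have key2 : ∀ k : ℕ, |h^[k] y - x| ≤ c ^ k * |y - x| ∧ |h^[k] y - x| < ε := by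
    intro k
    induction k with
    | zero => simpa using hy
    | succ k ih =>
      rw [iterate_succ_apply']
      have h5 := key _ ih.2
      have h6 : |h (h^[k] y) - x| ≤ c ^ (k+1) * |y - x| := by
        calc |h (h^[k] y) - x| ≤ c * |h^[k] y - x| := h5
          _ ≤ c * (c ^ k * |y - x|) := mul_le_mul_of_nonneg_left ih.1 hc0.le
          _ = c ^ (k+1) * |y - x| := by ring
      refine ⟨h6, lt_of_le_of_lt h5 ?_⟩
      calc c * |h^[k] y - x| ≤ 1 * |h^[k] y - x| :=
            mul_le_mul_of_nonneg_right hc2.le (abs_nonneg _)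
        _ < ε := by rw [one_mul]; exact ih.2
  rw [tendsto_iff_dist_tendsto_zero]
  have h7 : Tendsto (fun k : ℕ => c ^ k * |y - x|) atTop (𝓝 0) := by
    have := (tendsto_pow_atTop_nhds_zero_of_lt_one hc0.le hc2).mul_const (|y - x|)
    simpa using this
  refine squeeze_zero (fun _ => dist_nonneg) (fun k => ?_) h7
  rw [Real.dist_eq]; exact (key2 k).1

lemma isOpen_basinOf {x : ℝ} (hx : IsAttracting x) : IsOpen (basinOf x) := by
  set p := minimalPeriod cf x with hp
  have hfix : cf^[p] x = x := isPeriodicPt_minimalPeriod cf x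
  have hd : HasDerivAt (cf^[p]) (deriv (cf^[p]) x) x :=
    (differentiable_iter p).differentiableAt.hasDerivAt
  obtain ⟨ε, hε, hloc⟩ := local_attraction hd hfix hx.2
  have hcont : ∀ k : ℕ, Continuous ((cf^[p])^[k]) := fun k =>
    ((continuous_cf.iterate p).iterate k)
  have heq : basinOf x = ⋃ k : ℕ, ((cf^[p])^[k]) ⁻¹' (Metric.ball x ε) := by
    ext y
    simp only [basinOf, mem_ofPred_eq, mem_iUnion, mem_preimage, Metric.mem_ball]
    constructor
    · intro h
      have := h.eventually (Metric.ball_mem_nhds x hε)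
      obtain ⟨k, hk⟩ := this.exists
      exact ⟨k, hk⟩
    · rintro ⟨k, hk⟩
      rw [Real.dist_eq] at hk
      have h1 := hloc _ hk
      have h2 : Tendsto (fun j : ℕ => (cf^[p])^[j + k] y) atTop (𝓝 x) := by
        refine h1.congr (fun j => ?_)
        rw [iterate_add_apply]
      exact (tendsto_add_atTop_iff_nat k).1 h2
  rw [heq]
  exact isOpen_iUnion (fun k => Metric.isOpen_ball.preimage (hcont k))

lemma mem_basinOf_self {x : ℝ} : x ∈ basinOf x := by
  have hfix : cf^[minimalPeriod cf x] x = x := isPeriodicPt_minimalPeriod cf x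
  have : ∀ k : ℕ, (cf^[minimalPeriod cf x])^[k] x = x := fun k => iterate_fixed hfix k
  simp only [basinOf, mem_ofPred_eq, this]
  exact tendsto_const_nhds

lemma mem_immediateBasin_self {x : ℝ} : x ∈ immediateBasin x :=
  mem_connectedComponentIn mem_basinOf_self

/-- the return map maps the basin of `x` into itself, and conversely. -/
lemma return_mem_basinOf_iff {x y : ℝ} :
    cf^[minimalPeriod cf x] y ∈ basinOf x ↔ y ∈ basinOf x := by
  simp only [basinOf, mem_ofPred_eq, ← iterate_succ_apply]
  exact tendsto_add_atTop_iff_nat (f := fun k : ℕ => (cf^[minimalPeriod cf x])^[k] y) 1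

lemma iter_mem_basinOf {x y : ℝ} (hx : 0 < minimalPeriod cf x) (i : ℕ) (hy : y ∈ basinOf x) :
    cf^[i] y ∈ basinOf (cf^[i] x) := by
  have hper : x ∈ periodicPts cf := minimalPeriod_pos_iff_mem_periodicPts.1 hx
  have hmp : minimalPeriod cf (cf^[i] x) = minimalPeriod cf x :=
    minimalPeriod_apply_iterate hper i
  simp only [basinOf, mem_ofPred_eq, hmp] at hy ⊢
  have h1 : Tendsto (fun k : ℕ => cf^[i] ((cf^[minimalPeriod cf x])^[k] y)) atTop
      (𝓝 (cf^[i] x)) := ((continuous_cf.iterate i).tendsto x).comp hy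
  refine h1.congr (fun k => ?_)
  rw [← iterate_mul, ← iterate_add_apply, ← iterate_add_apply, add_comm]

lemma iter_immediateBasin {x : ℝ} (hx : 0 < minimalPeriod cf x) (i : ℕ) {y : ℝ}
    (hy : y ∈ immediateBasin x) : cf^[i] y ∈ immediateBasin (cf^[i] x) := by
  have hconn : IsPreconnected (cf^[i] '' immediateBasin x) :=
    (isPreconnected_connectedComponentIn).image _ (continuous_cf.iterate i).continuousOn
  have hsub : cf^[i] '' immediateBasin x ⊆ basinOf (cf^[i] x) := by
    rintro _ ⟨z, hz, rfl⟩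
    exact iter_mem_basinOf hx i (connectedComponentIn_subset _ _ hz)
  have := hconn.subset_connectedComponentIn (mem_image_of_mem _ mem_immediateBasin_self) hsub
  exact this (mem_image_of_mem _ hy)

lemma exists_fixed_above (x : ℝ) : ∃ y, x < y ∧ cf y = y := by
  obtain ⟨k, hk⟩ := exists_nat_gt (x / 2)
  have h1 : x < 2 * (k:ℝ) := by linarith
  set a : ℝ := 2 * (k:ℝ) with ha
  have ha0 : 0 ≤ a := by positivity
  set F : ℝ → ℝ := fun y => cf y - y with hF
  have hFc : Continuous F := continuous_cf.sub continuous_id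
  have hcos1 : Real.cos (Real.pi * a) = 1 := by
    have : Real.pi * a = (k:ℝ) * (2 * Real.pi) := by rw [ha]; ring
    rw [this, Real.cos_nat_mul_two_pi]
  have hcos2 : Real.cos (Real.pi * (a + 1/2)) = 0 := by
    have : Real.pi * (a + 1/2) = Real.pi / 2 + (k:ℝ) * (2 * Real.pi) := by rw [ha]; ring
    rw [this, Real.cos_add_nat_mul_two_pi, Real.cos_pi_div_two]
  have hFa : F a ≤ 0 := by
    simp only [hF, cf, hcos1]; linarith
  have hFb : 0 ≤ F (a + 1/2) := by
    simp only [hF, cf, hcos2]; linarith
  have := intermediate_value_Icc (show a ≤ a + 1/2 by linarith) hFc.continuousOn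
  obtain ⟨y, hy, hy0⟩ := this ⟨hFa, hFb⟩
  refine ⟨y, lt_of_lt_of_le h1 hy.1, ?_⟩
  simp only [hF] at hy0
  linarith

lemma cf_zero : cf 0 = 0 := by simp [cf]

lemma fixed_not_mem_basinOf {x y : ℝ} (hy : cf y = y) (hxy : y ≠ x) : y ∉ basinOf x := by
  intro h
  have h1 : ∀ k : ℕ, (cf^[minimalPeriod cf x])^[k] y = y := by
    intro k
    apply iterate_fixed
    exact iterate_fixed hy _
  simp only [basinOf, mem_ofPred_eq, h1] at h
  exact hxy (tendsto_nhds_unique tendsto_const_nhds h)

/-- The immediate basin of an attracting periodic point in `(0,∞)` is a bounded open interval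
`(α, β)` with `0 ≤ α`. -/
lemma immediateBasin_eq_Ioo {x : ℝ} (hx0 : 0 < x) (hx : IsAttracting x) :
    ∃ α β : ℝ, 0 ≤ α ∧ α < x ∧ x < β ∧ immediateBasin x = Ioo α β ∧
      α ∉ basinOf x ∧ β ∉ basinOf x := by
  set W := immediateBasin x with hW
  have hopenB := isOpen_basinOf hx
  have hopen : IsOpen W := hopenB.connectedComponentIn
  have hconn : IsPreconnected W := isPreconnected_connectedComponentIn
  have hxW : x ∈ W := mem_immediateBasin_self
  have hord : OrdConnected W := hconn.ordConnected
  obtain ⟨y2, hy2, hfy2⟩ := exists_fixed_above x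
  have hy2W : y2 ∉ W := fun h =>
    fixed_not_mem_basinOf hfy2 hy2.ne' (connectedComponentIn_subset _ _ h)
  have h0W : (0:ℝ) ∉ W := fun h =>
    fixed_not_mem_basinOf cf_zero hx0.ne (connectedComponentIn_subset _ _ h)
  have hbelow : ∀ y ∈ W, 0 < y := by
    intro y hy
    by_contra hcon
    push Not at hcon
    exact h0W (hord.out hy hxW ⟨hcon, hx0.le⟩)
  have habove : ∀ y ∈ W, y < y2 := by
    intro y hy
    by_contra hcon
    push Not at hcon
    exact hy2W (hord.out hxW hy ⟨hy2.le, hcon⟩)
  have hbb : BddBelow W := ⟨0, fun y hy => (hbelow y hy).le⟩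
  have hba : BddAbove W := ⟨y2, fun y hy => (habove y hy).le⟩
  have hne : W.Nonempty := ⟨x, hxW⟩
  set α := sInf W with hα
  set β := sSup W with hβ
  have hαx : α ≤ x := csInf_le hbb hxW
  have hxβ : x ≤ β := le_csSup hba hxW
  have hαn : α ∉ W := by
    intro h
    obtain ⟨ε, hε, hball⟩ := Metric.isOpen_iff.1 hopen α h
    have : α - ε/2 ∈ W := hball (by rw [Metric.mem_ball, Real.dist_eq]; rw [abs_lt]; constructor <;> linarith)
    have := csInf_le hbb this
    rw [← hα] at this
    linarith
  have hβn : β ∉ W := by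
    intro h
    obtain ⟨ε, hε, hball⟩ := Metric.isOpen_iff.1 hopen β h
    have : β + ε/2 ∈ W := hball (by rw [Metric.mem_ball, Real.dist_eq]; rw [abs_lt]; constructor <;> linarith)
    have := le_csSup hba this
    rw [← hβ] at this
    linarith
  have hαx' : α < x := lt_of_le_of_ne hαx (fun h => hαn (h ▸ hxW))
  have hxβ' : x < β := lt_of_le_of_ne hxβ (fun h => hβn (h ▸ hxW))
  have hWeq : W = Ioo α β := by
    ext y
    constructor
    · intro hy
      refine ⟨lt_of_le_of_ne (csInf_le hbb hy) (fun h => hαn (h ▸ hy)),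
        lt_of_le_of_ne (le_csSup hba hy) (fun h => hβn (h ▸ hy))⟩
    · rintro ⟨h1, h2⟩
      obtain ⟨u, hu, hu'⟩ := exists_lt_of_csInf_lt hne h1
      obtain ⟨v, hv, hv'⟩ := exists_lt_of_lt_csSup hne h2
      exact hord.out hu hv ⟨hu'.le, hv'.le⟩
  refine ⟨α, β, le_csInf hne (fun y hy => (hbelow y hy).le), hαx', hxβ', hWeq, ?_, ?_⟩
  · intro hmem
    apply hαn
    -- Ico α β is a connected subset of the basin containing x
    have hsub : Ico α β ⊆ basinOf x := by
      intro y hy
      rcases eq_or_lt_of_le hy.1 with h | h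
      · rwa [← h]
      · have : y ∈ W := by rw [hWeq]; exact ⟨h, hy.2⟩
        exact connectedComponentIn_subset _ _ this
    have := (isPreconnected_Ico (a := α) (b := β)).subset_connectedComponentIn
      (show x ∈ Ico α β from ⟨hαx, hxβ'⟩) hsub
    exact this ⟨le_refl _, hαx'.trans hxβ'⟩
  · intro hmem
    apply hβn
    have hsub : Ioc α β ⊆ basinOf x := by
      intro y hy
      rcases eq_or_lt_of_le hy.2 with h | h
      · rwa [h]
      · have : y ∈ W := by rw [hWeq]; exact ⟨hy.1, h⟩
        exact connectedComponentIn_subset _ _ this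
    have := (isPreconnected_Ioc (a := α) (b := β)).subset_connectedComponentIn
      (show x ∈ Ioc α β from ⟨hαx', hxβ⟩) hsub
    exact this ⟨hαx'.trans hxβ', le_refl _⟩

/-- **Singer's theorem for `cf`.** The immediate basin of an attracting periodic orbit of `cf`
in `(0,∞)` contains a critical point. -/
theorem singer {x : ℝ} (hx0 : 0 < x) (hx : IsAttracting x) :
    ∃ i : ℕ, ∃ c ∈ immediateBasin (cf^[i] x), dcf c = 0 := by
  by_contra hcon
  push Not at hcon
  obtain ⟨α, β, hα0, hαx, hxβ, hW, hαB, hβB⟩ := immediateBasin_eq_Ioo hx0 hx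
  set p := minimalPeriod cf x with hp
  have hppos : 0 < p := hx.1
  have hfix : cf^[p] x = x := isPeriodicPt_minimalPeriod cf x
  set n := p + p with hn
  set g := cf^[n] with hg
  have hgcont : Continuous g := continuous_cf.iterate n
  have hgx : g x = x := by rw [hg, hn, iterate_add_apply, hfix, hfix]
  have hgd : Differentiable ℝ g := differentiable_iter n
  have hgx' : deriv g x = deriv (cf^[p]) x ^ 2 := by
    rw [hg, hn, iterate_add, deriv_comp x (differentiable_iter p).differentiableAt
      (differentiable_iter p).differentiableAt, hfix, sq]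
  have hgx1 : deriv g x < 1 := by
    rw [hgx', ← sq_abs]
    exact pow_lt_one₀ (abs_nonneg _) hx.2 (by norm_num)
  -- derivative does not vanish on W
  have hWne : ∀ y ∈ Ioo α β, deriv g y ≠ 0 := by
    intro y hy
    rw [hg, deriv_iter, Finset.prod_ne_zero_iff]
    intro i _
    apply hcon i
    apply iter_immediateBasin hx.1
    rw [hW]; exact hy
  -- positivity along the orbit of W
  have hposW : ∀ i : ℕ, ∀ y ∈ immediateBasin (cf^[i] x), 0 ≤ y := by
    intro i y hy
    by_contra hneg
    push Not at hneg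
    have hpos : 0 < cf^[i] x := by
      clear hy hcon
      induction i with
      | zero => simpa using hx0
      | succ i ih => rw [iterate_succ_apply']; exact cf_pos _ ih
    have hordi : OrdConnected (immediateBasin (cf^[i] x)) :=
      (isPreconnected_connectedComponentIn).ordConnected
    have h0 : (0:ℝ) ∈ immediateBasin (cf^[i] x) :=
      hordi.out hy mem_immediateBasin_self ⟨hneg.le, hpos.le⟩
    exact fixed_not_mem_basinOf cf_zero hpos.ne (connectedComponentIn_subset _ _ h0)
  -- cross ratio inequality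
  have hcr : ∀ a b d : ℝ, a ∈ Ioo α β → d ∈ Ioo α β → a < b → b < d →
      Btw (g a) (g b) (g d) ∧ 1 ≤ crd g (deriv g b) a b d := by
    intro a b d ha hd hab hbd
    apply iter_btw n (Or.inl ⟨hab, hbd⟩)
    intro i _ t ht
    have hai : cf^[i] a ∈ immediateBasin (cf^[i] x) :=
      iter_immediateBasin hx.1 i (by rw [hW]; exact ha)
    have hdi : cf^[i] d ∈ immediateBasin (cf^[i] x) :=
      iter_immediateBasin hx.1 i (by rw [hW]; exact hd)
    have hordi : OrdConnected (immediateBasin (cf^[i] x)) :=
      (isPreconnected_connectedComponentIn).ordConnected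
    have hti : t ∈ immediateBasin (cf^[i] x) := hordi.uIcc_subset hai hdi ht
    exact ⟨hposW i t hti, hcon i t hti⟩
  -- g is strictly increasing on W
  have hgpos : 0 < deriv g x := by
    have h1 := hWne x ⟨hαx, hxβ⟩
    rw [hgx'] at h1 ⊢
    positivity
  have hmono : ∀ a d : ℝ, a ∈ Ioo α β → d ∈ Ioo α β → a < x → x < d → g a < x ∧ x < g d := by
    intro a d ha hd hax hxd
    obtain ⟨hb, hq⟩ := hcr a x d ha hd hax hxd
    rw [hgx] at hb
    rcases hb with hb | hb
    · exact hb
    · exfalso
      have : crd g (deriv g x) a x d < 0 := by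
        unfold crd
        rw [hgx]
        apply div_neg_of_neg_of_pos
        · have h1 : g d - g a < 0 := by linarith [hb.1, hb.2]
          have h2 : 0 < x - a := by linarith
          have h3 : 0 < d - x := by linarith
          have h4 : deriv g x * (g d - g a) < 0 := mul_neg_of_pos_of_neg hgpos h1
          have h5 : deriv g x * (g d - g a) * (x - a) < 0 := mul_neg_of_neg_of_pos h4 h2
          exact mul_neg_of_neg_of_pos h5 h3
        · apply mul_pos
          · apply mul_pos_of_neg_of_neg <;> linarith [hb.1, hb.2]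
          · linarith
      linarith
  -- the image of W under g stays in W
  have hgW : ∀ y ∈ Ioo α β, g y ∈ Ioo α β := by
    intro y hy
    rw [← hW] at hy ⊢
    have h1 := iter_immediateBasin hx.1 n hy
    rwa [show cf^[n] x = x from hgx] at h1
  have hgB : ∀ y, g y ∈ basinOf x → y ∈ basinOf x := by
    intro y hy
    rw [hg, hn, iterate_add_apply] at hy
    exact return_mem_basinOf_iff.1 (return_mem_basinOf_iff.1 hy)
  have hsubB : Ioo α β ⊆ basinOf x := by
    rw [← hW]; exact connectedComponentIn_subset _ _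
  have hαβ : α < β := hαx.trans hxβ
  have hclos : ∀ y ∈ Icc α β, g y ∈ Icc α β := by
    have h1 : MapsTo g (Ioo α β) (Ioo α β) := hgW
    have h2 := h1.closure hgcont
    rw [closure_Ioo hαβ.ne] at h2
    exact h2
  have hgα : g α = α := by
    have h1 := hclos α (left_mem_Icc.2 hαβ.le)
    have h2 : g α ≤ x := by
      -- limit of g a for a → α+
      have ht : Tendsto g (𝓝[>] α) (𝓝 (g α)) := (hgcont.tendsto α).mono_left nhdsWithin_le_nhds
      apply le_of_tendsto ht
      filter_upwards [Ioo_mem_nhdsGT hαx] with a ha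
      obtain ⟨d, hd1, hd2⟩ := exists_between hxβ
      exact (hmono a d ⟨ha.1, ha.2.trans hxβ⟩ ⟨hαx.trans hd1, hd2⟩ ha.2 hd1).1.le
    by_contra hne
    apply hαB
    apply hgB
    apply hsubB
    exact ⟨lt_of_le_of_ne h1.1 (Ne.symm hne), lt_of_le_of_lt h2 hxβ⟩
  have hgβ : g β = β := by
    have h1 := hclos β (right_mem_Icc.2 hαβ.le)
    have h2 : x ≤ g β := by
      have ht : Tendsto g (𝓝[<] β) (𝓝 (g β)) := (hgcont.tendsto β).mono_left nhdsWithin_le_nhds
      apply ge_of_tendsto ht
      filter_upwards [Ioo_mem_nhdsLT hxβ] with d hd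
      obtain ⟨a, ha1, ha2⟩ := exists_between hαx
      exact (hmono a d ⟨ha1, ha2.trans hxβ⟩ ⟨hαx.trans hd.1, hd.2⟩ ha2 hd.1).2.le
    by_contra hne
    apply hβB
    apply hgB
    apply hsubB
    exact ⟨lt_of_lt_of_le hαx h2, lt_of_le_of_ne h1.2 hne⟩
  -- the limiting inequality
  set L : ℝ → ℝ := fun t => (x - g (α + t * (x - α))) * (g (β - t * (β - x)) - x)
      * ((β - t * (β - x)) - (α + t * (x - α))) with hL
  set R : ℝ → ℝ := fun t => deriv g x * (g (β - t * (β - x)) - g (α + t * (x - α)))
      * (x - (α + t * (x - α))) * ((β - t * (β - x)) - x) with hR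
  have hLc : Continuous L := by
    rw [hL]; fun_prop
  have hRc : Continuous R := by
    rw [hR]; fun_prop
  have hineq : ∀ t ∈ Ioo (0:ℝ) 1, L t ≤ R t := by
    intro t ht
    have ha : α < α + t * (x - α) := by nlinarith [ht.1]
    have ha' : α + t * (x - α) < x := by nlinarith [ht.2]
    have hd : β - t * (β - x) < β := by nlinarith [ht.1]
    have hd' : x < β - t * (β - x) := by nlinarith [ht.2]
    have hA : α + t * (x - α) ∈ Ioo α β := ⟨ha, ha'.trans hxβ⟩
    have hD : β - t * (β - x) ∈ Ioo α β := ⟨hαx.trans hd', hd⟩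
    obtain ⟨_, hq⟩ := hcr _ x _ hA hD ha' hd'
    obtain ⟨h1, h2⟩ := hmono _ _ hA hD ha' hd'
    unfold crd at hq
    rw [hgx, le_div_iff₀] at hq
    · simp only [hL, hR]; linarith
    · apply mul_pos (mul_pos _ _) <;> linarith
  have h0 : L 0 ≤ R 0 := by
    have h1 : Tendsto L (𝓝[>] 0) (𝓝 (L 0)) := (hLc.tendsto 0).mono_left nhdsWithin_le_nhds
    have h2 : Tendsto R (𝓝[>] 0) (𝓝 (R 0)) := (hRc.tendsto 0).mono_left nhdsWithin_le_nhds
    apply le_of_tendsto_of_tendsto h1 h2
    filter_upwards [Ioo_mem_nhdsGT (show (0:ℝ) < 1 by norm_num)] with t ht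
    exact hineq t ht
  simp only [hL, hR, zero_mul, add_zero, sub_zero, hgα, hgβ] at h0
  have h1 : 0 < (x - α) * (β - x) * (β - α) := by
    apply mul_pos (mul_pos _ _) <;> linarith
  nlinarith [h0, h1]

end Pool.Agent.Lib.MP_a247fa_nt
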