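import Pool.Agent.Lib.MP_a247fa_nt.Orbits

/-!
Integer cycles are attracting; digits of the second attracting cycle.
-/

set_option autoImplicit false

namespace Pool.Agent.Lib.MP_a247fa_nt

open Real Function

lemma cf_iter_natCast (m : ℕ) (k : ℕ) : cf^[k] m = ((T^[k] m : ℕ) : ℝ) := by
  induction k with
  | zero => rfl
  | succ k ih => rw [Function.iterate_succ_apply', Function.iterate_succ_apply', ih, cf_natCast]

lemma dcf_natCast_even {m : ℕ} (h : m % 2 = 0) : dcf m = 1 / 2 := by
  have := dcf_even m h 0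
  simp only [add_zero, mul_zero, Real.cos_zero, Real.sin_zero] at this
  rw [this]; norm_num

lemma dcf_natCast_odd {m : ℕ} (h : m % 2 = 1) : dcf m = 3 / 2 := by
  have := dcf_odd m h 0
  simp only [add_zero, mul_zero, Real.cos_zero, Real.sin_zero] at this
  rw [this]; norm_num

lemma T_iter_pos {m : ℕ} (hm : 0 < m) (k : ℕ) : 0 < T^[k] m := by
  induction k with
  | zero => exact hm
  | succ k ih => rw [Function.iterate_succ_apply']; exact T_pos ih

lemma prod_ratio {m : ℕ} (hm : 0 < m) (p : ℕ) :
    ∏ i ∈ Finset.range p, ((T^[i + 1] m : ℕ) : ℝ) / ((T^[i] m : ℕ) : ℝ) = (T^[p] m : ℕ) / m := by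
  induction p with
  | zero => simp [hm.ne']
  | succ p ih =>
    rw [Finset.prod_range_succ, ih]
    have h1 : ((T^[p] m : ℕ) : ℝ) ≠ 0 := by exact_mod_cast (T_iter_pos hm p).ne'
    have h2 : (m : ℝ) ≠ 0 := by exact_mod_cast hm.ne'
    field_simp

/-- Every integer cycle of `T` is an attracting cycle of `cf`. -/
theorem isAttracting_natCast {n : ℕ} (hn : 0 < n) {p : ℕ} (hp : 0 < p) (h : T^[p] n = n) :
    IsAttracting (n : ℝ) := by
  apply isAttracting_of_period hp
  · rw [cf_iter_natCast, h]
  · rw [deriv_iter]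
    have hpos : ∀ i : ℕ, 0 < dcf (cf^[i] (n : ℝ)) := by
      intro i
      rw [cf_iter_natCast]
      rcases Nat.mod_two_eq_zero_or_one (T^[i] n) with h | h
      · rw [dcf_natCast_even h]; norm_num
      · rw [dcf_natCast_odd h]; norm_num
    have hle : ∀ i : ℕ, dcf (cf^[i] (n : ℝ)) ≤ ((T^[i + 1] n : ℕ) : ℝ) / ((T^[i] n : ℕ) : ℝ) := by
      intro i
      have hi := T_iter_pos hn i
      have hi' : (0 : ℝ) < ((T^[i] n : ℕ) : ℝ) := by exact_mod_cast hi
      rw [cf_iter_natCast, Function.iterate_succ_apply', le_div_iff₀ hi']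
      rcases Nat.mod_two_eq_zero_or_one (T^[i] n) with h | h
      · rw [dcf_natCast_even h, T_even h]; linarith
      · rw [dcf_natCast_odd h, T_odd h]; linarith
    have hodd : ∃ i ∈ Finset.range p, T^[i] n % 2 = 1 := by
      by_contra hcon
      push Not at hcon
      have hdec : ∀ i : ℕ, i ≤ p → T^[i] n + i ≤ n := by
        intro i
        induction i with
        | zero => intro _; simp
        | succ i ih =>
          intro hi
          have h1 := ih (by omega)
          have h2 := hcon i (Finset.mem_range.mpr (by omega))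
          have h3 : T^[i] n % 2 = 0 := by omega
          have h4 := T_iter_pos hn i
          rw [Function.iterate_succ_apply']
          have h5 : T (T^[i] n) = T^[i] n / 2 := by simp [T, h3]
          rw [h5]; omega
      have := hdec p le_rfl
      rw [h] at this
      omega
    have hprod : ∏ i ∈ Finset.range p, dcf (cf^[i] (n : ℝ)) <
        ∏ i ∈ Finset.range p, ((T^[i + 1] n : ℕ) : ℝ) / ((T^[i] n : ℕ) : ℝ) := by
      apply Finset.prod_lt_prod (fun i _ => hpos i) (fun i _ => hle i)
      obtain ⟨i, hi, hio⟩ := hodd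
      refine ⟨i, hi, ?_⟩
      have hi' : (0 : ℝ) < ((T^[i] n : ℕ) : ℝ) := by exact_mod_cast T_iter_pos hn i
      rw [cf_iter_natCast, Function.iterate_succ_apply', lt_div_iff₀ hi', dcf_natCast_odd hio,
        T_odd hio]
      linarith
    rw [prod_ratio hn, h, div_self (by exact_mod_cast hn.ne')] at hprod
    rw [abs_of_pos (Finset.prod_pos (fun i _ => hpos i))]
    exact hprod

lemma lt_aPt {x : ℝ} (hx : x ∈ K) (h : x < g x) : x < aPt := by
  by_contra hcon
  push Not at hcon
  have h1 := g_contract hx aPt_mem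
  rw [g_aPt, abs_of_nonneg (by linarith : (0 : ℝ) ≤ x - aPt)] at h1
  have := le_abs_self (g x - aPt)
  linarith

lemma aPt_lt {x : ℝ} (hx : x ∈ K) (h : g x < x) : aPt < x := by
  by_contra hcon
  push Not at hcon
  have h1 := g_contract hx aPt_mem
  rw [g_aPt, abs_of_nonpos (by linarith : x - aPt ≤ 0)] at h1
  have := neg_abs_le (g x - aPt)
  linarith

lemma aPt_gt_digits : (1.192531907 : ℝ) < aPt := by
  apply lt_aPt ⟨by norm_num, by norm_num⟩
  have h1 : (2.13865633552 : ℝ) ≤ cf (1 + 0.192531907) := by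
    apply cf_one_lb' (by norm_num) (by norm_num)
    norm_num [cosT, Finset.sum_range_succ, Nat.factorial]
  have h2 : (1.19253190701 : ℝ) ≤ cf (2 + 0.13865633552) := by
    apply cf_two_lb' (by norm_num) (by norm_num)
    norm_num [cosT, Finset.sum_range_succ, Nat.factorial]
  have h3 : cf (1 + 0.192531907) ≤ 2 + 0.1395 := cf_le_max (by norm_num) (by norm_num)
  have h4 : cf (2 + 0.13865633552) ≤ cf (cf (1 + 0.192531907)) :=
    cf_mono_right (by norm_num) (by linarith) (by linarith)
  have e : (1.192531907 : ℝ) = 1 + 0.192531907 := by norm_num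
  rw [g, e]
  linarith

lemma aPt_lt_digits : aPt < (1.192531908 : ℝ) := by
  apply aPt_lt ⟨by norm_num, by norm_num⟩
  have h1 : cf (1 + 0.192531908) ≤ (2.1386563355 : ℝ) := by
    apply cf_one_ub' (by norm_num) (by norm_num)
    norm_num [cosT, Finset.sum_range_succ, Nat.factorial]
  have h2 : cf (2 + 0.1386563355) ≤ (1.1925319075 : ℝ) := by
    apply cf_two_ub' (by norm_num) (by norm_num)
    norm_num [cosT, Finset.sum_range_succ, Nat.factorial]
  have h0 : 2 + 0.1266 ≤ cf (1 + 0.192531908) := by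
    have := cf_ge_min (x := 1 + 0.127) (y := 1 + 0.195) (z := 1 + 0.192531908) (by norm_num)
      (by norm_num) (by norm_num) (by norm_num)
    exact (le_min n_f127 n_f195).trans this
  have h4 : cf (cf (1 + 0.192531908)) ≤ cf (2 + 0.1386563355) :=
    cf_mono_right (by linarith) (by norm_num) (by linarith)
  have e : (1.192531908 : ℝ) = 1 + 0.192531908 := by norm_num
  rw [g, e]
  linarith

lemma dcf_nonpos_right {x : ℝ} (h1 : 1 + 0.181 ≤ x) (h2 : x ≤ 3 / 2) : dcf x ≤ 0 :=
  (dcf_strictAnti.antitoneOn ⟨by norm_num, by norm_num⟩ ⟨by linarith, h2⟩ h1).trans n_d181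

lemma cf_anti {x y : ℝ} (h1 : 1 + 0.181 ≤ x) (h2 : y ≤ 3 / 2) (h : x ≤ y) : cf y ≤ cf x := by
  have hanti : AntitoneOn cf (Set.Icc (1 + 0.181) (3 / 2)) := by
    apply antitoneOn_of_deriv_nonpos (convex_Icc _ _) continuous_cf.continuousOn
      differentiable_cf.differentiableOn
    intro z hz
    rw [interior_Icc] at hz
    rw [deriv_cf]
    exact dcf_nonpos_right hz.1.le hz.2.le
  exact hanti ⟨h1, h.trans h2⟩ ⟨h1.trans h, h2⟩ h

lemma bPt_gt_digits : (2.138656335 : ℝ) < bPt := by
  have h1 : (2.1386563354 : ℝ) ≤ cf (1 + 0.192531908) := by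
    apply cf_one_lb' (by norm_num) (by norm_num)
    norm_num [cosT, Finset.sum_range_succ, Nat.factorial]
  have ha := aPt_lt_digits
  have ha' := aPt_gt_digits
  have h2 : cf (1 + 0.192531908) ≤ cf aPt := cf_anti (by linarith) (by norm_num) (by linarith)
  rw [bPt]; linarith

lemma bPt_lt_digits : bPt < (2.138656336 : ℝ) := by
  have h1 : cf (1 + 0.192531907) ≤ (2.1386563356 : ℝ) := by
    apply cf_one_ub' (by norm_num) (by norm_num)
    norm_num [cosT, Finset.sum_range_succ, Nat.factorial]
  have ha := aPt_lt_digits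
  have ha' := aPt_gt_digits
  have h2 : cf aPt ≤ cf (1 + 0.192531907) := cf_anti (by norm_num) (by linarith) (by linarith)
  rw [bPt]; linarith

end Pool.Agent.Lib.MP_a247fa_nt
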