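import Pool.Agent.Lib.MP_a247fa_nt.IntCycles

/-!
Attracting cycles that do not meet the trap: the left track.
-/

set_option autoImplicit false

namespace Pool.Agent.Lib.MP_a247fa_nt

open Real Function

/-- `y` lies just left of the integer `n`, at distance at most `c / (n + 1)`. -/
def LeftOf (n : ℕ) (c : ℝ) (y : ℝ) : Prop := y < n ∧ (n + 1) * (n - y) ≤ c

lemma LeftOf.mono {n : ℕ} {c c' y : ℝ} (h : LeftOf n c y) (hc : c ≤ c') : LeftOf n c' y :=
  ⟨h.1, h.2.trans hc⟩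

lemma cf_even' (n : ℕ) (hn : n % 2 = 0) (d : ℝ) :
    cf (n + d) = n / 2 + d / 2 + (1 - Real.cos (Real.pi * d)) * (2 * n + 1 + 2 * d) / 4 := by
  rw [cf_even n hn d]; ring

lemma cf_odd' (n : ℕ) (hn : n % 2 = 1) (d : ℝ) :
    cf (n + d) = (3 * n + 1) / 2 + 3 * d / 2
      - (1 - Real.cos (Real.pi * d)) * (2 * n + 1 + 2 * d) / 4 := by
  rw [cf_odd n hn d]; ring

lemma even_near_ge (n : ℕ) (hn : n % 2 = 0) (d : ℝ) (hd : 0 ≤ 2 * n + 1 + 2 * d) :
    n / 2 + d / 2 ≤ cf (n + d) := by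
  rw [cf_even' n hn d]
  have := mul_nonneg (one_sub_cos_nonneg (Real.pi * d)) hd
  linarith

lemma even_near_le (n : ℕ) (hn : n % 2 = 0) (d : ℝ) (hd : 0 ≤ 2 * n + 1 + 2 * d) :
    cf (n + d) ≤ n / 2 + d / 2 + 1.23375 * d ^ 2 * (2 * n + 1 + 2 * d) := by
  rw [cf_even' n hn d]
  have h1 := one_sub_cos_le d
  have h2 : 1 - Real.cos (Real.pi * d) ≤ 4.935 * d ^ 2 := by
    nlinarith [pi_sq_lt, sq_nonneg d]
  have := mul_le_mul_of_nonneg_right h2 hd
  linarith

lemma odd_near_ge (n : ℕ) (hn : n % 2 = 1) (d : ℝ) (hd : 0 ≤ 2 * n + 1 + 2 * d) :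
    (3 * n + 1) / 2 + 3 * d / 2 - 1.23375 * d ^ 2 * (2 * n + 1 + 2 * d) ≤ cf (n + d) := by
  rw [cf_odd' n hn d]
  have h1 := one_sub_cos_le d
  have h2 : 1 - Real.cos (Real.pi * d) ≤ 4.935 * d ^ 2 := by
    nlinarith [pi_sq_lt, sq_nonneg d]
  have := mul_le_mul_of_nonneg_right h2 hd
  linarith

/-- One odd step in the left track. -/
lemma odd_left {n : ℕ} (hn : n % 2 = 1) {v v' y : ℝ} (h : LeftOf n v y) (hv : v ≤ 1)
    (hv' : 2.25 * v + 3.70125 * v ^ 2 ≤ v') : LeftOf (T n) v' (cf y) := by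
  obtain ⟨h1, h2⟩ := h
  set e : ℝ := n - y with he
  have hy : y = n + -e := by rw [he]; ring
  have hn1 : (1 : ℝ) ≤ n := by
    have : 1 ≤ n := by omega
    exact_mod_cast this
  have he0 : 0 < e := by rw [he]; linarith
  have he1 : e ≤ 1 / 2 := by nlinarith
  have hval := cf_odd' n hn (-e)
  rw [← hy] at hval
  have hcos : Real.cos (Real.pi * -e) = Real.cos (Real.pi * e) := by
    rw [mul_neg, Real.cos_neg]
  rw [hcos] at hval
  set c : ℝ := 1 - Real.cos (Real.pi * e) with hc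
  have hc0 : 0 ≤ c := one_sub_cos_nonneg _
  have hc1 : c ≤ 4.935 * e ^ 2 := by
    have := one_sub_cos_le e
    nlinarith [pi_sq_lt, sq_nonneg e]
  have hT := T_odd hn
  have hfac : 0 ≤ 2 * (n : ℝ) + 1 + 2 * -e := by linarith
  refine ⟨?_, ?_⟩
  · rw [hT, hval]
    have := mul_nonneg hc0 hfac
    linarith
  · rw [hT, hval]
    have h3 : c * (2 * (n : ℝ) + 1 + 2 * -e) ≤ 4.935 * e ^ 2 * (2 * (n + 1)) := by
      apply mul_le_mul hc1 (by linarith) hfac (by positivity)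
    have h4 : ((3 * (n : ℝ) + 1) / 2 + 1) = 3 / 2 * (n + 1) := by ring
    rw [h4]
    have h5 : (3 * (n : ℝ) + 1) / 2 - ((3 * n + 1) / 2 + 3 * -e / 2 -
        c * (2 * n + 1 + 2 * -e) / 4) = 3 / 2 * e + c * (2 * n + 1 + 2 * -e) / 4 := by ring
    rw [h5]
    set u : ℝ := (n + 1) * e with hu
    have hu0 : 0 ≤ u := by positivity
    have h6 : 3 / 2 * ((n : ℝ) + 1) * (3 / 2 * e + c * (2 * n + 1 + 2 * -e) / 4) ≤
        3 / 2 * ((n : ℝ) + 1) * (3 / 2 * e + 4.935 * e ^ 2 * (2 * (n + 1)) / 4) := by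
      apply mul_le_mul_of_nonneg_left _ (by positivity)
      linarith
    have h7 : 3 / 2 * ((n : ℝ) + 1) * (3 / 2 * e + 4.935 * e ^ 2 * (2 * (n + 1)) / 4) =
        2.25 * u + 3.70125 * u ^ 2 := by rw [hu]; ring
    have h8 : 2.25 * u + 3.70125 * u ^ 2 ≤ 2.25 * v + 3.70125 * v ^ 2 := by
      have : u ≤ v := h2
      nlinarith
    linarith

lemma even_left_aux {a e c F : ℝ} (ha : 0 < a) (he : 0 < e) (hv : a * e ≤ 0.67)
    (hc1 : c ≤ 4.935 * e ^ 2) (hF : 0 ≤ F) (hFa : F ≤ 2 * a) :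
    -e / 2 + c * F / 4 ≤ 4 / (5 * a) := by
  have ha5 : 0 < 5 * a := by linarith
  rw [le_div_iff₀ ha5]
  have h4 : c * F ≤ 4.935 * e ^ 2 * (2 * a) :=
    mul_le_mul hc1 hFa hF (by positivity)
  have h5 : a * (-e / 2 + c * F / 4) ≤ a * (-e / 2 + 4.935 * e ^ 2 * (2 * a) / 4) := by
    apply mul_le_mul_of_nonneg_left _ ha.le
    linarith
  have h6 : a * (-e / 2 + 4.935 * e ^ 2 * (2 * a) / 4) =
      -(a * e) / 2 + 2.4675 * (a * e) ^ 2 := by ring
  have h9 : 0 ≤ a * e := by positivity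
  have h7 : -(a * e) / 2 + 2.4675 * (a * e) ^ 2 ≤ 0.8 := by nlinarith
  have h8 : (-e / 2 + c * F / 4) * (5 * a) = 5 * (a * (-e / 2 + c * F / 4)) := by ring
  rw [h8]
  linarith

/-- One even step in the left track: we fall into the trap or stay in the left track, with the
distance reset. -/
lemma even_left {n : ℕ} (hn : n % 2 = 0) (hn0 : 0 < n) {y : ℝ} (h : LeftOf n 0.67 y) :
    cf y ∈ trapI (T n) ∨ (LeftOf (T n) 0.0233 (cf y) ∧ (30 ≤ n → LeftOf (T n) 0.0134 (cf y))) := by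
  obtain ⟨h1, h2⟩ := h
  set e : ℝ := n - y with he
  have hy : y = n + -e := by rw [he]; ring
  have hn2 : (2 : ℝ) ≤ n := by
    have : 2 ≤ n := by omega
    exact_mod_cast this
  have he0 : 0 < e := by rw [he]; linarith
  have he1 : e ≤ 0.2234 := by nlinarith
  have hval := cf_even' n hn (-e)
  rw [← hy] at hval
  have hcos : Real.cos (Real.pi * -e) = Real.cos (Real.pi * e) := by
    rw [mul_neg, Real.cos_neg]
  rw [hcos] at hval
  set c : ℝ := 1 - Real.cos (Real.pi * e) with hc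
  have hc0 : 0 ≤ c := one_sub_cos_nonneg _
  have hc1 : c ≤ 4.935 * e ^ 2 := by
    have := one_sub_cos_le e
    nlinarith [pi_sq_lt, sq_nonneg e]
  have hc2 : 4.9345 * e ^ 2 * (1 - 0.8225 * e ^ 2) ≤ c := by
    have h3 := le_one_sub_cos e
    have h4 : Real.pi ^ 4 = Real.pi ^ 2 * Real.pi ^ 2 := by ring
    have h5 : Real.pi ^ 2 * e ^ 2 / 2 - Real.pi ^ 4 * e ^ 4 / 24 =
        Real.pi ^ 2 * (e ^ 2 / 2 * (1 - Real.pi ^ 2 * e ^ 2 / 12)) := by rw [h4]; ring
    rw [h5] at h3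
    have h6 : 1 - 0.8225 * e ^ 2 ≤ 1 - Real.pi ^ 2 * e ^ 2 / 12 := by
      nlinarith [pi_sq_lt, sq_nonneg e]
    have h7 : 0 ≤ 1 - 0.8225 * e ^ 2 := by nlinarith
    have h8 : e ^ 2 / 2 * (1 - 0.8225 * e ^ 2) ≤ e ^ 2 / 2 * (1 - Real.pi ^ 2 * e ^ 2 / 12) :=
      mul_le_mul_of_nonneg_left h6 (by positivity)
    have h9 : 0 ≤ e ^ 2 / 2 * (1 - 0.8225 * e ^ 2) := by positivity
    calc 4.9345 * e ^ 2 * (1 - 0.8225 * e ^ 2) = 9.869 * (e ^ 2 / 2 * (1 - 0.8225 * e ^ 2)) := by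
          ring
      _ ≤ Real.pi ^ 2 * (e ^ 2 / 2 * (1 - 0.8225 * e ^ 2)) :=
          mul_le_mul_of_nonneg_right pi_sq_gt.le h9
      _ ≤ Real.pi ^ 2 * (e ^ 2 / 2 * (1 - Real.pi ^ 2 * e ^ 2 / 12)) :=
          mul_le_mul_of_nonneg_left h8 (by positivity)
      _ ≤ c := h3
  have hT := T_even hn
  set a : ℝ := (n : ℝ) + 1 with ha
  have ha3 : 3 ≤ a := by rw [ha]; linarith
  have hna : (n : ℝ) = a - 1 := by rw [ha]; ring
  have hfac : 0 ≤ 2 * (n : ℝ) + 1 + 2 * -e := by linarith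
  rcases lt_or_ge (cf y) (T n) with hlt | hge
  · right
    -- a general estimate
    have gen : ∀ (A B C : ℝ), 0 ≤ A → 0 < B → B ≤ 4.9345 / 4 * (1 - 0.8225 * e ^ 2) * A →
        A * a ≤ 2 * a - 1 - 2 * e → (a + 1) / 2 ≤ C * a → 0 ≤ C → C / (16 * B) ≤ 0.0233 →
        LeftOf (T n) (C / (16 * B)) (cf y) := by
      intro A B C hA hB hBA hAa hC hC0 _
      refine ⟨hlt, ?_⟩
      rw [hT] at hlt ⊢
      have h3 : (n : ℝ) / 2 - cf y = e / 2 - c * (2 * n + 1 + 2 * -e) / 4 := by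
        rw [hval]; ring
      have h3' : 0 < e / 2 - c * (2 * n + 1 + 2 * -e) / 4 := by rw [← h3]; linarith
      rw [h3]
      have h4 : B * a * e ^ 2 ≤ c * (2 * n + 1 + 2 * -e) / 4 := by
        have h5 : 4.9345 * e ^ 2 * (1 - 0.8225 * e ^ 2) * (A * a) ≤
            c * (2 * n + 1 + 2 * -e) := by
          apply mul_le_mul hc2 _ (by positivity) hc0
          rw [hna]; linarith
        have h6 : B * (a * e ^ 2) ≤ 4.9345 / 4 * (1 - 0.8225 * e ^ 2) * A * (a * e ^ 2) :=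
          mul_le_mul_of_nonneg_right hBA (by positivity)
        nlinarith
      have h7 : (n : ℝ) / 2 + 1 = (a + 1) / 2 := by rw [hna]; ring
      rw [h7]
      calc (a + 1) / 2 * (e / 2 - c * (2 * n + 1 + 2 * -e) / 4)
          ≤ C * a * (e / 2 - c * (2 * n + 1 + 2 * -e) / 4) :=
            mul_le_mul_of_nonneg_right hC h3'.le
        _ ≤ C * a * (e / 2 - B * a * e ^ 2) := by
            apply mul_le_mul_of_nonneg_left _ (by positivity)
            linarith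
        _ ≤ C / (16 * B) := by
            rw [le_div_iff₀ (by positivity)]
            have h8 : 0 ≤ (1 - 4 * B * (a * e)) ^ 2 := sq_nonneg _
            have h9 : C * a * (e / 2 - B * a * e ^ 2) * (16 * B) =
                C * (1 - (1 - 4 * B * (a * e)) ^ 2) := by ring
            rw [h9]
            nlinarith
    refine ⟨?_, ?_⟩
    · refine (gen 1.5177 1.795 (2 / 3) (by norm_num) (by norm_num) ?_ ?_ ?_ (by norm_num)
        (by norm_num)).mono (by norm_num)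
      · have : e ^ 2 ≤ 0.2234 ^ 2 := pow_le_pow_left₀ he0.le he1 2
        norm_num at this ⊢
        linarith
      · linarith
      · linarith
    · intro h30
      have h30' : (30 : ℝ) ≤ n := by exact_mod_cast h30
      have ha31 : 31 ≤ a := by rw [ha]; linarith
      have he2 : e ≤ 0.0217 := by nlinarith
      refine (gen 1.9663 2.42 (16 / 31) (by norm_num) (by norm_num) ?_ ?_ ?_ (by norm_num)
        (by norm_num)).mono (by norm_num)
      · have : e ^ 2 ≤ 0.0217 ^ 2 := pow_le_pow_left₀ he0.le he2 2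
        norm_num at this ⊢
        linarith
      · linarith
      · linarith
  · left
    refine ⟨hge, ?_⟩
    have hMT : 5 * (2 * ((T n : ℕ) : ℝ) + 1) = 5 * a := by rw [hT, ha]; ring
    rw [hMT, hT, hval]
    have ha0 : 0 < a := by linarith
    have h2' : a * e ≤ 0.67 := h2
    have h3 := even_left_aux ha0 he0 h2' hc1 (F := 2 * n + 1 + 2 * -e) hfac
      (by rw [ha]; linarith)
    linarith

end Pool.Agent.Lib.MP_a247fa_nt
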