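import Pool.Agent.Lib.MP_a247fa_nt.IntCycles

/-!
Shadowing on the left side of the integers: if the Collatz trajectory of `m` is bounded by `X`,
then points slightly to the left of `m` also follow the trajectory of `m` for ever.
-/

set_option autoImplicit false

namespace Pool.Agent.Lib.MP_a247fa_nt

open Real Function

/-- One step on the left side of an odd integer. -/
lemma left_step_odd {m : ℕ} (hm : 0 < m) (h : m % 2 = 1) {X P e : ℝ}
    (hP : 10 / 3 * X ^ 2 ≤ P) (hmX : (m : ℝ) ≤ X) (hTX : (T m : ℝ) ≤ X) (he : 0 < e)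
    (hinv : e * (P - 4 / 3 * (m : ℝ) ^ 2) ≤ m) :
    cf (m - e) < T m ∧ ((T m : ℝ) - cf (m - e)) * (P - 4 / 3 * (T m : ℝ) ^ 2) < T m := by
  have hm1 : (1 : ℝ) ≤ m := by exact_mod_cast hm
  have hmX2 : (m : ℝ) ^ 2 ≤ X ^ 2 := pow_le_pow_left₀ (by linarith) hmX 2
  set D : ℝ := P - 4 / 3 * (m : ℝ) ^ 2 with hD
  have hD2 : 2 * (m : ℝ) ^ 2 ≤ D := by rw [hD]; linarith
  have hTpos : (0 : ℝ) < T m := by exact_mod_cast T_pos hm
  have hTX2 : (T m : ℝ) ^ 2 ≤ X ^ 2 := pow_le_pow_left₀ hTpos.le hTX 2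
  have hT : (T m : ℝ) = (3 * m + 1) / 2 := T_odd h
  set D' : ℝ := P - 4 / 3 * (T m : ℝ) ^ 2 with hD'
  have hD'pos : 0 < D' := by
    have : 0 < (T m : ℝ) ^ 2 := by positivity
    rw [hD']; linarith
  have hDD' : D' = D - 5 / 3 * (m : ℝ) ^ 2 - 2 * m - 1 / 3 := by
    rw [hD', hD, hT]; ring
  have he2 : e ≤ 1 / 2 := by
    have : e * (2 * (m : ℝ) ^ 2) ≤ m := le_trans (mul_le_mul_of_nonneg_left hD2 he.le) hinv
    nlinarith
  set c : ℝ := 1 - Real.cos (Real.pi * e) with hc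
  have hc0 : 0 ≤ c := one_sub_cos_nonneg _
  have hc1 : c ≤ Real.pi ^ 2 * e ^ 2 / 2 := one_sub_cos_le e
  have hq1 : Real.pi ^ 2 < 9.87 := pi_sq_lt
  have hc2 : c ≤ 4.935 * e ^ 2 := by nlinarith [sq_nonneg e]
  have hval : (T m : ℝ) - cf (m - e) = 3 / 2 * e + ((2 * m + 1) / 4 - e / 2) * c := by
    have h1 := cf_odd m h (-e)
    have h2 : Real.pi * -e = -(Real.pi * e) := by ring
    rw [h2, Real.cos_neg] at h1
    have h3 : (m : ℝ) - e = m + -e := by ring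
    rw [h3, h1, hT, hc]; ring
  have hpos : 0 < (T m : ℝ) - cf (m - e) := by
    rw [hval]
    have : 0 ≤ ((2 * (m : ℝ) + 1) / 4 - e / 2) * c := by
      apply mul_nonneg _ hc0
      linarith
    linarith
  have hub : (T m : ℝ) - cf (m - e) ≤ 3 / 2 * (e * (1 + 0.8225 * (2 * m + 1) * e)) := by
    rw [hval]
    have h1 : ((2 * (m : ℝ) + 1) / 4 - e / 2) * c ≤ ((2 * (m : ℝ) + 1) / 4) * (4.935 * e ^ 2) := by
      apply mul_le_mul _ hc2 hc0 (by positivity)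
      linarith
    linarith
  refine ⟨by linarith, ?_⟩
  have h1 : ((T m : ℝ) - cf (m - e)) * D' ≤
      3 / 2 * (e * (1 + 0.8225 * (2 * m + 1) * e)) * D' :=
    mul_le_mul_of_nonneg_right hub hD'pos.le
  have h2 : e * D' ≤ m - e * (5 / 3 * (m : ℝ) ^ 2 + 2 * m + 1 / 3) := by
    rw [hDD']; linarith
  have h3 : e * D' ≤ m := by
    have : 0 ≤ e * (5 / 3 * (m : ℝ) ^ 2 + 2 * m + 1 / 3) := by positivity
    linarith
  have h4 : 0.8225 * (2 * m + 1) * e * (e * D') ≤ 0.8225 * (2 * m + 1) * e * m :=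
    mul_le_mul_of_nonneg_left h3 (by positivity)
  have h5 : e * (1 + 0.8225 * (2 * m + 1) * e) * D' < m := by
    have e1 : e * (1 + 0.8225 * (2 * m + 1) * e) * D' =
      e * D' + 0.8225 * (2 * m + 1) * e * (e * D') := by ring
    rw [e1]
    have h6 : 0.8225 * (2 * m + 1) * e * m < e * (5 / 3 * (m : ℝ) ^ 2 + 2 * m + 1 / 3) := by
      have : 0.8225 * (2 * m + 1) * (m : ℝ) < 5 / 3 * (m : ℝ) ^ 2 + 2 * m + 1 / 3 := by nlinarith
      have := mul_lt_mul_of_pos_left this he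
      linarith
    linarith
  rw [hT]
  have h7 : 3 / 2 * (e * (1 + 0.8225 * (2 * (m : ℝ) + 1) * e)) * D' < 3 / 2 * m := by
    have := mul_lt_mul_of_pos_left h5 (by norm_num : (0 : ℝ) < 3 / 2)
    linarith
  rw [hT] at h1
  linarith

/-- One step on the left side of an even integer. -/
lemma left_step_even {m : ℕ} (hm : 0 < m) (h : m % 2 = 0) {X P e : ℝ}
    (hP : 10 / 3 * X ^ 2 ≤ P) (hmX : (m : ℝ) ≤ X) (he : 0 < e)
    (hinv : e * (P - 4 / 3 * (m : ℝ) ^ 2) ≤ m) :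
    ((T m : ℝ) ≤ cf (m - e) ∧ cf (m - e) ∈ trapI (T m)) ∨
    (cf (m - e) < T m ∧ ((T m : ℝ) - cf (m - e)) * (P - 4 / 3 * (T m : ℝ) ^ 2) < T m) := by
  have hm2 : (2 : ℝ) ≤ m := by
    have : 2 ≤ m := by omega
    exact_mod_cast this
  have hmX2 : (m : ℝ) ^ 2 ≤ X ^ 2 := pow_le_pow_left₀ (by linarith) hmX 2
  set D : ℝ := P - 4 / 3 * (m : ℝ) ^ 2 with hD
  have hD2 : 2 * (m : ℝ) ^ 2 ≤ D := by rw [hD]; linarith
  have hT : (T m : ℝ) = m / 2 := T_even h
  have hme : m * e ≤ 1 / 2 := by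
    have : e * (2 * (m : ℝ) ^ 2) ≤ m := le_trans (mul_le_mul_of_nonneg_left hD2 he.le) hinv
    nlinarith
  have he4 : e ≤ 1 / 4 := by nlinarith
  set c : ℝ := 1 - Real.cos (Real.pi * e) with hc
  have hc0 : 0 ≤ c := one_sub_cos_nonneg _
  have hc1 : c ≤ Real.pi ^ 2 * e ^ 2 / 2 := one_sub_cos_le e
  have hc3 : Real.pi ^ 2 * e ^ 2 / 2 - Real.pi ^ 4 * e ^ 4 / 24 ≤ c := le_one_sub_cos e
  have hq1 : Real.pi ^ 2 < 9.87 := pi_sq_lt
  have hq2 : 9.869 < Real.pi ^ 2 := pi_sq_gt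
  have hc4 : 4.67 * e ^ 2 ≤ c := by
    have h1 : Real.pi ^ 4 * e ^ 4 / 24 = (Real.pi ^ 2 * e ^ 2) * (Real.pi ^ 2 * e ^ 2) / 24 := by
      ring
    have h2 : Real.pi ^ 2 * e ^ 2 ≤ 9.87 * (1 / 16) := by
      have : e ^ 2 ≤ 1 / 16 := by nlinarith
      exact mul_le_mul hq1.le this (sq_nonneg e) (by norm_num)
    have h3 : 0 ≤ Real.pi ^ 2 * e ^ 2 := by positivity
    have h4 : (Real.pi ^ 2 * e ^ 2) * (Real.pi ^ 2 * e ^ 2) ≤
        9.87 * (1 / 16) * (Real.pi ^ 2 * e ^ 2) := mul_le_mul_of_nonneg_right h2 h3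
    have h5 : 9.869 * e ^ 2 ≤ Real.pi ^ 2 * e ^ 2 :=
      mul_le_mul_of_nonneg_right hq2.le (sq_nonneg e)
    have h6 : Real.pi ^ 2 * e ^ 2 ≤ 9.87 * e ^ 2 :=
      mul_le_mul_of_nonneg_right hq1.le (sq_nonneg e)
    nlinarith [sq_nonneg e]
  have hval : cf (m - e) - (T m : ℝ) = ((2 * m + 1) / 4 - e / 2) * c - e / 2 := by
    have h1 := cf_even m h (-e)
    have h2 : Real.pi * -e = -(Real.pi * e) := by ring
    rw [h2, Real.cos_neg] at h1
    have h3 : (m : ℝ) - e = m + -e := by ring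
    rw [h3, h1, hT, hc]; ring
  rcases le_or_gt (T m : ℝ) (cf (m - e)) with hcase | hcase
  · left
    refine ⟨hcase, hcase, ?_⟩
    -- upper bound
    have h1 : ((2 * (m : ℝ) + 1) / 4 - e / 2) * c ≤ ((2 * (m : ℝ) + 1) / 4) * (4.935 * e ^ 2) := by
      have hc2 : c ≤ 4.935 * e ^ 2 := by nlinarith [sq_nonneg e]
      apply mul_le_mul _ hc2 hc0 (by positivity)
      linarith
    have h2 : cf (m - e) - (T m : ℝ) ≤ e * (1.23375 * (2 * m + 1) * e - 1 / 2) := by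
      rw [hval]; linarith
    have h3 : 1.23375 * (2 * m + 1) * e - 1 / 2 ≤ 0.73375 + 1.23375 * e := by linarith
    have h4 : cf (m - e) - (T m : ℝ) ≤ e * (0.73375 + 1.23375 * e) :=
      h2.trans (mul_le_mul_of_nonneg_left h3 he.le)
    have h5 : e * (0.73375 + 1.23375 * e) ≤ 4 / (5 * (2 * (T m : ℝ) + 1)) := by
      rw [le_div_iff₀ (by rw [hT]; positivity), hT]
      -- use e ≤ 1 / (2 m) in the form m e ≤ 1/2
      have h6 : e * (5 * (2 * ((m : ℝ) / 2) + 1)) = 5 * (m * e + e) := by ring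
      have h7 : m * e + e ≤ 3 / 4 := by linarith
      have h8 : e * (0.73375 + 1.23375 * e) * (5 * (2 * ((m : ℝ) / 2) + 1)) =
        5 * (m * e + e) * (0.73375 + 1.23375 * e) := by ring
      rw [h8]
      have h9 : 0.73375 + 1.23375 * e ≤ 1.0421875 := by linarith
      have h10 : 0 ≤ m * e + e := by positivity
      have h11 : (m * e + e) * (0.73375 + 1.23375 * e) ≤ 3 / 4 * 1.0421875 :=
        mul_le_mul h7 h9 (by positivity) (by norm_num)
      linarith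
    linarith
  · right
    refine ⟨hcase, ?_⟩
    have h1 : (2 * (m : ℝ) + 1) / 4 - e / 2 ≥ m / 2 := by linarith
    have h2 : (m : ℝ) / 2 * (4.67 * e ^ 2) ≤ ((2 * (m : ℝ) + 1) / 4 - e / 2) * c :=
      mul_le_mul h1 hc4 (by positivity) (by linarith)
    have h3 : (T m : ℝ) - cf (m - e) ≤ e / 2 * (1 - 4.67 * (m * e)) := by
      have : (T m : ℝ) - cf (m - e) = e / 2 - ((2 * m + 1) / 4 - e / 2) * c := by linarith
      rw [this]
      have : e / 2 * (1 - 4.67 * (m * e)) = e / 2 - (m : ℝ) / 2 * (4.67 * e ^ 2) := by ring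
      linarith
    have hD' : P - 4 / 3 * (T m : ℝ) ^ 2 = D + m ^ 2 := by rw [hT, hD]; ring
    rw [hD']
    have hDpos : 0 < D + (m : ℝ) ^ 2 := by
      have : 0 < (m : ℝ) ^ 2 := by positivity
      linarith
    have hpos : 0 < (T m : ℝ) - cf (m - e) := by linarith
    have h4 : 0 < 1 - 4.67 * (m * e) := by
      by_contra hcon
      push Not at hcon
      have : e / 2 * (1 - 4.67 * (m * e)) ≤ 0 :=
        mul_nonpos_of_nonneg_of_nonpos (by positivity) hcon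
      linarith
    have h5 : ((T m : ℝ) - cf (m - e)) * (D + m ^ 2) ≤
        e / 2 * (1 - 4.67 * (m * e)) * (D + m ^ 2) := mul_le_mul_of_nonneg_right h3 hDpos.le
    have h6 : e * (D + (m : ℝ) ^ 2) ≤ m * (1 + m * e) := by
      have : e * (D + (m : ℝ) ^ 2) = e * D + m * (m * e) := by ring
      rw [this]; linarith
    have h7 : e / 2 * (1 - 4.67 * (m * e)) * (D + (m : ℝ) ^ 2) ≤
        1 / 2 * (1 - 4.67 * (m * e)) * (m * (1 + m * e)) := by
      have e1 : e / 2 * (1 - 4.67 * (m * e)) * (D + (m : ℝ) ^ 2) =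
        1 / 2 * (1 - 4.67 * (m * e)) * (e * (D + (m : ℝ) ^ 2)) := by ring
      rw [e1]
      exact mul_le_mul_of_nonneg_left h6 (mul_nonneg (by norm_num) h4.le)
    have h8 : 1 / 2 * (1 - 4.67 * (m * e)) * (m * (1 + m * e)) < m / 2 := by
      have hme0 : 0 < m * e := by positivity
      have e1 : 1 / 2 * (1 - 4.67 * (m * e)) * (m * (1 + m * e)) =
        m / 2 - m / 2 * (3.67 * (m * e) + 4.67 * (m * e) ^ 2) := by ring
      rw [e1]
      have : 0 < (m : ℝ) / 2 * (3.67 * (m * e) + 4.67 * (m * e) ^ 2) := by positivity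
      linarith
    rw [hT] at h5 ⊢
    linarith

/-- The shadowing interval `[m - 3m/(10X²-4m²), m + 4/(5(2m+1))]` around `m`, for a bound `X` of
the trajectory of `m`. -/
def shadowI (X : ℝ) (m : ℕ) : Set ℝ :=
  Set.Icc ((m : ℝ) - 3 * m / (10 * X ^ 2 - 4 * (m : ℝ) ^ 2)) (m + 4 / (5 * (2 * m + 1)))

lemma mem_shadowI {X : ℝ} {m : ℕ} (hm : 0 < m) (hmX : (m : ℝ) ≤ X) (x : ℝ) :
    x ∈ shadowI X m ↔ x ∈ trapI m ∨
      (x < m ∧ (m - x) * (10 / 3 * X ^ 2 - 4 / 3 * (m : ℝ) ^ 2) ≤ m) := by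
  have hm1 : (1 : ℝ) ≤ m := by exact_mod_cast hm
  have hmX2 : (m : ℝ) ^ 2 ≤ X ^ 2 := pow_le_pow_left₀ (by linarith) hmX 2
  have hD : 0 < 10 * X ^ 2 - 4 * (m : ℝ) ^ 2 := by
    have : 0 < (m : ℝ) ^ 2 := by positivity
    linarith
  have key : (m : ℝ) - 3 * m / (10 * X ^ 2 - 4 * (m : ℝ) ^ 2) ≤ x ↔
      (m - x) * (10 / 3 * X ^ 2 - 4 / 3 * (m : ℝ) ^ 2) ≤ m := by
    rw [sub_le_comm, le_div_iff₀ hD]
    constructor <;> intro h <;> linarith
  unfold shadowI trapI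
  constructor
  · rintro ⟨h1, h2⟩
    rcases le_or_gt (m : ℝ) x with h | h
    · exact Or.inl ⟨h, h2⟩
    · exact Or.inr ⟨h, key.mp h1⟩
  · rintro (⟨h1, h2⟩ | ⟨h1, h2⟩)
    · refine ⟨?_, h2⟩
      have : 0 ≤ 3 * (m : ℝ) / (10 * X ^ 2 - 4 * (m : ℝ) ^ 2) := by positivity
      linarith
    · refine ⟨key.mpr h2, ?_⟩
      have : 0 ≤ 4 / (5 * (2 * (m : ℝ) + 1)) := by positivity
      linarith

/-- One step of shadowing, with a strict gain on the left side. -/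
lemma left_step {m : ℕ} (hm : 0 < m) {X P x : ℝ} (hP : 10 / 3 * X ^ 2 ≤ P)
    (hmX : (m : ℝ) ≤ X) (hTX : (T m : ℝ) ≤ X) (hx : x < m)
    (hinv : (m - x) * (P - 4 / 3 * (m : ℝ) ^ 2) ≤ m) :
    cf x ∈ trapI (T m) ∨
    (cf x < T m ∧ ((T m : ℝ) - cf x) * (P - 4 / 3 * (T m : ℝ) ^ 2) < T m) := by
  have e : x = m - (m - x) := by ring
  rcases Nat.mod_two_eq_zero_or_one m with h | h
  · have := left_step_even hm h hP hmX (e := m - x) (by linarith) hinv
    rw [← e] at this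
    rcases this with h1 | h1
    · exact Or.inl h1.2
    · exact Or.inr h1
  · have := left_step_odd hm h hP hmX hTX (e := m - x) (by linarith) hinv
    rw [← e] at this
    exact Or.inr this

/-- **Shadowing.** -/
theorem mapsTo_shadow {m : ℕ} (hm : 0 < m) {X : ℝ} (hmX : (m : ℝ) ≤ X) (hTX : (T m : ℝ) ≤ X) :
    Set.MapsTo cf (shadowI X m) (shadowI X (T m)) := by
  intro x hx
  rw [mem_shadowI hm hmX] at hx
  rw [mem_shadowI (T_pos hm) hTX]
  rcases hx with hx | ⟨h1, h2⟩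
  · exact Or.inl (mapsTo_trap hm hx)
  · rcases left_step hm le_rfl hmX hTX h1 h2 with h | ⟨h3, h4⟩
    · exact Or.inl h
    · exact Or.inr ⟨h3, h4.le⟩

lemma iter_mem_shadow {m : ℕ} (hm : 0 < m) {X : ℝ} (hX : ∀ k : ℕ, ((T^[k] m : ℕ) : ℝ) ≤ X)
    {x : ℝ} (hx : x ∈ shadowI X m) (n : ℕ) : cf^[n] x ∈ shadowI X (T^[n] m) := by
  induction n with
  | zero => exact hx
  | succ n ih =>
    rw [Function.iterate_succ_apply', Function.iterate_succ_apply']
    apply mapsTo_shadow (T_iter_pos hm n) (hX n) _ ih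
    have := hX (n + 1)
    rwa [Function.iterate_succ_apply'] at this

lemma shadowI_bounds {X : ℝ} {m : ℕ} (hm : 0 < m) (hmX : (m : ℝ) ≤ X) {x : ℝ}
    (hx : x ∈ shadowI X m) : (m : ℝ) - 1 / 2 ≤ x ∧ x ≤ m + 4 / 15 := by
  have hm1 : (1 : ℝ) ≤ m := by exact_mod_cast hm
  have hmX2 : (m : ℝ) ^ 2 ≤ X ^ 2 := pow_le_pow_left₀ (by linarith) hmX 2
  have hD : 0 < 10 * X ^ 2 - 4 * (m : ℝ) ^ 2 := by
    have : 0 < (m : ℝ) ^ 2 := by positivity
    linarith
  have h1 : 3 * (m : ℝ) / (10 * X ^ 2 - 4 * (m : ℝ) ^ 2) ≤ 1 / 2 := by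
    rw [div_le_div_iff₀ hD (by norm_num)]
    nlinarith
  have h2 : 4 / (5 * (2 * (m : ℝ) + 1)) ≤ 4 / 15 := by
    rw [div_le_div_iff₀ (by positivity) (by norm_num)]
    linarith
  exact ⟨by linarith [hx.1], by linarith [hx.2]⟩

lemma shadowI_disjoint {X Y : ℝ} {m n : ℕ} (hm : 0 < m) (hn : 0 < n) (hmX : (m : ℝ) ≤ X)
    (hnX : (n : ℝ) ≤ Y) {x : ℝ} (hx : x ∈ shadowI X m) (hy : x ∈ shadowI Y n) : m = n := by
  have h1 := shadowI_bounds hm hmX hx
  have h2 := shadowI_bounds hn hnX hy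
  have h3 : (m : ℝ) < n + 1 := by linarith
  have h4 : (n : ℝ) < m + 1 := by linarith
  have h3' : m < n + 1 := by exact_mod_cast h3
  have h4' : n < m + 1 := by exact_mod_cast h4
  omega

/-- A periodic point of `cf` in a shadowing interval lies in the trap. -/
theorem periodic_shadow {m : ℕ} (hm : 0 < m) {X : ℝ} (hX : ∀ k : ℕ, ((T^[k] m : ℕ) : ℝ) ≤ X)
    {x : ℝ} (hx : x ∈ shadowI X m) {p : ℕ} (hp : 0 < p) (hper : cf^[p] x = x) :
    x ∈ trapI m ∧ T^[p] m = m := by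
  have hTp : T^[p] m = m := by
    have h := iter_mem_shadow hm hX hx p
    rw [hper] at h
    exact shadowI_disjoint (T_iter_pos hm p) hm (hX p) (hX 0) h hx
  refine ⟨?_, hTp⟩
  by_contra hnot
  -- the orbit never enters the trap
  have hP : IsPeriodicPt cf p x := hper
  have hPT : IsPeriodicPt T p m := hTp
  have hnever : ∀ n : ℕ, cf^[n] x ∉ trapI (T^[n] m) := by
    intro n hn
    apply hnot
    have h1 := (iter_mem_trap (T_iter_pos hm n) hn (p * (n + 1) - n)).2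
    have h2 : p * (n + 1) - n + n = p * (n + 1) := by
      have : n ≤ p * (n + 1) := by nlinarith
      omega
    rw [← Function.iterate_add_apply, ← Function.iterate_add_apply, h2] at h1
    have h3 : cf^[p * (n + 1)] x = x := hP.mul_const (n + 1)
    have h4 : T^[p * (n + 1)] m = m := hPT.mul_const (n + 1)
    rwa [h3, h4] at h1
  have h0 : x < m ∧ (m - x) * (10 / 3 * X ^ 2 - 4 / 3 * (m : ℝ) ^ 2) ≤ m := by
    have := (mem_shadowI hm (hX 0) x).mp hx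
    exact this.resolve_left hnot
  have hmx : 0 < (m : ℝ) - x := by linarith [h0.1]
  set P : ℝ := m / (m - x) + 4 / 3 * (m : ℝ) ^ 2 with hPdef
  have hPX : 10 / 3 * X ^ 2 ≤ P := by
    have h1 : 10 / 3 * X ^ 2 - 4 / 3 * (m : ℝ) ^ 2 ≤ m / (m - x) := by
      rw [le_div_iff₀ hmx]; linarith [h0.2]
    rw [hPdef]; linarith
  have hP0 : ((m : ℝ) - x) * (P - 4 / 3 * (m : ℝ) ^ 2) = m := by
    rw [hPdef]; field_simp; ring
  have hind : ∀ n : ℕ, 0 < n → cf^[n] x < (T^[n] m : ℕ) ∧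
      (((T^[n] m : ℕ) : ℝ) - cf^[n] x) * (P - 4 / 3 * ((T^[n] m : ℕ) : ℝ) ^ 2) <
        (T^[n] m : ℕ) := by
    intro n hn
    induction n with
    | zero => omega
    | succ n ih =>
      have hTX : ((T (T^[n] m) : ℕ) : ℝ) ≤ X := by
        have := hX (n + 1)
        rwa [Function.iterate_succ_apply'] at this
      have hcur : cf^[n] x < (T^[n] m : ℕ) ∧
          (((T^[n] m : ℕ) : ℝ) - cf^[n] x) * (P - 4 / 3 * ((T^[n] m : ℕ) : ℝ) ^ 2) ≤
            (T^[n] m : ℕ) := by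
        rcases Nat.eq_zero_or_pos n with rfl | hn0
        · exact ⟨h0.1, hP0.le⟩
        · exact ⟨(ih hn0).1, (ih hn0).2.le⟩
      have hs := left_step (T_iter_pos hm n) hPX (hX n) hTX hcur.1 hcur.2
      have hnev := hnever (n + 1)
      rw [Function.iterate_succ_apply', Function.iterate_succ_apply'] at hnev ⊢
      exact hs.resolve_left hnev
  have := (hind p hp).2
  rw [hper, hTp, hP0] at this
  exact lt_irrefl _ this

end Pool.Agent.Lib.MP_a247fa_nt
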