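import Pool.Agent.Lib.MP_a247fa_nt.Core

/-!
Numerical facts about `cf` near `1` and `2`.
-/

set_option autoImplicit false

namespace Pool.Agent.Lib.MP_a247fa_nt

open Real Function

lemma pi_lo : (3.14159265358979 : ℝ) ≤ Real.pi := by linarith [Real.pi_gt_d20]
lemma pi_hi : Real.pi ≤ (3.14159265358980 : ℝ) := by linarith [Real.pi_lt_d20]

/-- lower bound for `cf (1+d)` -/
lemma cf_one_lb {d C : ℝ} (hd : 0 ≤ d) (h : C ≤ Real.cos (Real.pi * d)) :
    2 + (3 / 2 * d - (d / 2 + 3 / 4) * (1 - C)) ≤ cf (1 + d) := by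
  rw [cf_one_add]
  have : (d / 2 + 3 / 4) * (1 - Real.cos (Real.pi * d)) ≤ (d / 2 + 3 / 4) * (1 - C) :=
    mul_le_mul_of_nonneg_left (by linarith) (by positivity)
  linarith

lemma cf_one_ub {d C : ℝ} (hd : 0 ≤ d) (h : Real.cos (Real.pi * d) ≤ C) :
    cf (1 + d) ≤ 2 + (3 / 2 * d - (d / 2 + 3 / 4) * (1 - C)) := by
  rw [cf_one_add]
  have : (d / 2 + 3 / 4) * (1 - C) ≤ (d / 2 + 3 / 4) * (1 - Real.cos (Real.pi * d)) :=
    mul_le_mul_of_nonneg_left (by linarith) (by positivity)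
  linarith

lemma cf_two_lb {e C : ℝ} (he : 0 ≤ e) (h : Real.cos (Real.pi * e) ≤ C) :
    1 + (1 / 2 * e + (e / 2 + 5 / 4) * (1 - C)) ≤ cf (2 + e) := by
  rw [cf_two_add]
  have : (e / 2 + 5 / 4) * (1 - C) ≤ (e / 2 + 5 / 4) * (1 - Real.cos (Real.pi * e)) :=
    mul_le_mul_of_nonneg_left (by linarith) (by positivity)
  linarith

lemma cf_two_ub {e C : ℝ} (he : 0 ≤ e) (h : C ≤ Real.cos (Real.pi * e)) :
    cf (2 + e) ≤ 1 + (1 / 2 * e + (e / 2 + 5 / 4) * (1 - C)) := by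
  rw [cf_two_add]
  have : (e / 2 + 5 / 4) * (1 - Real.cos (Real.pi * e)) ≤ (e / 2 + 5 / 4) * (1 - C) :=
    mul_le_mul_of_nonneg_left (by linarith) (by positivity)
  linarith

/-- rational lower bound for `cf (1+d)` -/
lemma cf_one_lb' {d L : ℝ} (hd : 0 ≤ d) (hd1 : d ≤ 1 / 2)
    (h : L ≤ 2 + (3 / 2 * d - (d / 2 + 3 / 4) * (1 - cosT 8 (3.14159265358980 * d)))) :
    L ≤ cf (1 + d) :=
  h.trans (cf_one_lb hd (cos_pi_lb hd pi_hi (by linarith) (by norm_num) (by norm_num)))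

lemma cf_one_ub' {d L : ℝ} (hd : 0 ≤ d) (hd1 : d ≤ 1 / 2)
    (h : 2 + (3 / 2 * d - (d / 2 + 3 / 4) * (1 - cosT 7 (3.14159265358979 * d))) ≤ L) :
    cf (1 + d) ≤ L :=
  (cf_one_ub hd (cos_pi_ub hd (by norm_num) pi_lo (by linarith) (by norm_num))).trans h

lemma cf_two_lb' {d L : ℝ} (hd : 0 ≤ d) (hd1 : d ≤ 1 / 2)
    (h : L ≤ 1 + (1 / 2 * d + (d / 2 + 5 / 4) * (1 - cosT 7 (3.14159265358979 * d)))) :
    L ≤ cf (2 + d) :=
  h.trans (cf_two_lb hd (cos_pi_ub hd (by norm_num) pi_lo (by linarith) (by norm_num)))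

lemma cf_two_ub' {d L : ℝ} (hd : 0 ≤ d) (hd1 : d ≤ 1 / 2)
    (h : 1 + (1 / 2 * d + (d / 2 + 5 / 4) * (1 - cosT 8 (3.14159265358980 * d))) ≤ L) :
    cf (2 + d) ≤ L :=
  (cf_two_ub hd (cos_pi_lb hd pi_hi (by linarith) (by norm_num) (by norm_num))).trans h

lemma sin_pi_lb {r p : ℝ} {n : ℕ} (hr : 0 ≤ r) (hp0 : 0 ≤ p) (hp : p ≤ Real.pi)
    (hr1 : r ≤ 1 / 2) (hn : n % 2 = 0) (hn0 : 0 < n) :
    sinT n (p * r) ≤ Real.sin (Real.pi * r) := by
  have h0 : 0 ≤ p * r := mul_nonneg hp0 hr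
  have h1 : p * r ≤ Real.pi * r := mul_le_mul_of_nonneg_right hp hr
  have h2 : Real.pi * r ≤ Real.pi / 2 := by nlinarith [Real.pi_pos]
  refine (sinT_le_sin hn hn0 h0).trans ?_
  exact Real.sin_le_sin_of_le_of_le_pi_div_two (by linarith [Real.pi_pos]) h2 h1

lemma sin_pi_ub {r p : ℝ} {n : ℕ} (hr : 0 ≤ r) (hp : Real.pi ≤ p) (hpr : p * r ≤ 3 / 2)
    (hn : n % 2 = 1) : Real.sin (Real.pi * r) ≤ sinT n (p * r) := by
  have h0 : 0 ≤ Real.pi * r := mul_nonneg Real.pi_pos.le hr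
  have h1 : Real.pi * r ≤ p * r := mul_le_mul_of_nonneg_right hp hr
  have h2 : p * r ≤ Real.pi / 2 := by linarith [Real.pi_gt_three]
  refine le_trans ?_ (sin_le_sinT hn (h0.trans h1))
  exact Real.sin_le_sin_of_le_of_le_pi_div_two (by linarith [Real.pi_pos]) h2 h1

/-- rational bounds for `dcf (1+d)` -/
lemma dcf_one_lb' {d L : ℝ} (hd : 0 ≤ d) (hd1 : d ≤ 0.4)
    (h : L ≤ 1 + cosT 4 (3.1416 * d) / 2 - (3 + 2 * d) * 3.1416 / 4 * sinT 5 (3.1416 * d)) :
    L ≤ dcf (1 + d) := by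
  have hp : Real.pi ≤ 3.1416 := Real.pi_lt_d4.le
  have h1 := cos_pi_lb (n := 4) hd hp (by linarith) (by norm_num) (by norm_num)
  have h2 := sin_pi_ub (n := 5) hd hp (by linarith) (by norm_num)
  have h3 : 0 ≤ Real.sin (Real.pi * d) := Real.sin_nonneg_of_nonneg_of_le_pi
    (mul_nonneg Real.pi_pos.le hd) (by nlinarith [Real.pi_pos])
  rw [dcf_one_add]
  have h4 : (3 + 2 * d) * Real.pi / 4 * Real.sin (Real.pi * d) ≤
      (3 + 2 * d) * 3.1416 / 4 * sinT 5 (3.1416 * d) := by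
    apply mul_le_mul _ h2 h3 (by positivity)
    have : 0 ≤ 3 + 2 * d := by linarith
    have := mul_le_mul_of_nonneg_left hp this
    linarith
  linarith

lemma dcf_one_ub' {d L : ℝ} (hd : 0 ≤ d) (hd1 : d ≤ 0.4)
    (h : 1 + cosT 5 (3.1415 * d) / 2 - (3 + 2 * d) * 3.1415 / 4 * sinT 4 (3.1415 * d) ≤ L) :
    dcf (1 + d) ≤ L := by
  have hp : 3.1415 ≤ Real.pi := Real.pi_gt_d4.le
  have h1 := cos_pi_ub (n := 5) hd (by norm_num) hp (by linarith) (by norm_num)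
  have h2 := sin_pi_lb (n := 4) hd (by norm_num) hp (by linarith) (by norm_num) (by norm_num)
  have h3 : 0 ≤ Real.sin (Real.pi * d) := Real.sin_nonneg_of_nonneg_of_le_pi
    (mul_nonneg Real.pi_pos.le hd) (by nlinarith [Real.pi_pos])
  rw [dcf_one_add]
  have h4 : (3 + 2 * d) * 3.1415 / 4 * sinT 4 (3.1415 * d) ≤
      (3 + 2 * d) * Real.pi / 4 * Real.sin (Real.pi * d) := by
    have h5 : 0 ≤ 3 + 2 * d := by linarith
    have h6 := mul_le_mul_of_nonneg_left hp h5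
    calc (3 + 2 * d) * 3.1415 / 4 * sinT 4 (3.1415 * d)
        ≤ (3 + 2 * d) * 3.1415 / 4 * Real.sin (Real.pi * d) :=
          mul_le_mul_of_nonneg_left h2 (by positivity)
      _ ≤ _ := mul_le_mul_of_nonneg_right (by linarith) h3
  linarith

/-- rational bounds for `dcf (2+d)` -/
lemma dcf_two_ub' {d L : ℝ} (hd : 0 ≤ d) (hd1 : d ≤ 0.4)
    (h : 1 - cosT 4 (3.1416 * d) / 2 + (5 + 2 * d) * 3.1416 / 4 * sinT 5 (3.1416 * d) ≤ L) :
    dcf (2 + d) ≤ L := by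
  have hp : Real.pi ≤ 3.1416 := Real.pi_lt_d4.le
  have h1 := cos_pi_lb (n := 4) hd hp (by linarith) (by norm_num) (by norm_num)
  have h2 := sin_pi_ub (n := 5) hd hp (by linarith) (by norm_num)
  have h3 : 0 ≤ Real.sin (Real.pi * d) := Real.sin_nonneg_of_nonneg_of_le_pi
    (mul_nonneg Real.pi_pos.le hd) (by nlinarith [Real.pi_pos])
  rw [dcf_two_add]
  have h4 : (5 + 2 * d) * Real.pi / 4 * Real.sin (Real.pi * d) ≤
      (5 + 2 * d) * 3.1416 / 4 * sinT 5 (3.1416 * d) := by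
    apply mul_le_mul _ h2 h3 (by positivity)
    have : 0 ≤ 5 + 2 * d := by linarith
    have := mul_le_mul_of_nonneg_left hp this
    linarith
  linarith

lemma dcf_two_lb' {d L : ℝ} (hd : 0 ≤ d) (hd1 : d ≤ 0.4)
    (h : L ≤ 1 - cosT 5 (3.1415 * d) / 2 + (5 + 2 * d) * 3.1415 / 4 * sinT 4 (3.1415 * d)) :
    L ≤ dcf (2 + d) := by
  have hp : 3.1415 ≤ Real.pi := Real.pi_gt_d4.le
  have h1 := cos_pi_ub (n := 5) hd (by norm_num) hp (by linarith) (by norm_num)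
  have h2 := sin_pi_lb (n := 4) hd (by norm_num) hp (by linarith) (by norm_num) (by norm_num)
  have h3 : 0 ≤ Real.sin (Real.pi * d) := Real.sin_nonneg_of_nonneg_of_le_pi
    (mul_nonneg Real.pi_pos.le hd) (by nlinarith [Real.pi_pos])
  rw [dcf_two_add]
  have h4 : (5 + 2 * d) * 3.1415 / 4 * sinT 4 (3.1415 * d) ≤
      (5 + 2 * d) * Real.pi / 4 * Real.sin (Real.pi * d) := by
    have h5 : 0 ≤ 5 + 2 * d := by linarith
    have h6 := mul_le_mul_of_nonneg_left hp h5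
    calc (5 + 2 * d) * 3.1415 / 4 * sinT 4 (3.1415 * d)
        ≤ (5 + 2 * d) * 3.1415 / 4 * Real.sin (Real.pi * d) :=
          mul_le_mul_of_nonneg_left h2 (by positivity)
      _ ≤ _ := mul_le_mul_of_nonneg_right (by linarith) h3
  linarith

lemma n_f1050 : (2 + 0.0654 : ℝ) ≤ cf (1 + 0.05) := by
  apply cf_one_lb' (by norm_num) (by norm_num)
  norm_num [cosT, Finset.sum_range_succ, Nat.factorial]
lemma n_F1050 : (1 + 0.0596 : ℝ) ≤ cf (2 + 0.0654) := by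
  apply cf_two_lb' (by norm_num) (by norm_num)
  norm_num [cosT, Finset.sum_range_succ, Nat.factorial]
lemma n_f1059 : (2 + 0.0757 : ℝ) ≤ cf (1 + 0.0596) := by
  apply cf_one_lb' (by norm_num) (by norm_num)
  norm_num [cosT, Finset.sum_range_succ, Nat.factorial]
lemma n_F1059 : (1 + 0.074 : ℝ) ≤ cf (2 + 0.0757) := by
  apply cf_two_lb' (by norm_num) (by norm_num)
  norm_num [cosT, Finset.sum_range_succ, Nat.factorial]
lemma n_f1074 : (2 + 0.0898 : ℝ) ≤ cf (1 + 0.074) := by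
  apply cf_one_lb' (by norm_num) (by norm_num)
  norm_num [cosT, Finset.sum_range_succ, Nat.factorial]
lemma n_F1074 : (1 + 0.096 : ℝ) ≤ cf (2 + 0.0898) := by
  apply cf_two_lb' (by norm_num) (by norm_num)
  norm_num [cosT, Finset.sum_range_succ, Nat.factorial]
lemma n_f1096 : (2 + 0.1079 : ℝ) ≤ cf (1 + 0.096) := by
  apply cf_one_lb' (by norm_num) (by norm_num)
  norm_num [cosT, Finset.sum_range_succ, Nat.factorial]
lemma n_F1096 : (1 + 0.1275 : ℝ) ≤ cf (2 + 0.1079) := by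
  apply cf_two_lb' (by norm_num) (by norm_num)
  norm_num [cosT, Finset.sum_range_succ, Nat.factorial]
lemma n_f127 : (2 + 0.1266 : ℝ) ≤ cf (1 + 0.127) := by
  apply cf_one_lb' (by norm_num) (by norm_num)
  norm_num [cosT, Finset.sum_range_succ, Nat.factorial]
lemma n_F127 : (1 + 0.165 : ℝ) ≤ cf (2 + 0.1266) := by
  apply cf_two_lb' (by norm_num) (by norm_num)
  norm_num [cosT, Finset.sum_range_succ, Nat.factorial]
lemma n_fend : (2 + 0.1077 : ℝ) ≤ cf (1 + 4 / 15) := by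
  apply cf_one_lb' (by norm_num) (by norm_num)
  norm_num [cosT, Finset.sum_range_succ, Nat.factorial]
lemma n_Fend : (1 + 0.127 : ℝ) ≤ cf (2 + 0.1077) := by
  apply cf_two_lb' (by norm_num) (by norm_num)
  norm_num [cosT, Finset.sum_range_succ, Nat.factorial]
lemma n_f195 : (2 + 0.1266 : ℝ) ≤ cf (1 + 0.195) := by
  apply cf_one_lb' (by norm_num) (by norm_num)
  norm_num [cosT, Finset.sum_range_succ, Nat.factorial]
lemma n_fc : cf (1 + 0.181) ≤ (2 + 0.13924 : ℝ) := by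
  apply cf_one_ub' (by norm_num) (by norm_num)
  norm_num [cosT, Finset.sum_range_succ, Nat.factorial]
lemma n_Fc : cf (2 + 0.1395) ≤ (1 + 0.195 : ℝ) := by
  apply cf_two_ub' (by norm_num) (by norm_num)
  norm_num [cosT, Finset.sum_range_succ, Nat.factorial]
lemma n_d181 : dcf (1 + 0.181) ≤ 0 := by
  apply dcf_one_ub' (by norm_num) (by norm_num)
  norm_num [cosT, sinT, Finset.sum_range_succ, Nat.factorial]
lemma n_d181' : -0.001 ≤ dcf (1 + 0.181) := by
  apply dcf_one_lb' (by norm_num) (by norm_num)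
  norm_num [cosT, sinT, Finset.sum_range_succ, Nat.factorial]
lemma n_d165 : dcf (1 + 0.165) ≤ 0.14 := by
  apply dcf_one_ub' (by norm_num) (by norm_num)
  norm_num [cosT, sinT, Finset.sum_range_succ, Nat.factorial]
lemma n_d127 : 0.4 ≤ dcf (1 + 0.127) := by
  apply dcf_one_lb' (by norm_num) (by norm_num)
  norm_num [cosT, sinT, Finset.sum_range_succ, Nat.factorial]
lemma n_d195 : -0.14 ≤ dcf (1 + 0.195) := by
  apply dcf_one_lb' (by norm_num) (by norm_num)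
  norm_num [cosT, sinT, Finset.sum_range_succ, Nat.factorial]
lemma n_D1393 : dcf (2 + 0.1395) ≤ 2.31 := by
  apply dcf_two_ub' (by norm_num) (by norm_num)
  norm_num [cosT, sinT, Finset.sum_range_succ, Nat.factorial]
lemma n_d103 : 1.27 ≤ dcf (1 + 0.03) := by
  apply dcf_one_lb' (by norm_num) (by norm_num)
  norm_num [cosT, sinT, Finset.sum_range_succ, Nat.factorial]
lemma n_d105 : 1.11 ≤ dcf (1 + 0.05) := by
  apply dcf_one_lb' (by norm_num) (by norm_num)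
  norm_num [cosT, sinT, Finset.sum_range_succ, Nat.factorial]
lemma n_f102 : (2 + 0.0284 : ℝ) ≤ cf (1 + 0.02) := by
  apply cf_one_lb' (by norm_num) (by norm_num)
  norm_num [cosT, Finset.sum_range_succ, Nat.factorial]
lemma n_D102 : 0.84 ≤ dcf (2 + 0.0284) := by
  apply dcf_two_lb' (by norm_num) (by norm_num)
  norm_num [cosT, sinT, Finset.sum_range_succ, Nat.factorial]
lemma n_f103 : (2 + 0.0415 : ℝ) ≤ cf (1 + 0.03) := by
  apply cf_one_lb' (by norm_num) (by norm_num)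
  norm_num [cosT, Finset.sum_range_succ, Nat.factorial]
lemma n_D103 : 1 ≤ dcf (2 + 0.0415) := by
  apply dcf_two_lb' (by norm_num) (by norm_num)
  norm_num [cosT, sinT, Finset.sum_range_succ, Nat.factorial]

/-- digits of the second attracting cycle -/
lemma n_fa1 : (2.1386563355 : ℝ) ≤ cf (1 + 0.192531907) := by
  have h : (2.1386563355 : ℝ) = 2 + 0.1386563355 := by norm_num
  rw [h]
  apply cf_one_lb' (by norm_num) (by norm_num)
  norm_num [cosT, Finset.sum_range_succ, Nat.factorial]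

end Pool.Agent.Lib.MP_a247fa_nt
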