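import Pool.Agent.Lib.MP_a247fa_nt.Classify

/-!
Orbits in the trap, attracting periodic points in the trap.
-/

set_option autoImplicit false

namespace Pool.Agent.Lib.MP_a247fa_nt

open Real Function

lemma iter_mem_trap {m : ℕ} (hm : 0 < m) {x : ℝ} (hx : x ∈ trapI m) (n : ℕ) :
    0 < T^[n] m ∧ cf^[n] x ∈ trapI (T^[n] m) := by
  induction n with
  | zero => exact ⟨hm, hx⟩
  | succ n ih =>
    rw [Function.iterate_succ_apply', Function.iterate_succ_apply']
    exact ⟨T_pos ih.1, mapsTo_trap ih.1 ih.2⟩

lemma trapI_disjoint {m n : ℕ} {x : ℝ} (hx : x ∈ trapI m) (hy : x ∈ trapI n) : m = n := by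
  have key : ∀ {m : ℕ}, x ∈ trapI m → x < m + 1 := by
    intro m h
    have h1 := h.2
    have h2 : 4 / (5 * (2 * (m : ℝ) + 1)) < 1 := by
      rw [div_lt_one (by positivity)]
      have : (0 : ℝ) ≤ m := Nat.cast_nonneg m
      linarith
    linarith
  have h1 := key hx
  have h2 := key hy
  have h3 : (m : ℝ) < n + 1 := lt_of_le_of_lt hx.1 h2
  have h4 : (n : ℝ) < m + 1 := lt_of_le_of_lt hy.1 h1
  have h3' : m < n + 1 := by exact_mod_cast h3
  have h4' : n < m + 1 := by exact_mod_cast h4
  omega

lemma periodic_of_trap {m : ℕ} (hm : 0 < m) {x : ℝ} (hx : x ∈ trapI m) {p : ℕ}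
    (hp : cf^[p] x = x) : T^[p] m = m := by
  have h := (iter_mem_trap hm hx p).2
  rw [hp] at h
  exact trapI_disjoint h hx

lemma g_iterate (k : ℕ) : g^[k] = cf^[2 * k] := by
  have : g = cf^[2] := by funext x; rfl
  rw [this, ← Function.iterate_mul]

lemma T_iter_one (k : ℕ) : T^[2 * k] 1 = 1 := by
  rw [Function.iterate_mul]
  have : T^[2] 1 = 1 := rfl
  exact Function.iterate_fixed this k

lemma even_period_one {x : ℝ} (hx : x ∈ trapI 1) {p : ℕ} (hp : cf^[p] x = x) : p % 2 = 0 := by
  by_contra h
  obtain ⟨k, rfl⟩ : ∃ k, p = 2 * k + 1 := ⟨p / 2, by omega⟩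
  have h1 := periodic_of_trap one_pos hx hp
  rw [Function.iterate_succ_apply', T_iter_one, T_one] at h1
  omega

lemma g_iter_mem {x : ℝ} (hx : x ∈ trapI 1) (n : ℕ) : g^[n] x ∈ trapI 1 := by
  induction n with
  | zero => exact hx
  | succ n ih => rw [Function.iterate_succ_apply']; exact g_mem ih

/-- A `g`-periodic point of the first trap interval is a fixed point below `1.127`, or `aPt`. -/
lemma classify_one {x : ℝ} (hx : x ∈ trapI 1) {k : ℕ} (hk : 0 < k) (hper : g^[k] x = x) :
    (g x = x ∧ x < 1 + 0.127) ∨ x = aPt := by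
  have hP : IsPeriodicPt g k x := hper
  obtain ⟨i0, hi0, hmin⟩ := Finset.exists_min_image (Finset.range k) (fun i => g^[i] x)
    ⟨0, Finset.mem_range.mpr hk⟩
  have hi0k : i0 < k := Finset.mem_range.mp hi0
  set y := g^[i0] x with hy
  have hall : ∀ j : ℕ, y ≤ g^[j] x := by
    intro j
    rw [← hP.iterate_mod_apply j]
    exact hmin _ (Finset.mem_range.mpr (Nat.mod_lt _ hk))
  have hmem : ∀ j : ℕ, 1 ≤ g^[j] x ∧ g^[j] x ≤ 1 + 4 / 15 := by
    intro j
    have := g_iter_mem hx j
    rw [trapI_one] at this
    exact this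
  rcases lt_or_ge y (1 + 0.127) with hlt | hge
  · left
    set z := g^[i0 + (k - 1)] x with hz
    have hgz : g z = y := by
      rw [hz, ← Function.iterate_succ_apply' g, show (i0 + (k - 1)).succ = i0 + k by omega,
        Function.iterate_add_apply, hper]
    have hyz : y ≤ z := hall _
    have hz1 := hmem (i0 + (k - 1))
    have hy1 := hmem i0
    have h1 := cf_ge_min (x := y) (y := 1 + 4 / 15) (z := z) hy1.1 (by norm_num) hyz hz1.2
    have hcy : cf y ∈ trapI 2 := cf_mem_two (by rw [trapI_one]; exact hy1)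
    have hcz : cf z ∈ trapI 2 := cf_mem_two (by rw [trapI_one]; exact hz1)
    rw [trapI_two] at hcy hcz
    have h2 : g y ≤ y := by
      rcases le_total (cf y) (cf (1 + 4 / 15)) with h | h
      · rw [min_eq_left h] at h1
        have := cf_mono_right hcy.1 (by linarith [hcz.2]) h1
        have h3 : g y ≤ g z := this
        rwa [hgz] at h3
      · rw [min_eq_right h] at h1
        have h3 := cf_mono_right (by norm_num) (by linarith [hcz.2]) (n_fend.trans h1)
        have h4 : cf (cf z) = y := hgz
        rw [h4] at h3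
        have := n_Fend
        linarith
    have h3 : y ≤ g y := by
      have := hall (i0 + 1)
      rwa [Function.iterate_succ_apply', ← hy] at this
    have hfix : g y = y := le_antisymm h2 h3
    have hxy : x = y := by
      have h4 : g^[k - i0] y = x := by
        rw [hy, ← Function.iterate_add_apply, show k - i0 + i0 = k by omega, hper]
      rw [← h4]
      exact Function.iterate_fixed hfix _
    rw [← hxy] at hfix hlt
    exact ⟨hfix, hlt⟩
  · right
    -- all iterates lie in `[1.127, 1 + 4/15]`, hence in `K`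
    have hprev : ∀ j : ℕ, ∃ i : ℕ, g^[j] x = g (g^[i] x) := by
      intro j
      refine ⟨j + (k - 1), ?_⟩
      rw [← Function.iterate_succ_apply' g, show (j + (k - 1)).succ = j + k by omega,
        Function.iterate_add_apply, hper]
    have hle : ∀ j : ℕ, g^[j] x ≤ 1 + 0.195 := by
      intro j
      obtain ⟨i, hi⟩ := hprev j
      rw [hi]
      have h6 : cf (g^[i] x) ≤ 2 + 0.1395 := cf_le_max (hmem i).1 (hmem i).2
      have hc : cf (g^[i] x) ∈ trapI 2 := cf_mem_two (by rw [trapI_one]; exact hmem i)
      rw [trapI_two] at hc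
      exact (cf_mono_right hc.1 (by norm_num) h6).trans n_Fc
    have hK : x ∈ K := by
      obtain ⟨i, hi⟩ := hprev 0
      have h7 : g^[0] x = x := rfl
      rw [h7] at hi
      rw [hi]
      exact g_mem_K' (hge.trans (hall i)) (hle i)
    exact eq_aPt_of_periodic hK hk hper

lemma cf_ne_of_mem_one {x : ℝ} (hx : x ∈ trapI 1) : cf x ≠ x := by
  have h := cf_mem_two hx
  rw [trapI_two] at h
  rw [trapI_one] at hx
  intro he
  rw [he] at h
  linarith [hx.2, h.1]

/-- Attracting periodic points in the trap interval at `1`. -/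
theorem attracting_one {x : ℝ} (hx : x ∈ trapI 1) (ha : IsAttracting x) : x = 1 ∨ x = aPt := by
  obtain ⟨hq, hd⟩ := ha
  have hper : cf^[minimalPeriod cf x] x = x := isPeriodicPt_minimalPeriod cf x
  have heven := even_period_one hx hper
  obtain ⟨k, hk⟩ : ∃ k, minimalPeriod cf x = 2 * k := ⟨minimalPeriod cf x / 2, by omega⟩
  have hk0 : 0 < k := by omega
  rw [hk, ← g_iterate] at hper
  rcases classify_one hx hk0 hper with ⟨hfix, hlt⟩ | h
  · left
    have h2 : IsPeriodicPt cf 2 x := hfix
    have hdvd := h2.minimalPeriod_dvd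
    have hmin2 : minimalPeriod cf x = 2 := by
      have := Nat.le_of_dvd (by norm_num) hdvd
      omega
    have hderiv : deriv (cf^[2]) x = dcf (cf x) * dcf x := (hasDerivAt_g x).deriv
    rw [hmin2, hderiv] at hd
    rw [trapI_one] at hx
    by_contra hne
    have h1 : 1 < x := lt_of_le_of_ne hx.1 (Ne.symm hne)
    rcases le_total x (1 + 0.02) with h | h
    · exact absurd hfix (g_lt_self h1 h).ne
    · rcases le_total x (1 + 0.05) with h' | h'
      · have := one_le_deriv_g h h'
        have := le_abs_self (dcf (cf x) * dcf x)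
        linarith
      · exact absurd hfix (self_lt_g h' hlt).ne'
  · right; exact h

/-- The point `2.138656335...` of the second attracting cycle. -/
noncomputable def bPt : ℝ := cf aPt

lemma cf_bPt : cf bPt = aPt := g_aPt

lemma aPt_mem_trap : aPt ∈ trapI 1 := by
  rw [trapI_one]
  have := aPt_mem
  exact ⟨by linarith [this.1], by linarith [this.2]⟩

/-- Attracting is a property of the cycle. -/
lemma isAttracting_cf {x : ℝ} (h : IsAttracting x) : IsAttracting (cf x) := by
  obtain ⟨hq, hd⟩ := h
  have hper : IsPeriodicPt cf (minimalPeriod cf x) x := isPeriodicPt_minimalPeriod cf x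
  have hper' : IsPeriodicPt cf (minimalPeriod cf x) (cf x) := hper.apply_iterate 1
  refine isAttracting_of_period hq hper' ?_
  rw [deriv_iter] at hd ⊢
  have h1 : ∏ i ∈ Finset.range (minimalPeriod cf x), dcf (cf^[i] (cf x)) =
      ∏ i ∈ Finset.range (minimalPeriod cf x), dcf (cf^[i] x) := by
    obtain ⟨q, hq'⟩ : ∃ q, minimalPeriod cf x = q + 1 := ⟨minimalPeriod cf x - 1, by omega⟩
    rw [hq', Finset.prod_range_succ, Finset.prod_range_succ' (fun i => dcf (cf^[i] x))]
    have h2 : cf^[q] (cf x) = x := by
      rw [← Function.iterate_succ_apply, Nat.succ_eq_add_one, ← hq']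
      exact hper
    rw [h2]
    simp [Function.iterate_succ_apply]
  rw [h1]; exact hd

lemma isAttracting_iter {x : ℝ} (h : IsAttracting x) (n : ℕ) : IsAttracting (cf^[n] x) := by
  induction n with
  | zero => exact h
  | succ n ih => rw [Function.iterate_succ_apply']; exact isAttracting_cf ih

lemma isAttracting_one : IsAttracting 1 := by
  apply isAttracting_of_period (p := 2) two_pos
  · change cf (cf 1) = 1
    rw [cf_one, cf_two]
  · have h : deriv (cf^[2]) 1 = dcf (cf 1) * dcf 1 := (hasDerivAt_g 1).deriv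
    have h1 : dcf 1 = 3 / 2 := by
      have := dcf_one_add 0
      simp at this; rw [this]; norm_num
    have h2 : dcf 2 = 1 / 2 := by
      have := dcf_two_add 0
      simp at this; rw [this]; norm_num
    rw [h, cf_one, h1, h2]
    norm_num [abs_lt]

lemma isAttracting_aPt : IsAttracting aPt := by
  apply isAttracting_of_period (p := 2) two_pos
  · exact g_aPt
  · have h : deriv (cf^[2]) aPt = dcf (cf aPt) * dcf aPt := (hasDerivAt_g aPt).deriv
    rw [h]
    have := abs_deriv_g_le aPt_mem
    linarith

/-- Attracting periodic points in the trap intervals at `1` and `2`. -/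
theorem attracting_one_two {x : ℝ} (hx : x ∈ trapI 1 ∨ x ∈ trapI 2) (ha : IsAttracting x) :
    x = 1 ∨ x = 2 ∨ x = aPt ∨ x = bPt := by
  rcases hx with hx | hx
  · rcases attracting_one hx ha with h | h
    · exact Or.inl h
    · exact Or.inr (Or.inr (Or.inl h))
  · have h1 := attracting_one (cf_mem_one hx) (isAttracting_cf ha)
    -- recover `x` from `cf x`
    have hq := ha.1
    have hper : IsPeriodicPt cf (minimalPeriod cf x) x := isPeriodicPt_minimalPeriod cf x
    obtain ⟨q, hq'⟩ : ∃ q, minimalPeriod cf x = q + 1 := ⟨minimalPeriod cf x - 1, by omega⟩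
    have h2 : cf^[q] (cf x) = x := by
      rw [← Function.iterate_succ_apply, Nat.succ_eq_add_one, ← hq']
      exact hper
    have key : ∀ c : ℝ, g c = c → ∀ n : ℕ, cf^[n] c = c ∨ cf^[n] c = cf c := by
      intro c hc n
      rcases Nat.even_or_odd' n with ⟨j, hj | hj⟩
      · left; rw [hj, ← g_iterate]; exact Function.iterate_fixed hc j
      · right; rw [hj, Function.iterate_succ_apply', ← g_iterate, Function.iterate_fixed hc j]
    have hx2 : x ∈ Set.Icc (2 : ℝ) (2 + 4 / 25) := by rwa [trapI_two] at hx
    rcases h1 with h1 | h1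
    · rw [h1] at h2
      rcases key 1 (by change cf (cf 1) = 1; rw [cf_one, cf_two]) q with h | h
      · rw [h2] at h; linarith [hx2.1]
      · rw [h2, cf_one] at h; exact Or.inr (Or.inl h)
    · rw [h1] at h2
      rcases key aPt g_aPt q with h | h
      · rw [h2] at h
        have := aPt_mem.2
        linarith [hx2.1]
      · rw [h2] at h
        exact Or.inr (Or.inr (Or.inr h))

end Pool.Agent.Lib.MP_a247fa_nt
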