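import Pool.Agent.Lib.MP_a247fa_nt.IntCycles

/-!
Attracting cycles of a given period `p` are confined to `(0, 3^p * 8^(2^p)]`, and there are only
finitely many of them.
-/

set_option autoImplicit false

namespace Pool.Agent.Lib.MP_a247fa_nt

open Real Function

/-- One step of two-sided shadowing, valid for every deviation `d`. -/
lemma two_sided_step {m : ℕ} (hm : 0 < m) (d : ℝ) :
    |cf (m + d) - T m| ≤ 3 / 2 * |d| + (2 * m + 1) / 4 * (4.935 * d ^ 2) := by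
  have hq1 : Real.pi ^ 2 < 9.87 := pi_sq_lt
  have hc0 : 0 ≤ 1 - Real.cos (Real.pi * d) := one_sub_cos_nonneg _
  have hc1 : 1 - Real.cos (Real.pi * d) ≤ 4.935 * d ^ 2 := by
    have := one_sub_cos_le d
    nlinarith [sq_nonneg d]
  have hcos1 := Real.cos_le_one (Real.pi * d)
  have hcos2 := Real.neg_one_le_cos (Real.pi * d)
  have hm0 : (0:ℝ) ≤ (2 * m + 1) / 4 := by positivity
  rcases Nat.mod_two_eq_zero_or_one m with h | h
  · have e : cf (m + d) - T m = d * (1 - Real.cos (Real.pi * d) / 2)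
        + (2 * m + 1) / 4 * (1 - Real.cos (Real.pi * d)) := by
      rw [cf_even m h d, T_even h]; ring
    rw [e]
    refine (abs_add_le _ _).trans ?_
    apply add_le_add
    · rw [abs_mul, mul_comm]
      apply mul_le_mul_of_nonneg_right _ (abs_nonneg d)
      rw [abs_le]; constructor <;> linarith
    · rw [abs_mul, abs_of_nonneg hm0, abs_of_nonneg hc0]
      exact mul_le_mul_of_nonneg_left hc1 hm0
  · have e : cf (m + d) - T m = d * (1 + Real.cos (Real.pi * d) / 2)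
        + -((2 * m + 1) / 4 * (1 - Real.cos (Real.pi * d))) := by
      rw [cf_odd m h d, T_odd h]; ring
    rw [e]
    refine (abs_add_le _ _).trans ?_
    apply add_le_add
    · rw [abs_mul, mul_comm]
      apply mul_le_mul_of_nonneg_right _ (abs_nonneg d)
      rw [abs_le]; constructor <;> linarith
    · rw [abs_neg, abs_mul, abs_of_nonneg hm0, abs_of_nonneg hc0]
      exact mul_le_mul_of_nonneg_left hc1 hm0

lemma T_le_two_mul {m : ℕ} (hm : 0 < m) : (T m : ℝ) ≤ 2 * m := by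
  have hm1 : (1 : ℝ) ≤ m := by exact_mod_cast hm
  rcases Nat.mod_two_eq_zero_or_one m with h | h
  · rw [T_even h]; linarith
  · rw [T_odd h]; linarith

/-- The scaled deviation `A = 7.5 * m * |x - m|` satisfies `A' ≤ A^2 + 3 A`. -/
lemma scaled_step {m : ℕ} (hm : 0 < m) {x A : ℝ} (hA : 7.5 * (m * |x - m|) ≤ A) :
    7.5 * (T m * |cf x - T m|) ≤ A ^ 2 + 3 * A := by
  have hm1 : (1 : ℝ) ≤ m := by exact_mod_cast hm
  set d : ℝ := x - m with hd
  have hx : x = m + d := by rw [hd]; ring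
  have h1 := two_sided_step hm d
  rw [← hx] at h1
  have h2 := T_le_two_mul hm
  have hd0 : 0 ≤ |d| := abs_nonneg d
  have hT0 : (0:ℝ) ≤ T m := by positivity
  have ha0 : 0 ≤ (m : ℝ) * |d| := by positivity
  have hA0 : 0 ≤ A := by linarith
  have h3 : (T m : ℝ) * |cf x - T m| ≤
      2 * m * (3 / 2 * |d| + (2 * m + 1) / 4 * (4.935 * d ^ 2)) :=
    mul_le_mul h2 h1 (abs_nonneg _) (by positivity)
  have h4 : (2 * (m:ℝ) + 1) ≤ 3 * m := by linarith
  have h5 : 2 * (m:ℝ) * (3 / 2 * |d| + (2 * m + 1) / 4 * (4.935 * d ^ 2)) ≤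
      3 * (m * |d|) + 7.4025 * (m * |d|) ^ 2 := by
    have e1 : (m * |d|) ^ 2 = m * (m * d ^ 2) := by
      rw [mul_pow, sq_abs]; ring
    rw [e1]
    have h6 : (2 * (m:ℝ) + 1) * (m * d ^ 2) ≤ 3 * m * (m * d ^ 2) :=
      mul_le_mul_of_nonneg_right h4 (by positivity)
    nlinarith
  have h6 : (7.5 * (m * |d|)) ^ 2 ≤ A ^ 2 := pow_le_pow_left₀ (by positivity) hA 2
  nlinarith

/-- Iterated deviation bound. -/
lemma scaled_iter {m : ℕ} (hm : 0 < m) {x : ℝ} (hx : 7.5 * (m * |x - m|) + 2 ≤ 8) (k : ℕ) :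
    7.5 * ((T^[k] m : ℕ) * |cf^[k] x - (T^[k] m : ℕ)|) + 2 ≤ 8 ^ (2 ^ k) := by
  induction k with
  | zero => simpa using hx
  | succ k ih =>
    rw [Function.iterate_succ_apply', Function.iterate_succ_apply']
    set A : ℝ := 7.5 * (((T^[k] m : ℕ) : ℝ) * |cf^[k] x - (T^[k] m : ℕ)|) with hA
    have hA0 : 0 ≤ A := by rw [hA]; positivity
    have h := scaled_step (T_iter_pos hm k) (x := cf^[k] x) (A := A) le_rfl
    have h2 : (A + 2) ^ 2 ≤ (8 ^ (2 ^ k)) ^ 2 := pow_le_pow_left₀ (by positivity) ih 2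
    have h3 : ((8:ℝ) ^ (2 ^ k)) ^ 2 = 8 ^ (2 ^ (k + 1)) := by
      rw [← pow_mul, pow_succ 2 k]
    rw [h3] at h2
    nlinarith

/-- Linear form of the iterates of `T`. -/
lemma T_iter_form (n p : ℕ) : ∃ k r : ℕ, 2 ^ p * T^[p] n = 3 ^ k * n + r ∧ r + 2 ^ p ≤ 3 ^ p := by
  induction p with
  | zero => exact ⟨0, 0, by simp⟩
  | succ p ih =>
    obtain ⟨k, r, h1, h2⟩ := ih
    rw [Function.iterate_succ_apply']
    rcases Nat.mod_two_eq_zero_or_one (T^[p] n) with h | h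
    · refine ⟨k, r, ?_, ?_⟩
      · have e : 2 * T (T^[p] n) = T^[p] n := by
          simp only [T, h, if_true]; omega
        calc 2 ^ (p + 1) * T (T^[p] n) = 2 ^ p * (2 * T (T^[p] n)) := by ring
          _ = _ := by rw [e, h1]
      · have : 2 ^ p ≤ 3 ^ p := Nat.pow_le_pow_left (by norm_num) p
        rw [pow_succ, pow_succ]; omega
    · refine ⟨k + 1, 3 * r + 2 ^ p, ?_, ?_⟩
      · have e : 2 * T (T^[p] n) = 3 * T^[p] n + 1 := by
          have h0 : ¬ (T^[p] n % 2 = 0) := by omega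
          simp only [T, h0, if_false]; omega
        calc 2 ^ (p + 1) * T (T^[p] n) = 2 ^ p * (2 * T (T^[p] n)) := by ring
          _ = 3 * (2 ^ p * T^[p] n) + 2 ^ p := by rw [e]; ring
          _ = _ := by rw [h1]; ring
      · rw [pow_succ, pow_succ]; omega

/-- An integer cycle of period `p ≥ 1` lies in `[1, 3^p]`. -/
lemma int_cycle_le {n p : ℕ} (hn : 0 < n) (hp : 0 < p) (h : T^[p] n = n) : n ≤ 3 ^ p := by
  obtain ⟨k, r, h1, h2⟩ := T_iter_form n p
  rw [h] at h1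
  have hne : 2 ^ p ≠ 3 ^ k := by
    intro he
    have h3 : Odd (3 ^ k) := Odd.pow (by decide)
    rw [← he] at h3
    have h4 : Even (2 ^ p) := (Nat.even_pow).mpr ⟨even_two, hp.ne'⟩
    exact (Nat.not_even_iff_odd.mpr h3) h4
  have hlt : 3 ^ k < 2 ^ p := by
    rcases lt_or_gt_of_ne hne with h3 | h3
    · exfalso
      have : 2 ^ p * n < 3 ^ k * n := Nat.mul_lt_mul_of_pos_right h3 hn
      omega
    · exact h3
  have h5 : (3 ^ k + 1) * n ≤ 2 ^ p * n := Nat.mul_le_mul_right n hlt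
  have h6 : n ≤ r := by
    rw [h1] at h5
    nlinarith
  have h7 : 0 < 2 ^ p := by positivity
  omega

lemma T_iter_ge (n p : ℕ) : (n : ℝ) / 2 ^ p ≤ (T^[p] n : ℕ) := by
  obtain ⟨k, r, h1, _⟩ := T_iter_form n p
  rw [div_le_iff₀ (by positivity)]
  have h2 : n ≤ T^[p] n * 2 ^ p := by
    rw [mul_comm, h1]
    have : 1 ≤ 3 ^ k := Nat.one_le_pow _ _ (by norm_num)
    nlinarith
  exact_mod_cast h2

/-- A point where `|f'| < 1` is close to an integer. -/
lemma near_integer {m : ℕ} {d : ℝ} (hd : |d| ≤ 1 / 2) (h : |dcf (m + d)| < 1) :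
    7.5 * (m * |d|) + 2 ≤ 8 := by
  have hpi := Real.pi_gt_three
  have hpi0 := Real.pi_pos
  have hsin : 2 * |d| ≤ |Real.sin (Real.pi * d)| := by
    have h1 : 2 / Real.pi * (Real.pi * |d|) ≤ Real.sin (Real.pi * |d|) := by
      apply Real.mul_le_sin
      · positivity
      · nlinarith
    have h2 : 2 / Real.pi * (Real.pi * |d|) = 2 * |d| := by field_simp
    rw [h2] at h1
    refine h1.trans ?_
    rcases abs_choice d with h3 | h3
    · rw [h3]; exact le_abs_self _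
    · rw [h3, mul_neg, Real.sin_neg]; exact neg_le_abs _
  have hdm : |d| ≤ 1 / 2 := hd
  have hd1 := (abs_le.mp hd).1
  have hcos1 := Real.cos_le_one (Real.pi * d)
  have hcos2 : 0 ≤ Real.cos (Real.pi * d) := by
    apply Real.cos_nonneg_of_mem_Icc
    have := abs_le.mp hd
    constructor <;> nlinarith
  have hM : (2 * (m:ℝ)) ≤ 2 * (m + d) + 1 := by linarith
  have hm0 : (0:ℝ) ≤ m := Nat.cast_nonneg m
  have hMpos : 0 ≤ 2 * (m + d) + 1 := by linarith
  have key : (2 * (m + d) + 1) * Real.pi / 4 * |Real.sin (Real.pi * d)| < 5 / 2 := by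
    have hnn : 0 ≤ (2 * (m + d) + 1) * Real.pi / 4 := by positivity
    rcases Nat.mod_two_eq_zero_or_one m with hpar | hpar
    · rw [dcf_even m hpar d] at h
      have h1 : |(2 * (m + d) + 1) * Real.pi / 4 * Real.sin (Real.pi * d)| < 5 / 2 := by
        obtain ⟨ha, hb⟩ := abs_lt.mp h
        rw [abs_lt]; constructor <;> linarith
      rwa [abs_mul, abs_of_nonneg hnn] at h1
    · rw [dcf_odd m hpar d] at h
      have h1 : |(2 * (m + d) + 1) * Real.pi / 4 * Real.sin (Real.pi * d)| < 5 / 2 := by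
        obtain ⟨ha, hb⟩ := abs_lt.mp h
        rw [abs_lt]; constructor <;> linarith
      rwa [abs_mul, abs_of_nonneg hnn] at h1
  have h1 : 2 * (m:ℝ) * 3.14 / 4 * (2 * |d|) ≤
      (2 * (m + d) + 1) * Real.pi / 4 * |Real.sin (Real.pi * d)| := by
    apply mul_le_mul _ hsin (by positivity) (by positivity)
    have h314 : (3.14:ℝ) ≤ Real.pi := Real.pi_gt_d2.le
    have := mul_le_mul hM h314 (by norm_num) hMpos
    linarith
  have h2 : 3.14 * (m * |d|) < 5 / 2 := by linarith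
  linarith

/-- Forward growth bound. -/
lemma cf_iter_le {x : ℝ} (hx : 0 < x) (k : ℕ) : cf^[k] x + 1 ≤ (3 / 2) ^ k * (x + 1) ∧
    0 < cf^[k] x := by
  induction k with
  | zero => simpa using hx
  | succ k ih =>
    rw [Function.iterate_succ_apply']
    refine ⟨?_, cf_pos _ ih.2⟩
    have h1 := cf_le _ ih.2.le
    rw [pow_succ]
    nlinarith [ih.1]

/-- A point of an attracting `p`-cycle where the derivative is less than one is at most
`2^p * 8^(2^p) / 3 + 1/2`. -/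
lemma small_deriv_le {x : ℝ} {p : ℕ} (hx : 0 < x) (hp : 0 < p) (hper : cf^[p] x = x)
    (hd : |dcf x| < 1) : x ≤ 2 ^ p * 8 ^ (2 ^ p) / 3 + 1 / 2 := by
  by_contra hcon
  rw [not_le] at hcon
  obtain ⟨m, hm⟩ : ∃ m : ℕ, |x - m| ≤ 1 / 2 := by
    have h1 := abs_sub_round x
    have h2 : 0 ≤ round x := by
      have h3 : (-1:ℝ) < round x := by
        have := (abs_le.mp h1).2
        linarith
      have h4 : (-1:ℤ) < round x := by exact_mod_cast h3
      omega
    obtain ⟨m, hm⟩ := Int.eq_ofNat_of_zero_le h2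
    refine ⟨m, ?_⟩
    rw [hm] at h1
    exact_mod_cast h1
  have hB1 : (1:ℝ) ≤ 2 ^ p := one_le_pow₀ (by norm_num)
  have hB2 : (8:ℝ) ≤ 8 ^ (2 ^ p) := by
    calc (8:ℝ) = 8 ^ 1 := by norm_num
      _ ≤ 8 ^ (2 ^ p) := pow_le_pow_right₀ (by norm_num) Nat.one_le_two_pow
  have hBB : (8:ℝ) ≤ 2 ^ p * 8 ^ (2 ^ p) := by nlinarith
  have hmx := abs_le.mp hm
  have hmB : 2 ^ p * 8 ^ (2 ^ p) / 3 < (m:ℝ) := by linarith [hmx.2]
  have hm1 : (0:ℝ) < m := by linarith
  have hm0 : 0 < m := by exact_mod_cast hm1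
  have hstart : 7.5 * (m * |x - m|) + 2 ≤ 8 := by
    apply near_integer hm
    have e : (m:ℝ) + (x - m) = x := by ring
    rw [e]; exact hd
  have hend := scaled_iter hm0 hstart p
  rw [hper] at hend
  have hTge := T_iter_ge m p
  -- the deviation after `p` steps is less than 1/2
  have hdev : |x - (T^[p] m : ℕ)| < 1 / 2 := by
    by_contra hcon2
    rw [not_lt] at hcon2
    have h1 : (m:ℝ) / 2 ^ p * (1 / 2) ≤ (T^[p] m : ℕ) * |x - (T^[p] m : ℕ)| :=
      mul_le_mul hTge hcon2 (by norm_num) (by positivity)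
    have h2 : (8:ℝ) ^ (2 ^ p) / 3 < (m:ℝ) / (2:ℝ) ^ p := by
      have h20 : (0:ℝ) < (2:ℝ) ^ p := by positivity
      rw [lt_div_iff₀ h20]
      have e : (8:ℝ) ^ (2 ^ p) / 3 * (2:ℝ) ^ p = (2:ℝ) ^ p * (8:ℝ) ^ (2 ^ p) / 3 := by ring
      rw [e]
      exact hmB
    have h3 : (0:ℝ) < 8 ^ (2 ^ p) := by positivity
    nlinarith
  have heq : T^[p] m = m := by
    have h1 := abs_lt.mp hdev
    have h2 : ((T^[p] m : ℕ) : ℝ) < m + 1 := by linarith [hmx.1, hmx.2]
    have h3 : (m : ℝ) < (T^[p] m : ℕ) + 1 := by linarith [hmx.1, hmx.2]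
    have h2' : T^[p] m < m + 1 := by exact_mod_cast h2
    have h3' : m < T^[p] m + 1 := by exact_mod_cast h3
    omega
  have hle := int_cycle_le hm0 hp heq
  have hle' : (m:ℝ) ≤ 3 ^ p := by exact_mod_cast hle
  -- but `3^p ≤ 2^p * 8^(2^p) / 3`
  have h3p : (3:ℝ) ^ p * 3 ≤ 8 ^ (2 ^ p) := by
    have h1 : p + 1 ≤ 2 ^ p := Nat.lt_two_pow_self
    calc (3:ℝ) ^ p * 3 = 3 ^ (p + 1) := by ring
      _ ≤ 8 ^ (p + 1) := pow_le_pow_left₀ (by norm_num) (by norm_num) _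
      _ ≤ 8 ^ (2 ^ p) := pow_le_pow_right₀ (by norm_num) h1
  have h8 : (8:ℝ) ^ (2 ^ p) ≤ 2 ^ p * 8 ^ (2 ^ p) := by nlinarith
  linarith

/-- **Location of attracting `p`-cycles.** -/
theorem attracting_period_le {x : ℝ} {p : ℕ} (hx : 0 < x) (hp : 0 < p) (hper : cf^[p] x = x)
    (hd : |deriv (cf^[p]) x| < 1) : x ≤ 3 ^ p * 8 ^ (2 ^ p) := by
  rw [deriv_iter, Finset.abs_prod] at hd
  obtain ⟨i, hi, hdi⟩ : ∃ i ∈ Finset.range p, |dcf (cf^[i] x)| < 1 := by
    by_contra hcon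
    push Not at hcon
    have : 1 ≤ ∏ i ∈ Finset.range p, |dcf (cf^[i] x)| := by
      calc (1:ℝ) = ∏ i ∈ Finset.range p, (1:ℝ) := by simp
        _ ≤ _ := Finset.prod_le_prod (fun _ _ => zero_le_one) hcon
    linarith
  rw [Finset.mem_range] at hi
  set y := cf^[i] x with hy
  have hy0 : 0 < y := (cf_iter_le hx i).2
  have hyper : cf^[p] y = y := by
    rw [hy, ← Function.iterate_add_apply, add_comm, Function.iterate_add_apply, hper]
  have hyle := small_deriv_le hy0 hp hyper hdi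
  have hxy : cf^[p - i] y = x := by
    rw [hy, ← Function.iterate_add_apply, Nat.sub_add_cancel hi.le, hper]
  have h1 := (cf_iter_le hy0 (p - i)).1
  rw [hxy] at h1
  have h2 : ((3:ℝ) / 2) ^ (p - i) ≤ (3 / 2) ^ p :=
    pow_le_pow_right₀ (by norm_num) (Nat.sub_le p i)
  have h3 : x + 1 ≤ (3 / 2) ^ p * (2 ^ p * 8 ^ (2 ^ p) / 3 + 3 / 2) := by
    calc x + 1 ≤ (3 / 2) ^ (p - i) * (y + 1) := h1
      _ ≤ (3 / 2) ^ p * (2 ^ p * 8 ^ (2 ^ p) / 3 + 3 / 2) := by
          apply mul_le_mul h2 _ (by linarith) (by positivity)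
          linarith
  have h4 : ((3:ℝ) / 2) ^ p * 2 ^ p = 3 ^ p := by
    rw [← mul_pow]; norm_num
  have h5 : ((3:ℝ) / 2) ^ p ≤ 3 ^ p := pow_le_pow_left₀ (by norm_num) (by norm_num) _
  have hB2 : (8:ℝ) ≤ 8 ^ (2 ^ p) := by
    calc (8:ℝ) = 8 ^ 1 := by norm_num
      _ ≤ 8 ^ (2 ^ p) := pow_le_pow_right₀ (by norm_num) Nat.one_le_two_pow
  have h6 : (3 / 2 : ℝ) ^ p * (2 ^ p * 8 ^ (2 ^ p) / 3 + 3 / 2) =
      3 ^ p * 8 ^ (2 ^ p) / 3 + (3 / 2) ^ p * (3 / 2) := by
    rw [← h4]; ring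
  rw [h6] at h3
  have h7 : (0:ℝ) < 3 ^ p := by positivity
  have h8 : (3:ℝ) ^ p * 8 ≤ 3 ^ p * 8 ^ (2 ^ p) := mul_le_mul_of_nonneg_left hB2 h7.le
  linarith

lemma analytic_cf : AnalyticOnNhd ℝ cf Set.univ := by
  intro x _
  unfold cf
  fun_prop

lemma analytic_iter (n : ℕ) : AnalyticOnNhd ℝ (cf^[n]) Set.univ := by
  induction n with
  | zero => exact analyticOnNhd_id
  | succ n ih =>
    rw [Function.iterate_succ']
    exact analytic_cf.comp ih (Set.mapsTo_univ _ _)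

/-- For each `p ≥ 1` there are only finitely many attracting points of period `p`. -/
theorem attracting_period_finite (p : ℕ) (hp : 0 < p) :
    {x : ℝ | 0 < x ∧ cf^[p] x = x ∧ |deriv (cf^[p]) x| < 1}.Finite := by
  by_contra hinf
  have hinf : {x : ℝ | 0 < x ∧ cf^[p] x = x ∧ |deriv (cf^[p]) x| < 1}.Infinite := hinf
  have hsub : {x : ℝ | 0 < x ∧ cf^[p] x = x ∧ |deriv (cf^[p]) x| < 1} ⊆
      Set.Icc 0 (3 ^ p * 8 ^ (2 ^ p)) :=
    fun x hx => ⟨hx.1.le, attracting_period_le hx.1 hp hx.2.1 hx.2.2⟩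
  obtain ⟨a, _, ha⟩ := hinf.exists_accPt_of_subset_isCompact isCompact_Icc hsub
  have hfreq : ∃ᶠ z in nhdsWithin a {a}ᶜ, cf^[p] z = id z := by
    rw [accPt_iff_frequently_nhdsNE] at ha
    exact ha.mono (fun z hz => hz.2.1)
  have heq := (analytic_iter p).eqOn_of_preconnected_of_frequently_eq
    (g := id) analyticOnNhd_id isPreconnected_univ (Set.mem_univ a) hfreq
  obtain ⟨x, hx⟩ := hinf.nonempty
  have h1 : cf^[p] = id := funext fun z => heq (Set.mem_univ z)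
  have h2 := hx.2.2
  rw [h1] at h2
  simp at h2

end Pool.Agent.Lib.MP_a247fa_nt
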