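import Pool.Agent.Lib.MP_a247fa_nt.Track

/-!
An attracting cycle that shows the pattern has period at least `10`.
-/

set_option autoImplicit false

namespace Pool.Agent.Lib.MP_a247fa_nt

open Real Function

/-- The pattern seen from its starting point. -/
def Pat (m : ℕ) (z : ℝ) : Prop :=
  LeftOf (2 * m) 0.67 z ∧ (∀ i < 5, T^[i] m % 2 = 1) ∧
    ∀ i ≤ 5, LeftOf (T^[i] m) (bB i) (cf^[i + 1] z)

lemma pat_of_pattern {n : ℕ} {y : ℝ} {k : ℕ} (h : Pattern n y k) :
    Pat (T^[k + 1] n) (cf^[k] y) := by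
  obtain ⟨h1, h2, h3, h4⟩ := h
  have e1 : 2 * T^[k + 1] n = T^[k] n := by
    rw [Function.iterate_succ_apply', T_of_even h1]
    omega
  have e2 : ∀ i, T^[i] (T^[k + 1] n) = T^[k + 1 + i] n := by
    intro i
    rw [← Function.iterate_add_apply, add_comm]
  refine ⟨by rw [e1]; exact h2, fun i hi => ?_, fun i hi => ?_⟩
  · rw [e2]; exact h3 i hi
  · rw [e2, ← Function.iterate_add_apply]
    have e3 : i + 1 + k = k + 1 + i := by ring
    rw [e3]
    exact h4 i hi

lemma pat_values {m : ℕ} (h : ∀ i < 5, T^[i] m % 2 = 1) : ∃ t : ℕ, 1 ≤ t ∧ m + 1 = 32 * t ∧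
    T^[1] m + 1 = 48 * t ∧ T^[2] m + 1 = 72 * t ∧ T^[3] m + 1 = 108 * t ∧
    T^[4] m + 1 = 162 * t ∧ T^[5] m + 1 = 243 * t := by
  have h31 := run_five h
  have h0 := h 0 (by norm_num)
  have h1 := h 1 (by norm_num)
  have h2 := h 2 (by norm_num)
  have h3 := h 3 (by norm_num)
  have h4 := h 4 (by norm_num)
  simp only [Function.iterate_succ_apply', Function.iterate_zero_apply] at h0 h1 h2 h3 h4 ⊢
  refine ⟨(m + 1) / 32, by omega, by omega, ?_, ?_, ?_, ?_, ?_⟩
  · rw [T_of_odd h0]; omega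
  · rw [T_of_odd h1, T_of_odd h0]; omega
  · rw [T_of_odd h2, T_of_odd h1, T_of_odd h0]; omega
  · rw [T_of_odd h3, T_of_odd h2, T_of_odd h1, T_of_odd h0]; omega
  · rw [T_of_odd h4, T_of_odd h3, T_of_odd h2, T_of_odd h1, T_of_odd h0]; omega

/-- The sixth point of the pattern is above `241`. -/
lemma pat_large {m : ℕ} {z : ℝ} (h : Pat m z) : 241 < cf^[6] z := by
  obtain ⟨-, h2, h3⟩ := h
  obtain ⟨t, ht, -, -, -, -, -, h5⟩ := pat_values h2
  have h6 := h3 5 le_rfl
  have hN : ((T^[5] m : ℕ) : ℝ) = 243 * t - 1 := by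
    have : ((T^[5] m + 1 : ℕ) : ℝ) = ((243 * t : ℕ) : ℝ) := by rw [h5]
    push_cast at this
    linarith
  obtain ⟨h7, h8⟩ := h6
  simp only [bB] at h8
  rw [hN] at h7 h8
  have ht1 : (1 : ℝ) ≤ t := by exact_mod_cast ht
  change 241 < cf^[5 + 1] z
  by_contra hcon
  push Not at hcon
  nlinarith

lemma pat_long {m : ℕ} {z : ℝ} (h : Pat m z) {p : ℕ} (hp : 0 < p) (hper : cf^[p] z = z) :
    10 ≤ p := by
  by_contra hcon
  push Not at hcon
  obtain ⟨h1, h2, h3⟩ := h
  obtain ⟨t, ht, e0, e1, e2, e3, e4, e5⟩ := pat_values h2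
  have ht1 : (1 : ℝ) ≤ t := by exact_mod_cast ht
  have cast_aux : ∀ {a c : ℕ}, a + 1 = c * t → (a : ℝ) = c * t - 1 := by
    intro a c hac
    have : ((a + 1 : ℕ) : ℝ) = ((c * t : ℕ) : ℝ) := by rw [hac]
    push_cast at this
    linarith
  have c0 := cast_aux e0
  have c1 := cast_aux e1
  have c2 := cast_aux e2
  have c3 := cast_aux e3
  have c4 := cast_aux e4
  have c5 := cast_aux e5
  push_cast at c0 c1 c2 c3 c4 c5
  -- bounds for z
  obtain ⟨hz1, hz2⟩ := h1
  push_cast at hz1 hz2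
  rw [c0] at hz1 hz2
  have hz3 : 64 * (t : ℝ) - 2.02 < z := by
    by_contra hc
    push Not at hc
    nlinarith
  have hz4 : z < 64 * (t : ℝ) - 2 := by linarith
  -- lower bounds for the iterates 1..6
  have l1 := (h3 0 (by norm_num))
  have l2 := (h3 1 (by norm_num))
  have l3 := (h3 2 (by norm_num))
  have l4 := (h3 3 (by norm_num))
  have l5 := (h3 4 (by norm_num))
  have l6 := (h3 5 (by norm_num))
  have u1 : cf^[1] z < 32 * t - 1 := by
    have := l1.1
    simp only [Function.iterate_zero_apply, zero_add] at this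
    rw [c0] at this; exact this
  have u2 : cf^[2] z < 48 * t - 1 := by
    have := l2.1
    rw [c1] at this; exact this
  have g3 : 72 * (t : ℝ) - 1.1 < cf^[3] z := by
    obtain ⟨-, h⟩ := l3
    rw [c2] at h
    simp only [bB] at h
    change 72 * (t : ℝ) - 1.1 < cf^[2 + 1] z
    by_contra hc
    push Not at hc
    nlinarith
  have g4 : 108 * (t : ℝ) - 1.1 < cf^[4] z := by
    obtain ⟨-, h⟩ := l4
    rw [c3] at h
    simp only [bB] at h
    change 108 * (t : ℝ) - 1.1 < cf^[3 + 1] z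
    by_contra hc
    push Not at hc
    nlinarith
  have g5 : 162 * (t : ℝ) - 1.1 < cf^[5] z := by
    obtain ⟨-, h⟩ := l5
    rw [c4] at h
    simp only [bB] at h
    change 162 * (t : ℝ) - 1.1 < cf^[4 + 1] z
    by_contra hc
    push Not at hc
    nlinarith
  -- the sixth iterate
  set N : ℕ := T^[5] m with hN
  set e : ℝ := N - cf^[6] z with he
  have hy6 : cf^[6] z = N + -e := by rw [he]; ring
  have he0 : 0 < e := by
    have := l6.1
    change cf^[6] z < (N : ℝ) at this
    rw [he]; linarith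
  have he1 : 243 * t * e ≤ 2.2816 := by
    have := l6.2
    simp only [bB] at this
    change ((N : ℝ) + 1) * (N - cf^[6] z) ≤ 2.2816 at this
    rw [← he, c5] at this
    linarith
  have he2 : t * e ≤ 0.00939 := by linarith
  have he3 : e ≤ 0.00939 := by
    have h0 : 1 * e ≤ t * e := mul_le_mul_of_nonneg_right ht1 he0.le
    linarith
  have heq : e ^ 2 * (2 * N + 1 + 2 * -e) ≤ 486 * (t * e) * e := by
    have : (2 * (N : ℝ) + 1 + 2 * -e) ≤ 486 * t := by rw [c5]; linarith
    have h0 : 0 ≤ e ^ 2 := sq_nonneg e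
    calc e ^ 2 * (2 * (N : ℝ) + 1 + 2 * -e) ≤ e ^ 2 * (486 * t) :=
          mul_le_mul_of_nonneg_left this h0
      _ = 486 * (t * e) * e := by ring
  have hq1 : e ^ 2 * (2 * N + 1 + 2 * -e) ≤ 4.5636 * e := by
    have h0 : 486 * (t * e) * e ≤ 4.5636 * e :=
      mul_le_mul_of_nonneg_right (by linarith) he0.le
    linarith
  have y7 : cf^[7] z = cf (N + -e) := by
    rw [← hy6, ← Function.iterate_succ_apply' cf]
  have hNpos : (0 : ℝ) ≤ 2 * N + 1 + 2 * -e := by rw [c5]; linarith
  have half : ∀ {k : ℕ} {w : ℝ}, 0 ≤ w → w ≤ cf^[k] z → w / 2 ≤ cf^[k + 1] z := by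
    intro k w hw h
    rw [Function.iterate_succ_apply']
    have := cf_ge (cf^[k] z) (hw.trans h)
    linarith
  have g6 : 243 * (t : ℝ) - 1.01 ≤ cf^[6] z := by rw [hy6, c5]; linarith
  have g7 : 121.5 * (t : ℝ) - 0.505 ≤ cf^[7] z := by
    have := half (by linarith) g6
    linarith
  -- it suffices to contradict `cf^[8] z = z` and `cf^[9] z = z`
  suffices hmain : cf^[8] z ≠ z ∧ cf^[9] z ≠ z by
    interval_cases p
    · linarith
    · linarith
    · linarith
    · linarith
    · linarith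
    · linarith
    · linarith
    · exact hmain.1 hper
    · exact hmain.2 hper
  -- a sufficient condition
  have suff : 160 * (t : ℝ) - 2 ≤ cf^[8] z → cf^[8] z ≠ z ∧ cf^[9] z ≠ z := by
    intro h
    have h9 := half (by linarith) h
    exact ⟨by intro hh; linarith, by intro hh; linarith⟩
  rcases Nat.mod_two_eq_zero_or_one N with hpar | hpar
  · -- N even
    obtain ⟨H, hH⟩ : ∃ H, N = 2 * H := ⟨N / 2, by omega⟩
    have hHr : (H : ℝ) = (243 * t - 1) / 2 := by
      have : (N : ℝ) = 2 * H := by rw [hH]; push_cast; ring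
      linarith
    have a1 := even_near_ge N hpar (-e) hNpos
    have a2 := even_near_le N hpar (-e) hNpos
    rw [← y7] at a1 a2
    set d : ℝ := cf^[7] z - H with hd
    have hNH : (N : ℝ) / 2 = H := by rw [hHr, c5]
    rw [hNH] at a1 a2
    have d1 : -(e / 2) ≤ d := by rw [hd]; linarith
    have d2 : d ≤ 5.64 * e := by
      have : (-e) ^ 2 = e ^ 2 := by ring
      rw [this] at a2
      have : 1.23375 * e ^ 2 * (2 * (N : ℝ) + 1 + 2 * -e) =
        1.23375 * (e ^ 2 * (2 * (N : ℝ) + 1 + 2 * -e)) := by ring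
      rw [this] at a2
      rw [hd]; linarith
    have hdabs : |d| ≤ 5.64 * e := abs_le.mpr ⟨by linarith, d2⟩
    have hdt : |d| * t ≤ 0.053 := by
      have := mul_le_mul_of_nonneg_right hdabs (show (0 : ℝ) ≤ t by linarith)
      linarith
    have hd53 : |d| ≤ 0.053 := by linarith
    have hd0 : 0 ≤ |d| := abs_nonneg d
    have hsq : d ^ 2 = |d| * |d| := by rw [abs_mul_abs_self, sq]
    have hle : d ≤ |d| := le_abs_self d
    have hge : -|d| ≤ d := neg_abs_le d
    have hfac : 2 * (H : ℝ) + 1 + 2 * d ≤ 243.11 * t := by rw [hHr]; linarith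
    have hfac0 : 0 ≤ 2 * (H : ℝ) + 1 + 2 * d := by rw [hHr]; linarith
    have hB : 1.23375 * d ^ 2 * (2 * H + 1 + 2 * d) ≤ 16 * |d| := by
      have h4 : d ^ 2 * (2 * H + 1 + 2 * d) ≤ d ^ 2 * (243.11 * t) :=
        mul_le_mul_of_nonneg_left hfac (sq_nonneg d)
      have h5 : d ^ 2 * (243.11 * t) = 243.11 * (|d| * t) * |d| := by rw [hsq]; ring
      have h6 : 243.11 * (|d| * t) * |d| ≤ 12.9 * |d| := by
        apply mul_le_mul_of_nonneg_right _ hd0
        linarith
      linarith
    have y8 : cf^[8] z = cf (H + d) := by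
      have : cf^[7] z = H + d := by rw [hd]; ring
      rw [← this, ← Function.iterate_succ_apply' cf]
    rcases Nat.mod_two_eq_zero_or_one H with hparH | hparH
    · -- H even, so t ≥ 3
      have ht3 : 3 ≤ t := by omega
      have ht3r : (3 : ℝ) ≤ t := by exact_mod_cast ht3
      obtain ⟨Q, hQ⟩ : ∃ Q, H = 2 * Q := ⟨H / 2, by omega⟩
      have hQr : (Q : ℝ) = (243 * t - 1) / 4 := by
        have : (H : ℝ) = 2 * Q := by rw [hQ]; push_cast; ring
        linarith
      have b1 := even_near_ge H hparH d hfac0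
      have b2 := even_near_le H hparH d hfac0
      rw [← y8] at b1 b2
      have hHQ : (H : ℝ) / 2 = Q := by rw [hQr, hHr]; ring
      rw [hHQ] at b1 b2
      have h8u : cf^[8] z ≤ Q + 16.5 * |d| := by linarith
      have h8l : Q - |d| / 2 ≤ cf^[8] z := by linarith
      have hd3 : |d| ≤ 0.0177 := by
        have h0 : |d| * 3 ≤ |d| * t := mul_le_mul_of_nonneg_left ht3r hd0
        linarith
      refine ⟨by intro hh; rw [hQr] at h8u; linarith, ?_⟩
      set f : ℝ := cf^[8] z - Q with hf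
      have hf1 : -0.01 ≤ f := by rw [hf]; linarith
      have hf2 : f ≤ 0.2921 := by rw [hf]; linarith
      have hfsq : f ^ 2 ≤ 0.0854 := by
        have h0 : f ^ 2 ≤ 0.2921 ^ 2 := sq_le_sq' (by linarith) hf2
        exact h0.trans (by norm_num)
      have hfacQ : 0 ≤ 2 * (Q : ℝ) + 1 + 2 * f := by rw [hQr]; linarith
      have hC : 1.23375 * f ^ 2 * (2 * Q + 1 + 2 * f) ≤ 0.10537 * (2 * Q + 1 + 2 * f) := by
        apply mul_le_mul_of_nonneg_right _ hfacQ
        linarith
      have y9 : cf^[9] z = cf (Q + f) := by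
        have : cf^[8] z = Q + f := by rw [hf]; ring
        rw [← this, ← Function.iterate_succ_apply' cf]
      intro hh
      rcases Nat.mod_two_eq_zero_or_one Q with hparQ | hparQ
      · have c2' := even_near_le Q hparQ f hfacQ
        rw [← y9, hh, hQr] at c2'
        rw [hQr] at hC
        linarith
      · have c2' := odd_near_ge Q hparQ f hfacQ
        rw [← y9, hh, hQr] at c2'
        rw [hQr] at hC
        linarith
    · -- H odd
      apply suff
      have b1 := odd_near_ge H hparH d hfac0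
      rw [← y8] at b1
      rw [hHr] at b1 hB
      linarith
  · -- N odd
    apply suff
    have a1 := odd_near_ge N hpar (-e) hNpos
    rw [← y7, c5] at a1
    have h0 : (-e) ^ 2 = e ^ 2 := by ring
    rw [h0] at a1
    rw [c5] at hq1
    have h7 : 364 * (t : ℝ) - 2 ≤ cf^[7] z := by
      have : 1.23375 * e ^ 2 * (2 * (243 * (t : ℝ) - 1) + 1 + 2 * -e) =
        1.23375 * (e ^ 2 * (2 * (243 * (t : ℝ) - 1) + 1 + 2 * -e)) := by ring
      rw [this] at a1
      linarith
    have h8 := half (by linarith) h7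
    linarith

end Pool.Agent.Lib.MP_a247fa_nt
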