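import Pool.Agent.Lib.MP_a247fa_nt.Window

/-!
The left track: structure of attracting cycles that do not meet the trap.
-/

set_option autoImplicit false

namespace Pool.Agent.Lib.MP_a247fa_nt

open Real Function

/-- Bounds valid along a run of odd steps after an even step. -/
noncomputable def bA : ℕ → ℝ
  | 0 => 0.0233
  | 1 => 0.05444
  | 2 => 0.13347
  | _ => 0.36625

/-- Bounds valid along a run of odd steps after an even step from an integer `≥ 30`. -/
noncomputable def bB : ℕ → ℝ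
  | 0 => 0.0134
  | 1 => 0.03082
  | 2 => 0.07287
  | 3 => 0.18362
  | 4 => 0.53795
  | _ => 2.2816

lemma bA_step {j : ℕ} (hj : j ≤ 2) : bA j ≤ 1 ∧ 2.25 * bA j + 3.70125 * bA j ^ 2 ≤ bA (j + 1) := by
  interval_cases j <;> simp only [bA] <;> norm_num

lemma bB_step {j : ℕ} (hj : j ≤ 4) : bB j ≤ 1 ∧ 2.25 * bB j + 3.70125 * bB j ^ 2 ≤ bB (j + 1) := by
  interval_cases j <;> simp only [bB] <;> norm_num

lemma T_of_odd {m : ℕ} (h : m % 2 = 1) : T m = (3 * m + 1) / 2 := by
  unfold T
  rw [if_neg (by omega)]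

lemma T_of_even {m : ℕ} (h : m % 2 = 0) : T m = m / 2 := by
  unfold T
  rw [if_pos h]

lemma run_four {m : ℕ} (h : ∀ i < 4, T^[i] m % 2 = 1) : 15 ≤ m := by
  have h0 := h 0 (by norm_num)
  have h1 := h 1 (by norm_num)
  have h2 := h 2 (by norm_num)
  have h3 := h 3 (by norm_num)
  simp only [Function.iterate_succ_apply', Function.iterate_zero_apply] at h0 h1 h2 h3
  rw [T_of_odd h0] at h1
  rw [T_of_odd h0, T_of_odd h1] at h2
  rw [T_of_odd h0, T_of_odd h1, T_of_odd h2] at h3
  omega

lemma run_five {m : ℕ} (h : ∀ i < 5, T^[i] m % 2 = 1) : m % 32 = 31 := by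
  have h0 := h 0 (by norm_num)
  have h1 := h 1 (by norm_num)
  have h2 := h 2 (by norm_num)
  have h3 := h 3 (by norm_num)
  have h4 := h 4 (by norm_num)
  simp only [Function.iterate_succ_apply', Function.iterate_zero_apply] at h0 h1 h2 h3 h4
  rw [T_of_odd h0] at h1
  rw [T_of_odd h0, T_of_odd h1] at h2
  rw [T_of_odd h0, T_of_odd h1, T_of_odd h2] at h3
  rw [T_of_odd h0, T_of_odd h1, T_of_odd h2, T_of_odd h3] at h4
  omega

/-- The state of the left track at time `k`. -/
def St (n : ℕ) (y : ℝ) (k : ℕ) : Prop :=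
  ∃ k₀ j, k = k₀ + 1 + j ∧ j ≤ 4 ∧ T^[k₀] n % 2 = 0 ∧ LeftOf (T^[k₀] n) 0.67 (cf^[k₀] y) ∧
    (∀ i < j, T^[k₀ + 1 + i] n % 2 = 1) ∧
    ∀ i ≤ j, (i ≤ 3 → LeftOf (T^[k₀ + 1 + i] n) (bA i) (cf^[k₀ + 1 + i] y)) ∧
      (15 ≤ T^[k₀ + 1] n → LeftOf (T^[k₀ + 1 + i] n) (bB i) (cf^[k₀ + 1 + i] y))

/-- The pattern that every exotic attracting cycle must show. -/
def Pattern (n : ℕ) (y : ℝ) (k₀ : ℕ) : Prop :=
  T^[k₀] n % 2 = 0 ∧ LeftOf (T^[k₀] n) 0.67 (cf^[k₀] y) ∧
    (∀ i < 5, T^[k₀ + 1 + i] n % 2 = 1) ∧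
    ∀ i ≤ 5, LeftOf (T^[k₀ + 1 + i] n) (bB i) (cf^[k₀ + 1 + i] y)

lemma T_iter_pos' {n : ℕ} (hn : 0 < n) (k : ℕ) : 0 < T^[k] n := T_iter_pos hn k

lemma St_zero {n : ℕ} {y : ℝ} {k : ℕ} (hn : 0 < n) (heven : T^[k] n % 2 = 0)
    (h : LeftOf (T^[k] n) 0.67 (cf^[k] y)) (hno : ∀ m, 0 < m → cf^[k + 1] y ∉ trapI m) :
    St n y (k + 1) := by
  have hpos := T_iter_pos' hn k
  rcases even_left heven hpos h with h1 | ⟨h1, h2⟩
  · exfalso
    refine hno _ (T_pos hpos) ?_
    rw [Function.iterate_succ_apply']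
    exact h1
  · refine ⟨k, 0, rfl, by norm_num, heven, h, fun i hi => absurd hi (by omega), ?_⟩
    intro i hi
    obtain rfl : i = 0 := by omega
    simp only [add_zero, Function.iterate_succ_apply']
    refine ⟨fun _ => h1, fun h15 => h2 ?_⟩
    rw [T_of_even heven] at h15
    omega

lemma St_succ {n : ℕ} {y : ℝ} {k : ℕ} (hn : 0 < n) (h : St n y k)
    (hno : ∀ m, 0 < m → cf^[k + 1] y ∉ trapI m) :
    St n y (k + 1) ∨ ∃ k₀, k = k₀ + 5 ∧ Pattern n y k₀ := by
  obtain ⟨k₀, j, rfl, hj, heven, hleft, hodd, hall⟩ := h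
  have h15 : j = 4 → 15 ≤ T^[k₀ + 1] n := by
    intro hj4
    apply run_four
    intro i hi
    rw [← Function.iterate_add_apply, add_comm i (k₀ + 1)]
    exact hodd i (by omega)
  rcases Nat.mod_two_eq_zero_or_one (T^[k₀ + 1 + j] n) with hpar | hpar
  · left
    apply St_zero hn hpar _ hno
    rcases Nat.lt_or_ge j 4 with hlt | hge
    · refine ((hall j le_rfl).1 (by omega)).mono ?_
      interval_cases j <;> simp only [bA] <;> norm_num
    · have hj4 : j = 4 := by omega
      refine ((hall j le_rfl).2 (h15 hj4)).mono ?_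
      subst hj4
      simp only [bB]; norm_num
  · -- one more odd step
    have hodd' : ∀ i < j + 1, T^[k₀ + 1 + i] n % 2 = 1 := by
      intro i hi
      rcases Nat.lt_or_ge i j with h' | h'
      · exact hodd i h'
      · obtain rfl : i = j := by omega
        exact hpar
    have hTs : T^[k₀ + 1 + (j + 1)] n = T (T^[k₀ + 1 + j] n) := by
      rw [← Function.iterate_succ_apply' T]
      rfl
    have hcs : cf^[k₀ + 1 + (j + 1)] y = cf (cf^[k₀ + 1 + j] y) := by
      rw [← Function.iterate_succ_apply' cf]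
      rfl
    have hB : 15 ≤ T^[k₀ + 1] n →
        LeftOf (T^[k₀ + 1 + (j + 1)] n) (bB (j + 1)) (cf^[k₀ + 1 + (j + 1)] y) := by
      intro h
      rw [hTs, hcs]
      have hb := bB_step hj
      exact odd_left hpar ((hall j le_rfl).2 h) hb.1 hb.2
    rcases Nat.lt_or_ge j 4 with hlt | hge
    · left
      refine ⟨k₀, j + 1, by ring, by omega, heven, hleft, hodd', ?_⟩
      intro i hi
      rcases Nat.lt_or_ge i (j + 1) with h' | h'
      · exact hall i (by omega)
      · obtain rfl : i = j + 1 := by omega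
        refine ⟨fun hi3 => ?_, hB⟩
        rw [hTs, hcs]
        have hb := bA_step (j := j) (by omega)
        exact odd_left hpar ((hall j le_rfl).1 (by omega)) hb.1 hb.2
    · right
      have hj4 : j = 4 := by omega
      subst hj4
      refine ⟨k₀, rfl, heven, hleft, hodd', ?_⟩
      intro i hi
      rcases Nat.lt_or_ge i 5 with h' | h'
      · exact (hall i (by omega)).2 (h15 rfl)
      · obtain rfl : i = 5 := by omega
        exact hB (h15 rfl)

/-- Either the left track goes on for ever, or the pattern occurs. -/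
lemma track {n : ℕ} {y : ℝ} (hn : 0 < n) (heven : n % 2 = 0) (h : LeftOf n 0.67 y)
    (hno : ∀ k m, 0 < m → cf^[k] y ∉ trapI m) :
    (∀ k, St n y (k + 1)) ∨ ∃ k₀, Pattern n y k₀ := by
  by_cases hP : ∃ k₀, Pattern n y k₀
  · exact Or.inr hP
  · left
    push Not at hP
    intro k
    induction k with
    | zero => exact St_zero (k := 0) hn heven h (hno 1)
    | succ k ih =>
      rcases St_succ hn ih (hno (k + 1 + 1)) with h1 | ⟨k₀, -, h1⟩
      · exact h1
      · exact absurd h1 (hP k₀)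

lemma St.leftOf {n : ℕ} {y : ℝ} {k : ℕ} (h : St n y k) : LeftOf (T^[k] n) 0.54 (cf^[k] y) := by
  obtain ⟨k₀, j, rfl, hj, heven, hleft, hodd, hall⟩ := h
  rcases Nat.lt_or_ge j 4 with hlt | hge
  · refine ((hall j le_rfl).1 (by omega)).mono ?_
    interval_cases j <;> simp only [bA] <;> norm_num
  · have hj4 : j = 4 := by omega
    have h15 : 15 ≤ T^[k₀ + 1] n := by
      apply run_four
      intro i hi
      rw [← Function.iterate_add_apply, add_comm i (k₀ + 1)]
      exact hodd i (by omega)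
    refine ((hall j le_rfl).2 h15).mono ?_
    subst hj4
    simp only [bB]; norm_num

lemma LeftOf.unique {m n : ℕ} (hm : 0 < m) (hn : 0 < n) {y : ℝ} (h : LeftOf m 0.67 y)
    (h' : LeftOf n 0.67 y) : m = n := by
  have key : ∀ {m : ℕ}, 0 < m → LeftOf m 0.67 y → (m : ℝ) - 1 < y := by
    intro m hm h
    have h1 : (1 : ℝ) ≤ m := by exact_mod_cast hm
    have h2 := h.2
    have h3 := h.1
    nlinarith
  have h1 := key hm h
  have h2 := key hn h'
  have h3 : (m : ℝ) - 1 < n := lt_trans h1 h'.1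
  have h4 : (n : ℝ) - 1 < m := lt_trans h2 h.1
  have h3' : (m : ℝ) < n + 1 := by linarith
  have h4' : (n : ℝ) < m + 1 := by linarith
  have h5 : m < n + 1 := by exact_mod_cast h3'
  have h6 : n < m + 1 := by exact_mod_cast h4'
  omega

/-- Two steps in the left track at `2`. -/
lemma two_steps {z : ℝ} (h : LeftOf 2 0.67 z) (hno : ∀ k m, 0 < m → cf^[k] z ∉ trapI m) :
    z < cf (cf z) := by
  have h1 : LeftOf 1 0.0233 (cf z) := by
    rcases even_left (n := 2) rfl (by norm_num) h with h1 | ⟨h1, -⟩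
    · exact absurd h1 (hno 1 _ (by norm_num [T]))
    · exact h1
  -- first step
  have hz1 := h.1
  set e : ℝ := 2 - z with he
  have he0 : 0 < e := by
    have : z < 2 := by exact_mod_cast hz1
    rw [he]; linarith
  have hz : z = ((2 : ℕ) : ℝ) + -e := by rw [he]; push_cast; ring
  have he1 : e ≤ 0.3 := by
    have := h.2
    push_cast at this
    rw [he]; linarith
  have s1 : 1 - cf z ≤ e / 2 := by
    have := even_near_ge 2 rfl (-e) (by push_cast; linarith)
    rw [← hz] at this
    push_cast at this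
    linarith
  set d : ℝ := 1 - cf z with hd
  have hd0 : 0 < d := by
    have := h1.1
    push_cast at this
    rw [hd]; linarith
  have hd1 : d ≤ 0.01165 := by
    have := h1.2
    push_cast at this
    rw [hd]; linarith
  have hw : cf z = ((1 : ℕ) : ℝ) + -d := by rw [hd]; push_cast; ring
  have s2 : 2 - 1.55 * d ≤ cf (cf z) := by
    have := odd_near_ge 1 rfl (-d) (by push_cast; linarith)
    rw [← hw] at this
    push_cast at this
    nlinarith
  linarith

/-- No periodic orbit in the left track of the trivial cycle. -/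
lemma no_left_two {y : ℝ} {p : ℕ} (hp : 0 < p) (hper : cf^[p] y = y)
    (hno : ∀ k m, 0 < m → cf^[k] y ∉ trapI m) (h : LeftOf 2 0.67 y)
    (hall : ∀ k, St 2 y (k + 1)) : False := by
  have hT : ∀ k, T^[2 * k] 2 = 2 := by
    intro k
    rw [Function.iterate_mul]
    exact Function.iterate_fixed rfl k
  have key : ∀ k, LeftOf 2 0.67 (cf^[2 * k] y) := by
    intro k
    rcases Nat.eq_zero_or_pos k with rfl | hk
    · exact h
    · obtain ⟨l, hl⟩ : ∃ l, 2 * k = l + 1 := ⟨2 * k - 1, by omega⟩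
      have h1 := (hall l).leftOf
      rw [← hl, hT] at h1
      exact h1.mono (by norm_num)
  have hstep : ∀ k, cf^[2 * k] y < cf^[2 * (k + 1)] y := by
    intro k
    have h1 := two_steps (key k) (fun j m hm => by
      rw [← Function.iterate_add_apply]
      exact hno _ m hm)
    have h2 : cf^[2 * (k + 1)] y = cf (cf (cf^[2 * k] y)) := by
      rw [← Function.iterate_succ_apply' cf, ← Function.iterate_succ_apply' cf]
      rfl
    rw [h2]; exact h1
  have hmono : StrictMono (fun k => cf^[2 * k] y) := strictMono_nat_of_lt_succ hstep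
  have h3 := hmono hp
  have h4 : cf^[2 * p] y = y := by
    rw [two_mul, Function.iterate_add_apply, hper, hper]
  simp only [mul_zero, Function.iterate_zero_apply] at h3
  rw [h4] at h3
  exact lt_irrefl _ h3

end Pool.Agent.Lib.MP_a247fa_nt
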