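import Mathlib

/-!
Alternating Taylor bounds for `cos` and `sin` on `[0, ∞)`.
-/

set_option autoImplicit false

namespace Pool.Agent.Lib.MP_a247fa_nt

open Real

/-- The Taylor polynomial of `cos` with `n` terms. -/
noncomputable def cosT (n : ℕ) (x : ℝ) : ℝ :=
  ∑ k ∈ Finset.range n, (-1) ^ k * x ^ (2 * k) / ((2 * k).factorial : ℝ)

/-- The Taylor polynomial of `sin` with `n` terms. -/
noncomputable def sinT (n : ℕ) (x : ℝ) : ℝ :=
  ∑ k ∈ Finset.range n, (-1) ^ k * x ^ (2 * k + 1) / ((2 * k + 1).factorial : ℝ)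

lemma hasDerivAt_sinT (n : ℕ) (x : ℝ) : HasDerivAt (sinT n) (cosT n x) x := by
  unfold sinT cosT
  apply HasDerivAt.fun_sum
  intro k _
  have h := ((hasDerivAt_pow (2 * k + 1) x).const_mul ((-1 : ℝ) ^ k)).div_const
    ((2 * k + 1).factorial : ℝ)
  refine h.congr_deriv ?_
  have h1 : ((2 * k + 1).factorial : ℝ) = (2 * k + 1) * ((2 * k).factorial : ℝ) := by
    rw [Nat.factorial_succ]; push_cast; ring
  rw [h1]
  have h2 : ((2 * k).factorial : ℝ) ≠ 0 := by positivity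
  have h3 : (2 * (k : ℝ) + 1) ≠ 0 := by positivity
  simp only [Nat.add_sub_cancel]
  push_cast
  field_simp

lemma hasDerivAt_cosT (n : ℕ) (x : ℝ) : HasDerivAt (cosT (n + 1)) (-(sinT n x)) x := by
  have e : cosT (n + 1) = fun x => (∑ k ∈ Finset.range n,
      (-1 : ℝ) ^ (k + 1) * x ^ (2 * k + 2) / ((2 * k + 2).factorial : ℝ)) + 1 := by
    funext y
    unfold cosT
    rw [Finset.sum_range_succ']
    simp [mul_add]
  rw [e]
  have hs : HasDerivAt (fun x : ℝ => ∑ k ∈ Finset.range n,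
      (-1 : ℝ) ^ (k + 1) * x ^ (2 * k + 2) / ((2 * k + 2).factorial : ℝ))
      (∑ k ∈ Finset.range n, -((-1) ^ k * x ^ (2 * k + 1) / ((2 * k + 1).factorial : ℝ))) x := by
    apply HasDerivAt.fun_sum
    intro k _
    have h := ((hasDerivAt_pow (2 * k + 2) x).const_mul ((-1 : ℝ) ^ (k + 1))).div_const
      ((2 * k + 2).factorial : ℝ)
    refine h.congr_deriv ?_
    have h1 : ((2 * k + 2).factorial : ℝ) = (2 * k + 2) * ((2 * k + 1).factorial : ℝ) := by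
      rw [Nat.factorial_succ]; push_cast; ring
    rw [h1]
    have h2 : ((2 * k + 1).factorial : ℝ) ≠ 0 := by positivity
    have h3 : (2 * (k : ℝ) + 2) ≠ 0 := by positivity
    have h4 : 2 * k + 2 - 1 = 2 * k + 1 := by omega
    rw [h4]
    push_cast
    field_simp
    ring
  have := hs.add_const (1 : ℝ)
  refine this.congr_deriv ?_
  unfold sinT
  rw [Finset.sum_neg_distrib]

lemma cosT_zero (n : ℕ) : cosT (n + 1) 0 = 1 := by
  unfold cosT
  rw [Finset.sum_range_succ']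
  simp [mul_add]

lemma sinT_zero (n : ℕ) : sinT n 0 = 0 := by
  unfold sinT
  simp

lemma nonneg_of_deriv {g g' : ℝ → ℝ} (hg : ∀ x, HasDerivAt g (g' x) x)
    (h0 : g 0 = 0) (h' : ∀ x, 0 ≤ x → 0 ≤ g' x) : ∀ x, 0 ≤ x → 0 ≤ g x := by
  intro x hx
  have hmono : MonotoneOn g (Set.Ici 0) := by
    apply monotoneOn_of_deriv_nonneg (convex_Ici 0)
      (fun y _ => (hg y).continuousAt.continuousWithinAt)
      (fun y _ => (hg y).differentiableAt.differentiableWithinAt)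
    intro y hy
    rw [(hg y).deriv]
    simp only [interior_Ici, Set.mem_Ioi] at hy
    exact h' y hy.le
  have := hmono (Set.mem_Ici.mpr le_rfl) (Set.mem_Ici.mpr hx) hx
  rwa [h0] at this

theorem taylor_aux (n : ℕ) : (∀ x : ℝ, 0 ≤ x → 0 ≤ (-1) ^ (n + 1) * (Real.cos x - cosT (n + 1) x)) ∧
    (∀ x : ℝ, 0 ≤ x → 0 ≤ (-1) ^ (n + 1) * (Real.sin x - sinT (n + 1) x)) := by
  induction n with
  | zero =>
    have hc : ∀ x : ℝ, 0 ≤ x → 0 ≤ (-1) ^ (0 + 1) * (Real.cos x - cosT (0 + 1) x) := by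
      intro x _
      have : cosT (0 + 1) x = 1 := by simp [cosT]
      rw [this]
      have := Real.cos_le_one x
      simp; linarith
    refine ⟨hc, ?_⟩
    apply nonneg_of_deriv (g' := fun x => (-1) ^ (0 + 1) * (Real.cos x - cosT (0 + 1) x))
    · intro x
      exact ((Real.hasDerivAt_sin x).sub (hasDerivAt_sinT (0 + 1) x)).const_mul _
    · simp [sinT_zero]
    · exact hc
  | succ n ih =>
    have hc : ∀ x : ℝ, 0 ≤ x → 0 ≤ (-1) ^ (n + 1 + 1) * (Real.cos x - cosT (n + 1 + 1) x) := by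
      apply nonneg_of_deriv (g' := fun x => (-1) ^ (n + 1) * (Real.sin x - sinT (n + 1) x))
      · intro x
        have h := ((Real.hasDerivAt_cos x).sub (hasDerivAt_cosT (n + 1) x)).const_mul
          ((-1 : ℝ) ^ (n + 1 + 1))
        refine h.congr_deriv ?_
        rw [pow_succ (-1 : ℝ) (n + 1)]
        ring
      · simp [cosT_zero]
      · exact ih.2
    refine ⟨hc, ?_⟩
    apply nonneg_of_deriv (g' := fun x => (-1) ^ (n + 1 + 1) * (Real.cos x - cosT (n + 1 + 1) x))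
    · intro x
      exact ((Real.hasDerivAt_sin x).sub (hasDerivAt_sinT (n + 1 + 1) x)).const_mul _
    · simp [sinT_zero]
    · exact hc

lemma cos_le_cosT {n : ℕ} (hn : n % 2 = 1) {x : ℝ} (hx : 0 ≤ x) : Real.cos x ≤ cosT n x := by
  obtain ⟨k, rfl⟩ : ∃ k, n = 2 * k + 1 := ⟨n / 2, by omega⟩
  have h := (taylor_aux (2 * k)).1 x hx
  have e : (-1 : ℝ) ^ (2 * k + 1) = -1 := Odd.neg_one_pow ⟨k, rfl⟩
  rw [e] at h; linarith

lemma cosT_le_cos {n : ℕ} (hn : n % 2 = 0) (hn0 : 0 < n) {x : ℝ} (hx : 0 ≤ x) :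
    cosT n x ≤ Real.cos x := by
  obtain ⟨k, rfl⟩ : ∃ k, n = 2 * k + 1 + 1 := ⟨n / 2 - 1, by omega⟩
  have h := (taylor_aux (2 * k + 1)).1 x hx
  have e : (-1 : ℝ) ^ (2 * k + 1 + 1) = 1 := Even.neg_one_pow ⟨k + 1, by ring⟩
  rw [e] at h; linarith

lemma sin_le_sinT {n : ℕ} (hn : n % 2 = 1) {x : ℝ} (hx : 0 ≤ x) : Real.sin x ≤ sinT n x := by
  obtain ⟨k, rfl⟩ : ∃ k, n = 2 * k + 1 := ⟨n / 2, by omega⟩
  have h := (taylor_aux (2 * k)).2 x hx
  have e : (-1 : ℝ) ^ (2 * k + 1) = -1 := Odd.neg_one_pow ⟨k, rfl⟩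
  rw [e] at h; linarith

lemma sinT_le_sin {n : ℕ} (hn : n % 2 = 0) (hn0 : 0 < n) {x : ℝ} (hx : 0 ≤ x) :
    sinT n x ≤ Real.sin x := by
  obtain ⟨k, rfl⟩ : ∃ k, n = 2 * k + 1 + 1 := ⟨n / 2 - 1, by omega⟩
  have h := (taylor_aux (2 * k + 1)).2 x hx
  have e : (-1 : ℝ) ^ (2 * k + 1 + 1) = 1 := Even.neg_one_pow ⟨k + 1, by ring⟩
  rw [e] at h; linarith

/-- `cos x ≤ 1 - x²/2 + x⁴/24`. -/
lemma cos_le_quartic (x : ℝ) : Real.cos x ≤ 1 - x ^ 2 / 2 + x ^ 4 / 24 := by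
  have h := cos_le_cosT (n := 3) (by norm_num) (abs_nonneg x)
  rw [Real.cos_abs] at h
  have e : cosT 3 |x| = 1 - x ^ 2 / 2 + x ^ 4 / 24 := by
    unfold cosT
    simp only [Finset.sum_range_succ, Finset.sum_range_zero]
    have h2 : |x| ^ 2 = x ^ 2 := sq_abs x
    have h4 : |x| ^ 4 = x ^ 4 := by
      calc |x| ^ 4 = (|x| ^ 2) ^ 2 := by ring
        _ = x ^ 4 := by rw [h2]; ring
    norm_num [Nat.factorial, h4]
    ring
  rwa [e] at h

/-- `1 - x²/2 + x⁴/24 - x⁶/720 ≤ cos x`. -/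
lemma sextic_le_cos (x : ℝ) : 1 - x ^ 2 / 2 + x ^ 4 / 24 - x ^ 6 / 720 ≤ Real.cos x := by
  have h := cosT_le_cos (n := 4) (by norm_num) (by norm_num) (abs_nonneg x)
  rw [Real.cos_abs] at h
  have e : cosT 4 |x| = 1 - x ^ 2 / 2 + x ^ 4 / 24 - x ^ 6 / 720 := by
    unfold cosT
    simp only [Finset.sum_range_succ, Finset.sum_range_zero]
    have h2 : |x| ^ 2 = x ^ 2 := sq_abs x
    have h4 : |x| ^ 4 = x ^ 4 := by
      calc |x| ^ 4 = (|x| ^ 2) ^ 2 := by ring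
        _ = x ^ 4 := by rw [h2]; ring
    have h6 : |x| ^ 6 = x ^ 6 := by
      calc |x| ^ 6 = (|x| ^ 2) ^ 3 := by ring
        _ = x ^ 6 := by rw [h2]; ring
    norm_num [Nat.factorial, h4, h6]
    ring
  rwa [e] at h

/-- `x - x³/6 ≤ sin x` for `x ≥ 0`. -/
lemma cubic_le_sin {x : ℝ} (hx : 0 ≤ x) : x - x ^ 3 / 6 ≤ Real.sin x := by
  have h := sinT_le_sin (n := 2) (by norm_num) (by norm_num) hx
  have e : sinT 2 x = x - x ^ 3 / 6 := by
    unfold sinT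
    simp only [Finset.sum_range_succ, Finset.sum_range_zero]
    norm_num [Nat.factorial]
    ring
  rwa [e] at h

/-- `sin x ≤ x - x³/6 + x⁵/120` for `x ≥ 0`. -/
lemma sin_le_quintic {x : ℝ} (hx : 0 ≤ x) : Real.sin x ≤ x - x ^ 3 / 6 + x ^ 5 / 120 := by
  have h := sin_le_sinT (n := 3) (by norm_num) hx
  have e : sinT 3 x = x - x ^ 3 / 6 + x ^ 5 / 120 := by
    unfold sinT
    simp only [Finset.sum_range_succ, Finset.sum_range_zero]
    norm_num [Nat.factorial]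
    ring
  rwa [e] at h

end Pool.Agent.Lib.MP_a247fa_nt
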