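import Pool.Agent.Lib.MP_a247fa_nt.Basic
import Pool.Agent.Lib.MP_a247fa_nt.TrigBounds

/-!
The trap: `cf` maps `[m, m + 4/(5(2m+1))]` into `[T m, T m + 4/(5(2 (T m)+1))]`.
-/

set_option autoImplicit false

namespace Pool.Agent.Lib.MP_a247fa_nt

open Real Function

/-- The trap interval attached to the integer `m`: `[m, m + 4/(5(2m+1))]`. -/
def trapI (m : ℕ) : Set ℝ := Set.Icc (m : ℝ) (m + 4 / (5 * (2 * m + 1)))

lemma pi_sq_lt : Real.pi ^ 2 < 9.87 := by
  have h := Real.pi_lt_d4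
  have h0 := Real.pi_pos
  nlinarith

lemma pi_sq_gt : 9.869 < Real.pi ^ 2 := by
  have h := Real.pi_gt_d4
  nlinarith

lemma one_sub_cos_nonneg (y : ℝ) : 0 ≤ 1 - Real.cos y := by
  linarith [Real.cos_le_one y]

lemma one_sub_cos_le (y : ℝ) : 1 - Real.cos (Real.pi * y) ≤ Real.pi ^ 2 * y ^ 2 / 2 := by
  have := Real.one_sub_sq_div_two_le_cos (x := Real.pi * y)
  nlinarith

lemma le_one_sub_cos (y : ℝ) :
    Real.pi ^ 2 * y ^ 2 / 2 - Real.pi ^ 4 * y ^ 4 / 24 ≤ 1 - Real.cos (Real.pi * y) := by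
  have := cos_le_quartic (Real.pi * y)
  have e : (Real.pi * y) ^ 2 = Real.pi ^ 2 * y ^ 2 := by ring
  have e' : (Real.pi * y) ^ 4 = Real.pi ^ 4 * y ^ 4 := by ring
  rw [e, e'] at this
  linarith

lemma T_even {m : ℕ} (h : m % 2 = 0) : (T m : ℝ) = m / 2 := by
  obtain ⟨k, rfl⟩ : ∃ k, m = 2 * k := ⟨m / 2, by omega⟩
  simp [T]

lemma T_odd {m : ℕ} (h : m % 2 = 1) : (T m : ℝ) = (3 * m + 1) / 2 := by
  obtain ⟨k, rfl⟩ : ∃ k, m = 2 * k + 1 := ⟨m / 2, by omega⟩
  have e : (3 * (2 * k + 1) + 1) / 2 = 3 * k + 2 := by omega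
  have e2 : (2 * k + 1) % 2 = 1 := by omega
  simp only [T, e2, one_ne_zero, if_false, e]
  push_cast; ring

lemma poly_aux (v : ℝ) (hv0 : 0 ≤ v) (hv8 : v ≤ 4 / 5) :
    3 / 2 * v - 1.2336 * v ^ 2 + 0.1128 * v ^ 4 ≤ 0.48 := by
  have hs0 : 0 ≤ v ^ 2 := sq_nonneg v
  have e : v ^ 4 = v ^ 2 * v ^ 2 := by ring
  rw [e]
  rcases le_total v 0.7 with h | h
  · have h1 : v ^ 2 ≤ 0.49 := by nlinarith
    have h2 : v ^ 2 * v ^ 2 ≤ 0.49 * v ^ 2 := mul_le_mul_of_nonneg_right h1 hs0
    have h3 : 0 ≤ (v - 0.6365) ^ 2 := sq_nonneg _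
    have h4 : (v - 0.6365) ^ 2 = v ^ 2 - 1.273 * v + 0.40513225 := by ring
    rw [h4] at h3
    norm_num at *
    linarith
  · have h1 : 0.49 ≤ v ^ 2 := by nlinarith
    have h1' : v ^ 2 ≤ 0.64 := by nlinarith
    have h2 : v ^ 2 * v ^ 2 ≤ 1.13 * v ^ 2 - 0.3136 := by nlinarith
    have h3 : 0 ≤ (v - 0.678) ^ 2 := sq_nonneg _
    have h4 : (v - 0.678) ^ 2 = v ^ 2 - 1.356 * v + 0.459684 := by ring
    rw [h4] at h3
    norm_num at *
    linarith

/-- **The trap.** -/
theorem mapsTo_trap {m : ℕ} (hm : 0 < m) : Set.MapsTo cf (trapI m) (trapI (T m)) := by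
  intro x hx
  obtain ⟨hx1, hx2⟩ := hx
  set M : ℝ := 2 * m + 1 with hM
  set d : ℝ := x - m with hd
  have hxd : x = m + d := by rw [hd]; ring
  have hm1 : (1 : ℝ) ≤ m := by exact_mod_cast hm
  have hM3 : 3 ≤ M := by rw [hM]; linarith
  have hd0 : 0 ≤ d := by rw [hd]; linarith
  have hMpos : 0 < M := by linarith
  have hMd : M * d ≤ 4 / 5 := by
    have : d ≤ 4 / (5 * M) := by rw [hd]; linarith
    rw [le_div_iff₀ (by positivity)] at this
    linarith
  set c : ℝ := 1 - Real.cos (Real.pi * d) with hc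
  have hc0 : 0 ≤ c := one_sub_cos_nonneg _
  set q : ℝ := Real.pi ^ 2 with hq
  have hq1 : q < 9.87 := pi_sq_lt
  have hq2 : 9.869 < q := pi_sq_gt
  have hc1 : c ≤ q * d ^ 2 / 2 := one_sub_cos_le d
  have hc2 : q * d ^ 2 / 2 - q ^ 2 * d ^ 4 / 24 ≤ c := by
    have := le_one_sub_cos d
    have e : Real.pi ^ 4 = q ^ 2 := by rw [hq]; ring
    rw [e] at this
    exact this
  have hd15 : d ≤ 4 / 15 := by nlinarith
  rcases Nat.mod_two_eq_zero_or_one m with h | h
  · -- even
    have hm2 : (2 : ℝ) ≤ m := by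
      have : 2 ≤ m := by omega
      exact_mod_cast this
    have hM5 : 5 ≤ M := by rw [hM]; linarith
    have hval : cf x = m / 2 + (d / 2 + (d / 2 + M / 4) * c) := by
      rw [hxd, cf_even m h d, hc, hM]; ring
    have hT : (T m : ℝ) = m / 2 := T_even h
    have hMT : (2 * (T m : ℝ) + 1) = (M + 1) / 2 := by rw [hT, hM]; ring
    refine ⟨?_, ?_⟩
    · rw [hT, hval]
      have : 0 ≤ (d / 2 + M / 4) * c := by positivity
      linarith
    · rw [hMT, hT, hval]
      have hgoal : d / 2 + (d / 2 + M / 4) * c ≤ 4 / (5 * ((M + 1) / 2)) := by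
        rw [le_div_iff₀ (by positivity)]
        have hdM : d ≤ 4 / (5 * M) := by rw [hd]; linarith
        -- bounds in terms of w = 1 / M
        set w : ℝ := 1 / M with hw
        have hwM : w * M = 1 := by rw [hw]; field_simp
        have hw0 : 0 < w := by positivity
        have hw5 : w ≤ 1 / 5 := by
          rw [hw]; exact one_div_le_one_div_of_le (by norm_num) hM5
        have hdw : d ≤ 4 / 5 * w := by
          have : 4 / (5 * M) = 4 / 5 * w := by rw [hw]; field_simp
          linarith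
        have hc3 : c ≤ q * (4 / 5 * w) ^ 2 / 2 := by
          have : d ^ 2 ≤ (4 / 5 * w) ^ 2 := pow_le_pow_left₀ hd0 hdw 2
          nlinarith
        have hc4 : c ≤ 3.1584 * w ^ 2 := by nlinarith [sq_nonneg w]
        have h1 : (d / 2 + M / 4) * c ≤ (2 / 5 * w + M / 4) * (3.1584 * w ^ 2) := by
          apply mul_le_mul _ hc4 hc0 (by positivity)
          linarith
        have h2 : (2 / 5 * w + M / 4) * (3.1584 * w ^ 2) = 1.26336 * w ^ 3 + 0.7896 * w := by
          have : M * w ^ 2 = w := by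
            calc M * w ^ 2 = (w * M) * w := by ring
              _ = w := by rw [hwM, one_mul]
          linear_combination 0.7896 * this
        have h3 : d / 2 + (d / 2 + M / 4) * c ≤ 1.1896 * w + 1.26336 * w ^ 3 := by
          linarith
        have hM1 : 5 * ((M + 1) / 2) = 5 / 2 * (M + 1) := by ring
        have h4 : (1.1896 * w + 1.26336 * w ^ 3) * (5 / 2 * (M + 1)) =
            5 / 2 * (1.1896 + 1.1896 * w + 1.26336 * w ^ 2 + 1.26336 * w ^ 3) := by
          linear_combination (5 / 2 * (1.1896 + 1.26336 * w ^ 2)) * hwM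
        have h5 : 5 / 2 * (1.1896 + 1.1896 * w + 1.26336 * w ^ 2 + 1.26336 * w ^ 3) ≤ 4 := by
          have : w ^ 2 ≤ (1 / 5) ^ 2 := pow_le_pow_left₀ hw0.le hw5 2
          have : w ^ 3 ≤ (1 / 5) ^ 3 := pow_le_pow_left₀ hw0.le hw5 3
          norm_num at *
          linarith
        calc (d / 2 + (d / 2 + M / 4) * c) * (5 * ((M + 1) / 2))
            ≤ (1.1896 * w + 1.26336 * w ^ 3) * (5 * ((M + 1) / 2)) :=
              mul_le_mul_of_nonneg_right h3 (by positivity)
          _ ≤ 4 := by rw [hM1, h4]; exact h5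
      linarith
  · -- odd
    have hval : cf x = (3 * m + 1) / 2 + (3 / 2 * d - (d / 2 + M / 4) * c) := by
      rw [hxd, cf_odd m h d, hc, hM]; ring
    have hT : (T m : ℝ) = (3 * m + 1) / 2 := T_odd h
    have hMT : (2 * (T m : ℝ) + 1) = (3 * M + 1) / 2 := by rw [hT, hM]; ring
    refine ⟨?_, ?_⟩
    · rw [hT, hval]
      have h1 : (d / 2 + M / 4) * c ≤ (d / 2 + M / 4) * (q * d ^ 2 / 2) :=
        mul_le_mul_of_nonneg_left hc1 (by positivity)
      have h2 : (d / 2 + M / 4) * (q * d) ≤ 3 := by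
        have h3 : (d / 2 + M / 4) * d ≤ 0.24 := by nlinarith
        nlinarith
      have h4 : (d / 2 + M / 4) * (q * d ^ 2 / 2) ≤ 3 / 2 * d := by
        have : (d / 2 + M / 4) * (q * d ^ 2 / 2) = ((d / 2 + M / 4) * (q * d)) * (d / 2) := by ring
        rw [this]
        nlinarith
      linarith
    · rw [hMT, hT, hval]
      have hgoal : 3 / 2 * d - (d / 2 + M / 4) * c ≤ 4 / (5 * ((3 * M + 1) / 2)) := by
        -- it suffices to bound `M *` the left side by `0.48`
        set v : ℝ := M * d with hv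
        have hv0 : 0 ≤ v := by positivity
        have hMc : M * (M / 4 * c) ≥ q / 8 * v ^ 2 - q ^ 2 * v ^ 4 / 864 := by
          have h1 : M * (M / 4 * (q * d ^ 2 / 2 - q ^ 2 * d ^ 4 / 24)) ≤ M * (M / 4 * c) := by
            apply mul_le_mul_of_nonneg_left _ hMpos.le
            apply mul_le_mul_of_nonneg_left hc2 (by positivity)
          have h2 : M * (M / 4 * (q * d ^ 2 / 2 - q ^ 2 * d ^ 4 / 24)) =
              q / 8 * v ^ 2 - q ^ 2 * v ^ 2 * d ^ 2 / 96 := by rw [hv]; ring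
          have h3 : d ^ 2 * 9 ≤ v ^ 2 := by
            have : 3 * d ≤ v := by rw [hv]; nlinarith
            have := pow_le_pow_left₀ (by positivity) this 2
            nlinarith
          have h4 : q ^ 2 * v ^ 2 * d ^ 2 / 96 ≤ q ^ 2 * v ^ 4 / 864 := by
            have h5 : 0 ≤ q ^ 2 * v ^ 2 := by positivity
            nlinarith
          linarith
        have hmain : M * (3 / 2 * d - (d / 2 + M / 4) * c) ≤ 0.48 := by
          have h1 : M * (3 / 2 * d - (d / 2 + M / 4) * c)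
              = 3 / 2 * v - M * (d / 2 * c) - M * (M / 4 * c) := by rw [hv]; ring
          have h2 : 0 ≤ M * (d / 2 * c) := by positivity
          have h3 : 3 / 2 * v - (q / 8 * v ^ 2 - q ^ 2 * v ^ 4 / 864) ≤ 0.48 := by
            have hv8 : v ≤ 4 / 5 := hMd
            have h4 : q / 8 * v ^ 2 ≥ 1.2336 * v ^ 2 :=
              mul_le_mul_of_nonneg_right (by linarith) (sq_nonneg v)
            have h5 : q ^ 2 * v ^ 4 / 864 ≤ 0.1128 * v ^ 4 := by
              have hq3 : q ^ 2 ≤ 97.4169 := by nlinarith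
              have h6 : 0 ≤ v ^ 4 := by positivity
              have h7 := mul_le_mul_of_nonneg_right hq3 h6
              linarith
            have h6 := poly_aux v hv0 hv8
            linarith
          linarith
        have h3M : 4 / (5 * ((3 * M + 1) / 2)) ≥ 0.48 / M := by
          rw [ge_iff_le, div_le_div_iff₀ hMpos (by positivity)]
          nlinarith
        have h4 : 3 / 2 * d - (d / 2 + M / 4) * c ≤ 0.48 / M := by
          rw [le_div_iff₀ hMpos]
          linarith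
        linarith
      linarith

end Pool.Agent.Lib.MP_a247fa_nt
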