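import Pool.Agent.Lib.MP_a247fa_nt.Exotic

/-!
Where `|cf'| < 1`.
-/

set_option autoImplicit false

namespace Pool.Agent.Lib.MP_a247fa_nt

open Real Function

/-- Jordan's inequality in the form used here. -/
lemma two_mul_le_sin_window {d : ℝ} (h0 : 0 ≤ d) (h1 : d ≤ 1 / 2) : 2 * d ≤ Real.sin (Real.pi * d) := by
  have h := Real.mul_le_sin (x := Real.pi * d) (by positivity)
    (by nlinarith [Real.pi_pos])
  have h2 : 2 / Real.pi * (Real.pi * d) = 2 * d := by
    field_simp
  linarith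

lemma sin_pi_ge {d : ℝ} (h0 : 0 ≤ d) :
    Real.pi * d * (1 - 1.645 * d ^ 2) ≤ Real.sin (Real.pi * d) := by
  have h := cubic_le_sin (x := Real.pi * d) (by positivity)
  have h1 : Real.pi * d - (Real.pi * d) ^ 3 / 6 = Real.pi * d * (1 - Real.pi ^ 2 * d ^ 2 / 6) := by
    ring
  rw [h1] at h
  have h2 : 1 - 1.645 * d ^ 2 ≤ 1 - Real.pi ^ 2 * d ^ 2 / 6 := by
    nlinarith [pi_sq_lt, sq_nonneg d]
  have h3 : Real.pi * d * (1 - 1.645 * d ^ 2) ≤ Real.pi * d * (1 - Real.pi ^ 2 * d ^ 2 / 6) :=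
    mul_le_mul_of_nonneg_left h2 (by positivity)
  linarith

lemma pi_gt' : (3.1415 : ℝ) < Real.pi := Real.pi_gt_d4
lemma pi_lt' : Real.pi < 3.1416 := Real.pi_lt_d4

/-- Window at an even integer, right side. -/
lemma window_even_right {n : ℕ} (hn : n % 2 = 0) {d : ℝ} (h0 : 0 ≤ d) (h1 : d ≤ 1 / 2)
    (h : |dcf (n + d)| < 1) : (2 * n + 1 + 2 * d) * d < 0.3184 := by
  rw [dcf_even n hn d, abs_lt] at h
  have hs := two_mul_le_sin_window h0 h1
  have hc : Real.cos (Real.pi * d) ≤ 1 := Real.cos_le_one _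
  have hn0 : (0 : ℝ) ≤ n := Nat.cast_nonneg n
  set s := Real.sin (Real.pi * d)
  have h2 : (2 * ((n : ℝ) + d) + 1) * Real.pi / 4 * s < 1 / 2 := by linarith [h.2]
  have h3 : (2 * ((n : ℝ) + d) + 1) * Real.pi / 4 * (2 * d) ≤
      (2 * ((n : ℝ) + d) + 1) * Real.pi / 4 * s :=
    mul_le_mul_of_nonneg_left hs (by have := Real.pi_pos; positivity)
  have h4 : (2 * (n : ℝ) + 1 + 2 * d) * d * Real.pi < 1 := by nlinarith
  have h5 : 0 ≤ (2 * (n : ℝ) + 1 + 2 * d) * d := by positivity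
  nlinarith [pi_gt']

/-- Window at an even integer, left side. -/
lemma window_even_left {n : ℕ} (hn : n % 2 = 0) (hn0 : 0 < n) {e : ℝ} (h0 : 0 < e)
    (h1 : e ≤ 1 / 2) (h : |dcf (n - e)| < 1) : LeftOf n 0.67 (n - e) := by
  have hn2 : (2 : ℝ) ≤ n := by
    have : 2 ≤ n := by omega
    exact_mod_cast this
  have hd := dcf_even n hn (-e)
  have e1 : (n : ℝ) + -e = n - e := by ring
  rw [e1] at hd
  rw [hd, abs_lt, mul_neg, Real.cos_neg, Real.sin_neg] at h
  obtain ⟨h2, -⟩ := h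
  set s := Real.sin (Real.pi * e) with hs
  set c := Real.cos (Real.pi * e) with hc
  have hM : 0 < 2 * ((n : ℝ) - e) + 1 := by linarith
  have h3 : (2 * ((n : ℝ) - e) + 1) * Real.pi / 4 * s < 2 - c / 2 := by
    have : (2 * ((n : ℝ) - e) + 1) * Real.pi / 4 * -s =
      - ((2 * ((n : ℝ) - e) + 1) * Real.pi / 4 * s) := by ring
    rw [this] at h2
    linarith
  have hs1 : 2 * e ≤ s := two_mul_le_sin_window h0.le h1
  have hcpos : 0 ≤ c := by
    rw [hc]
    apply Real.cos_nonneg_of_mem_Icc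
    constructor <;> nlinarith [Real.pi_pos]
  have hpi := Real.pi_pos
  -- first estimate
  have h4 : e < 0.3184 := by
    have h5 : (2 * ((n : ℝ) - e) + 1) * Real.pi / 4 * (2 * e) ≤
        (2 * ((n : ℝ) - e) + 1) * Real.pi / 4 * s :=
      mul_le_mul_of_nonneg_left hs1 (by positivity)
    have h6 : 4 * Real.pi / 4 * (2 * e) ≤ (2 * ((n : ℝ) - e) + 1) * Real.pi / 4 * (2 * e) := by
      have : 4 * Real.pi ≤ (2 * ((n : ℝ) - e) + 1) * Real.pi :=
        mul_le_mul_of_nonneg_right (by linarith) hpi.le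
      nlinarith
    have h7 : Real.pi * e < 1 := by linarith
    nlinarith [pi_gt']
  have he2 : e ^ 2 < 0.3184 ^ 2 := pow_lt_pow_left₀ h4 h0.le two_ne_zero
  have hs2 : Real.pi * e * 0.8332 ≤ s := by
    have h5 := sin_pi_ge h0.le
    have h6 : (0.8332 : ℝ) ≤ 1 - 1.645 * e ^ 2 := by
      norm_num at he2 ⊢
      linarith
    have h7 : Real.pi * e * 0.8332 ≤ Real.pi * e * (1 - 1.645 * e ^ 2) :=
      mul_le_mul_of_nonneg_left h6 (by positivity)
    linarith
  have hc2 : 1 - c ≤ 4.935 * e ^ 2 := by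
    have := one_sub_cos_le e
    nlinarith [pi_sq_lt, sq_nonneg e]
  have h8 : (2 * ((n : ℝ) - e) + 1) * Real.pi / 4 * (Real.pi * e * 0.8332) < 1.7503 := by
    have h5 : (2 * ((n : ℝ) - e) + 1) * Real.pi / 4 * (Real.pi * e * 0.8332) ≤
        (2 * ((n : ℝ) - e) + 1) * Real.pi / 4 * s :=
      mul_le_mul_of_nonneg_left hs2 (by positivity)
    norm_num at he2
    norm_num at hc2
    linarith
  have h9 : (2 * ((n : ℝ) - e) + 1) * e < 0.8516 := by
    have h5 : (2 * ((n : ℝ) - e) + 1) * Real.pi / 4 * (Real.pi * e * 0.8332) =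
        Real.pi ^ 2 * (((2 * ((n : ℝ) - e) + 1) * e) * 0.2083) := by ring
    rw [h5] at h8
    have h6 : 0 ≤ (2 * ((n : ℝ) - e) + 1) * e := by positivity
    have h7 : 9.869 * (((2 * ((n : ℝ) - e) + 1) * e) * 0.2083) ≤
        Real.pi ^ 2 * (((2 * ((n : ℝ) - e) + 1) * e) * 0.2083) :=
      mul_le_mul_of_nonneg_right pi_sq_gt.le (by positivity)
    norm_num at h7 h8 ⊢
    linarith
  refine ⟨by linarith, ?_⟩
  have h10 : (n : ℝ) - (n - e) = e := by ring
  rw [h10]
  nlinarith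

/-- Window at an odd integer: only on the right, and one step leads into the trap. -/
lemma window_odd_left {n : ℕ} (hn : n % 2 = 1) {e : ℝ} (h0 : 0 ≤ e)
    (h1 : e ≤ 1 / 2) (h : |dcf (n - e)| < 1) : False := by
  have hn1 : (1 : ℝ) ≤ n := by
    have : 1 ≤ n := by omega
    exact_mod_cast this
  have hd := dcf_odd n hn (-e)
  have e1 : (n : ℝ) + -e = n - e := by ring
  rw [e1] at hd
  rw [hd, abs_lt, mul_neg, Real.cos_neg, Real.sin_neg] at h
  have hs1 : 2 * e ≤ Real.sin (Real.pi * e) := two_mul_le_sin_window h0 h1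
  have hcpos : 0 ≤ Real.cos (Real.pi * e) := by
    apply Real.cos_nonneg_of_mem_Icc
    constructor <;> nlinarith [Real.pi_pos]
  have hM : 0 ≤ (2 * ((n : ℝ) - e) + 1) * Real.pi / 4 := by
    have := Real.pi_pos
    have h2 : 0 ≤ 2 * ((n : ℝ) - e) + 1 := by linarith
    positivity
  have h3 : 0 ≤ (2 * ((n : ℝ) - e) + 1) * Real.pi / 4 * Real.sin (Real.pi * e) :=
    mul_nonneg hM (by linarith)
  have h4 : (2 * ((n : ℝ) - e) + 1) * Real.pi / 4 * -Real.sin (Real.pi * e) =
      - ((2 * ((n : ℝ) - e) + 1) * Real.pi / 4 * Real.sin (Real.pi * e)) := by ring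
  rw [h4] at h
  linarith [h.2]

lemma poly_aux2 (v : ℝ) (hv0 : 4 / 5 ≤ v) (hv8 : v ≤ 1.216) :
    3 / 2 * v - 1.2336 * v ^ 2 + 0.1128 * v ^ 4 ≤ 0.48 := by
  have h1 : v ^ 2 ≤ 1.479 := by nlinarith
  have h2 : v ^ 4 = v ^ 2 * v ^ 2 := by ring
  have h3 : v ^ 2 * v ^ 2 ≤ 1.479 * v ^ 2 := mul_le_mul_of_nonneg_right h1 (sq_nonneg v)
  rw [h2]
  rcases le_total v 1 with h | h
  · have h5 : 0.64 ≤ v ^ 2 := by nlinarith
    have h6 : v ^ 2 ≤ 1 := by nlinarith
    have h4 : 0 ≤ (v ^ 2 - 0.64) * (1 - v ^ 2) := mul_nonneg (by linarith) (by linarith)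
    nlinarith
  · nlinarith

/-- Window at an odd integer, right side. -/
lemma window_odd_right {n : ℕ} (hn : n % 2 = 1) {d : ℝ} (h0 : 0 ≤ d) (h1 : d ≤ 1 / 2)
    (h : |dcf (n + d)| < 1) : cf (n + d) ∈ trapI (T n) := by
  have hn1 : (1 : ℝ) ≤ n := by
    have : 1 ≤ n := by omega
    exact_mod_cast this
  have hn0 : 0 < n := by omega
  rcases le_total ((2 * (n : ℝ) + 1) * d) (4 / 5) with hcase | hcase
  · apply mapsTo_trap hn0
    refine ⟨by linarith, ?_⟩
    have : d ≤ 4 / (5 * (2 * (n : ℝ) + 1)) := by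
      rw [le_div_iff₀ (by positivity)]
      linarith
    linarith
  · rw [dcf_odd n hn d, abs_lt] at h
    obtain ⟨h2, -⟩ := h
    set s := Real.sin (Real.pi * d) with hs
    have hval := cf_odd' n hn d
    set c := Real.cos (Real.pi * d) with hc
    have hpi := Real.pi_pos
    have hs1 : 2 * d ≤ s := two_mul_le_sin_window h0 h1
    have hc2 : 4.9345 * d ^ 2 - 4.06 * d ^ 4 ≤ 1 - c := by
      have h3 := le_one_sub_cos d
      have h4 : Real.pi ^ 4 ≤ 97.42 := by
        have : Real.pi ^ 4 = Real.pi ^ 2 * Real.pi ^ 2 := by ring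
        rw [this]
        nlinarith [pi_sq_lt, pi_sq_gt]
      have h5 : Real.pi ^ 4 * d ^ 4 ≤ 97.42 * d ^ 4 :=
        mul_le_mul_of_nonneg_right h4 (by positivity)
      have h6 : 9.869 * d ^ 2 ≤ Real.pi ^ 2 * d ^ 2 :=
        mul_le_mul_of_nonneg_right pi_sq_gt.le (by positivity)
      have h7 : (0 : ℝ) ≤ d ^ 4 := by positivity
      linarith
    have hc1 : 1 - c ≤ 4.935 * d ^ 2 := by
      have := one_sub_cos_le d
      nlinarith [pi_sq_lt, sq_nonneg d]
    have hc0 : 0 ≤ 1 - c := one_sub_cos_nonneg _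
    set D : ℝ := (2 * (n : ℝ) + 1 + 2 * d) * d with hD
    have hM : 0 ≤ (2 * ((n : ℝ) + d) + 1) := by positivity
    -- first estimate
    have h3 : (2 * ((n : ℝ) + d) + 1) * Real.pi / 4 * s < 2.5 - (1 - c) / 2 := by linarith
    have hD1 : D < 1.592 := by
      have h5 : (2 * ((n : ℝ) + d) + 1) * Real.pi / 4 * (2 * d) ≤
          (2 * ((n : ℝ) + d) + 1) * Real.pi / 4 * s :=
        mul_le_mul_of_nonneg_left hs1 (by positivity)
      have h6 : (2 * ((n : ℝ) + d) + 1) * Real.pi / 4 * (2 * d) = D * Real.pi / 2 := by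
        rw [hD]; ring
      have h7 : D * Real.pi < 5 := by linarith
      have h8 : 0 ≤ D := by positivity
      nlinarith [pi_gt']
    have hd1 : d < 0.4156 := by
      by_contra hcon
      push Not at hcon
      have : (3 + 2 * d) * d ≤ D := by
        rw [hD]
        apply mul_le_mul_of_nonneg_right _ h0
        linarith
      nlinarith
    have hD2 : D < 1.2155 := by
      by_contra hcon
      push Not at hcon
      have h4 := sin_pi_ge h0
      rw [← hs] at h4
      have h5 : (2 * ((n : ℝ) + d) + 1) * Real.pi / 4 * (Real.pi * d * (1 - 1.645 * d ^ 2)) ≤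
          (2 * ((n : ℝ) + d) + 1) * Real.pi / 4 * s :=
        mul_le_mul_of_nonneg_left h4 (by positivity)
      have h6 : (2 * ((n : ℝ) + d) + 1) * Real.pi / 4 * (Real.pi * d * (1 - 1.645 * d ^ 2)) =
          Real.pi ^ 2 * (D * (1 - 1.645 * d ^ 2) / 4) := by rw [hD]; ring
      have hd2 : d ^ 2 ≤ 0.17273 := by nlinarith
      have h7 : 0 ≤ 1 - 1.645 * d ^ 2 := by linarith
      have h8 : 1.2155 * (1 - 1.645 * d ^ 2) ≤ D * (1 - 1.645 * d ^ 2) :=
        mul_le_mul_of_nonneg_right hcon h7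
      have h9 : 9.869 * (D * (1 - 1.645 * d ^ 2) / 4) ≤
          Real.pi ^ 2 * (D * (1 - 1.645 * d ^ 2) / 4) := by
        apply mul_le_mul_of_nonneg_right pi_sq_gt.le
        have : 0 ≤ D * (1 - 1.645 * d ^ 2) := le_trans (by positivity) h8
        linarith
      have h10 : d ^ 4 = d ^ 2 * d ^ 2 := by ring
      have h11 : d ^ 2 * d ^ 2 ≤ 0.17273 * d ^ 2 := mul_le_mul_of_nonneg_right hd2 (sq_nonneg d)
      rw [h10] at hc2
      linarith
    have hT := T_odd hn
    refine ⟨?_, ?_⟩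
    · rw [hval, hT]
      have h4 : (1 - c) * (2 * n + 1 + 2 * d) ≤ 4.935 * d ^ 2 * (2 * n + 1 + 2 * d) :=
        mul_le_mul_of_nonneg_right hc1 (by positivity)
      have h5 : 4.935 * d ^ 2 * (2 * n + 1 + 2 * d) = 4.935 * D * d := by rw [hD]; ring
      have h6 : 4.935 * D * d ≤ 6.0005 * d := by
        apply mul_le_mul_of_nonneg_right _ h0
        linarith
      -- slightly sharper: use the exact constant
      have h7 : (1 - c) * (2 * n + 1 + 2 * d) ≤ Real.pi ^ 2 * d ^ 2 / 2 * (2 * n + 1 + 2 * d) :=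
        mul_le_mul_of_nonneg_right (one_sub_cos_le d) (by positivity)
      have h8 : Real.pi ^ 2 * d ^ 2 / 2 * (2 * n + 1 + 2 * d) = Real.pi ^ 2 * D * d / 2 := by
        rw [hD]; ring
      have h9 : Real.pi ^ 2 ≤ 9.8697 := by
        nlinarith [pi_lt', Real.pi_pos]
      have hD0 : 0 ≤ D := by positivity
      have h10 : Real.pi ^ 2 * D ≤ 12 := by nlinarith
      have h11 : Real.pi ^ 2 * D * d ≤ 12 * d := mul_le_mul_of_nonneg_right h10 h0
      linarith
    · have hMT : (2 * ((T n : ℕ) : ℝ) + 1) = (3 * (2 * n + 1) + 1) / 2 := by rw [hT]; ring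
      rw [hMT, hval, hT]
      set M : ℝ := 2 * (n : ℝ) + 1 with hMdef
      have hM3 : 3 ≤ M := by rw [hMdef]; linarith
      set v : ℝ := M * d with hv
      have hv1 : v ≤ 1.216 := by
        have : v ≤ D := by
          rw [hv, hD]
          apply mul_le_mul_of_nonneg_right _ h0
          linarith
        linarith
      have hv0 : 4 / 5 ≤ v := hcase
      have h4 := poly_aux2 v hv0 hv1
      -- M * ((1-c) (M + 2 d)/4) >= 1.2336 v^2 - 0.1128 v^4
      have h5 : 1.2336 * v ^ 2 - 0.1128 * v ^ 4 ≤ M * ((1 - c) * (M + 2 * d) / 4) := by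
        have h6 : (4.9345 * d ^ 2 - 4.06 * d ^ 4) * M ≤ (1 - c) * (M + 2 * d) := by
          have h7 : (4.9345 * d ^ 2 - 4.06 * d ^ 4) * M ≤ (1 - c) * M :=
            mul_le_mul_of_nonneg_right hc2 (by linarith)
          have h8 : 0 ≤ (1 - c) * (2 * d) := by positivity
          linarith
        have h7 : M * ((4.9345 * d ^ 2 - 4.06 * d ^ 4) * M / 4) =
            1.233625 * v ^ 2 - 1.015 * (M ^ 2 * d ^ 4) := by rw [hv]; ring
        have h8 : M ^ 2 * d ^ 4 * 9 ≤ v ^ 4 := by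
          have h9 : (0 : ℝ) ≤ M ^ 2 * d ^ 4 := by positivity
          have h10 : (9 : ℝ) ≤ M ^ 2 := by nlinarith
          have h11 : v ^ 4 = M ^ 2 * (M ^ 2 * d ^ 4) := by rw [hv]; ring
          rw [h11]
          nlinarith
        have h9 : M * ((4.9345 * d ^ 2 - 4.06 * d ^ 4) * M / 4) ≤
            M * ((1 - c) * (M + 2 * d) / 4) := by
          apply mul_le_mul_of_nonneg_left _ (by linarith)
          linarith
        have h10 : 0 ≤ v ^ 2 := sq_nonneg v
        have h11 : 0 ≤ v ^ 4 := by positivity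
        linarith
      have h6 : M * (3 * d / 2 - (1 - c) * (M + 2 * d) / 4) ≤ 0.48 := by
        have : M * (3 * d / 2 - (1 - c) * (M + 2 * d) / 4) =
          3 / 2 * v - M * ((1 - c) * (M + 2 * d) / 4) := by rw [hv]; ring
        rw [this]
        linarith
      have h7 : 3 * d / 2 - (1 - c) * (M + 2 * d) / 4 ≤ 0.48 / M := by
        rw [le_div_iff₀ (by linarith)]
        linarith
      have h8 : 0.48 / M ≤ 4 / (5 * ((3 * M + 1) / 2)) := by
        rw [div_le_div_iff₀ (by linarith) (by positivity)]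
        nlinarith
      linarith

/-- Where `|cf'| < 1` on the positive half-line. -/
theorem window {y : ℝ} (hy : 0 < y) (h : |dcf y| < 1) :
    y < 0.23 ∨ (∃ n, 0 < n ∧ (y ∈ trapI n ∨ cf y ∈ trapI (T n))) ∨
      (∃ n, n % 2 = 0 ∧ 0 < n ∧ LeftOf n 0.67 y) := by
  obtain ⟨n, hn1, hn2⟩ : ∃ n : ℕ, -(1 / 2) ≤ y - n ∧ y - n ≤ 1 / 2 := by
    refine ⟨⌊y + 1 / 2⌋₊, ?_, ?_⟩
    · have := Nat.floor_le (show 0 ≤ y + 1 / 2 by linarith)
      linarith
    · have := Nat.lt_floor_add_one (y + 1 / 2)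
      linarith
  set d : ℝ := y - n with hd
  have hyd : y = n + d := by rw [hd]; ring
  rcases Nat.mod_two_eq_zero_or_one n with hpar | hpar
  · rcases le_or_gt 0 d with h0 | h0
    · rw [hyd] at h
      have h1 := window_even_right hpar h0 hn2 h
      rcases Nat.eq_zero_or_pos n with hz | hpos
      · left
        subst hz
        simp only [Nat.cast_zero, zero_add, mul_zero] at hyd h1
        rw [hyd]
        by_contra hcon
        push Not at hcon
        nlinarith
      · right; left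
        refine ⟨n, hpos, Or.inl ⟨by linarith, ?_⟩⟩
        rw [hyd]
        have hn1' : (1 : ℝ) ≤ n := by exact_mod_cast hpos
        have : d ≤ 4 / (5 * (2 * (n : ℝ) + 1)) := by
          rw [le_div_iff₀ (by positivity)]
          nlinarith
        linarith
    · have hpos : 0 < n := by
        by_contra hcon
        have : n = 0 := by omega
        subst this
        simp only [Nat.cast_zero, sub_zero] at hd
        linarith
      right; right
      refine ⟨n, hpar, hpos, ?_⟩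
      have h2 : y = n - -d := by rw [hyd]; ring
      rw [h2] at h ⊢
      exact window_even_left hpar hpos (by linarith) (by linarith) h
  · rcases le_or_gt 0 d with h0 | h0
    · right; left
      refine ⟨n, by omega, Or.inr ?_⟩
      rw [hyd] at h ⊢
      exact window_odd_right hpar h0 hn2 h
    · exfalso
      have h2 : y = n - -d := by rw [hyd]; ring
      rw [h2] at h
      exact window_odd_left hpar (by linarith) (by linarith) h

/-- No periodic point in `(0, 0.23)`. -/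
lemma cf_lt_self {y : ℝ} (h0 : 0 < y) (h1 : y < 0.23) : cf y < y := by
  unfold cf
  have h2 : 1 - Real.cos (Real.pi * y) ≤ 4.935 * y ^ 2 := by
    have := one_sub_cos_le y
    nlinarith [pi_sq_lt, sq_nonneg y]
  have h3 : 1 - 4.935 * y ^ 2 ≤ Real.cos (Real.pi * y) := by linarith
  have h4 : (2 * y + 1) / 4 * (1 - 4.935 * y ^ 2) ≤ (2 * y + 1) / 4 * Real.cos (Real.pi * y) :=
    mul_le_mul_of_nonneg_left h3 (by positivity)
  nlinarith [mul_pos h0 h0, mul_pos (mul_pos h0 h0) h0]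

lemma not_periodic_small {y : ℝ} (h0 : 0 < y) (h1 : y < 0.23) {p : ℕ} (hp : 0 < p) :
    cf^[p] y ≠ y := by
  have key : ∀ k : ℕ, 0 < cf^[k] y ∧ cf^[k] y ≤ y ∧ (0 < k → cf^[k] y < y) := by
    intro k
    induction k with
    | zero => exact ⟨h0, le_refl _, fun h => absurd h (lt_irrefl _)⟩
    | succ k ih =>
      rw [Function.iterate_succ_apply']
      have h2 := cf_pos _ ih.1
      have h3 := cf_lt_self ih.1 (lt_of_le_of_lt ih.2.1 h1)
      exact ⟨h2, by linarith [ih.2.1], fun _ => by linarith [ih.2.1]⟩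
  exact ((key p).2.2 hp).ne

end Pool.Agent.Lib.MP_a247fa_nt
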